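import Mathlib
import Pool.Graph.R_seed8.H187R3.Defs
import Pool.Graph.R_seed8.Y939.BAB.Alg

/-!
# Fano varieties over fields of characteristic `p ≥ 3`: the derivation

Let `p ≥ 3` be a prime and `d + 1 = p + q` with `q ≥ 0`. `ℓ = F_p(t_j : j ∈ J)`, where `J` consists of
the indices `e_0, ..., e_d` and of seven indices `B_{n,0}, B_{n,1}, B_{n,2}, C_n, A_{n,0}, A_{n,1}, A_{n,2}`
for every `n < M`. On `ℓ[Y_0, ..., Y_d]` let `D` be the derivation which kills the `Y_i` and with

  `D e_i = Y_i`,  `D A_n = C_n Y`,  `D C_n = Y · B_n`,  `D B_n = Y × A_{n-1}`  (`A_{-1} = 0`)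

where `Y = (Y_0, Y_1, Y_2)`. Then `D³ = 0` on the generators, so `D^p = 0`. The files in this
directory follow those of `Pool/Agent/Y939/BAB` (characteristic two, another derivation, of
degree two).
-/

open MvPolynomial

namespace Pool.Agent.H11.BAB

/-- The parameters: an odd prime `p`, the dimension `d` and `q` with `d + 1 = p + q`. -/
class Pr where
  p : ℕ
  d : ℕ
  q : ℕ
  hp : Nat.Prime p
  hp3 : 3 ≤ p
  hd : d + 1 = p + q

variable [Pr]

instance : Fact (Nat.Prime Pr.p) := ⟨Pr.hp⟩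

lemma p_ne_zero : Pr.p ≠ 0 := Pr.hp.ne_zero
lemma p_pos : 0 < Pr.p := Pr.hp.pos
lemma two_le_d : 2 ≤ Pr.d := by have := Pr.hd; have := Pr.hp3; omega

abbrev Fp := ZMod Pr.p

/-- the index set of the homogeneous coordinates -/
abbrev F3 : Type := Fin (Pr.d + 1)

/-- the seven indices of a level -/
inductive TT
  | B (a : Fin 3)
  | C
  | A (a : Fin 3)
  deriving DecidableEq, Fintype

omit [Pr] in
lemma card_TT : Fintype.card TT = 7 := rfl

abbrev J (M : ℕ) := F3 ⊕ (Fin M × TT)
abbrev Vars (M : ℕ) := J M ⊕ F3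
abbrev PP (M : ℕ) := MvPolynomial (Vars M) Fp
abbrev FF (M : ℕ) := FractionRing (PP M)

/-- the first three coordinates -/
def cY (a : Fin 3) : F3 := ⟨a.val, by have := a.2; have := two_le_d; omega⟩

lemma cY_injective : Function.Injective cY := by
  intro a b h
  have := congrArg Fin.val h
  exact Fin.ext this

variable (M : ℕ)

noncomputable def Yv (l : F3) : PP M := X (Sum.inr l)
noncomputable def Tv (j : J M) : PP M := X (Sum.inl j)

/-- The variable of level `n` and kind `k`, zero for `n ≥ M`. -/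
noncomputable def Lv (n : ℕ) (k : TT) : PP M :=
  if h : n < M then Tv M (Sum.inr (⟨n, h⟩, k)) else 0

/-- The variable `A_{n-1,a}`, with `A_{-1} = 0`. -/
noncomputable def Apre : ℕ → Fin 3 → PP M
  | 0, _ => 0
  | (n+1), a => Lv M n (TT.A a)

/-- `Y · B_n` -/
noncomputable def YB (n : ℕ) : PP M :=
  Yv M (cY 0) * Lv M n (TT.B 0) + Yv M (cY 1) * Lv M n (TT.B 1) + Yv M (cY 2) * Lv M n (TT.B 2)

/-- The values of the derivation. -/
noncomputable def qq : J M → PP M
  | Sum.inl i => Yv M i
  | Sum.inr (n, TT.A a) => Lv M n TT.C * Yv M (cY a)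
  | Sum.inr (n, TT.C) => YB M n
  | Sum.inr (n, TT.B a) => Yv M (cY (a + 1)) * Apre M n (a + 2) - Yv M (cY (a + 2)) * Apre M n (a + 1)

/-- The values of the square of the derivation. -/
noncomputable def rr : J M → PP M
  | Sum.inr (n, TT.A a) => YB M n * Yv M (cY a)
  | _ => 0

noncomputable def DD : Derivation Fp (PP M) (PP M) := mkDerivation Fp (Sum.elim (qq M) 0)

@[simp] lemma DD_Y (l : F3) : DD M (Yv M l) = 0 := by
  simp [DD, Yv, mkDerivation_X]

@[simp] lemma DD_T (j : J M) : DD M (Tv M j) = qq M j := by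
  simp [DD, Tv, mkDerivation_X]

lemma DD_Lv (n : Fin M) (k : TT) : DD M (Lv M n k) = qq M (Sum.inr (n, k)) := by
  rw [Lv, dif_pos n.2, DD_T]

lemma Lv_fin (n : Fin M) (k : TT) : Lv M n k = Tv M (Sum.inr (n, k)) := by
  rw [Lv, dif_pos n.2]

lemma DD_YB (n : Fin M) : DD M (YB M n) = 0 := by
  simp only [YB, map_add, Derivation.leibniz, DD_Y, DD_Lv, smul_eq_mul, qq, mul_zero, add_zero]
  have e1 : (0 : Fin 3) + 1 = 1 := rfl
  have e2 : (0 : Fin 3) + 2 = 2 := rfl
  have e3 : (1 : Fin 3) + 1 = 2 := rfl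
  have e4 : (1 : Fin 3) + 2 = 0 := rfl
  have e5 : (2 : Fin 3) + 1 = 0 := rfl
  have e6 : (2 : Fin 3) + 2 = 1 := rfl
  rw [e1, e2, e3, e4, e5, e6]
  ring

lemma DD_Apre (n : Fin M) :
    ∃ c : PP M, ∀ a : Fin 3, DD M (Apre M n a) = c * Yv M (cY a) := by
  obtain ⟨n, hn⟩ := n
  cases n with
  | zero => exact ⟨0, fun a => by simp [Apre]⟩
  | succ k =>
    have hk : k < M := by omega
    refine ⟨Lv M k TT.C, fun a => ?_⟩
    have := DD_Lv M ⟨k, hk⟩ (TT.A a)
    simpa [Apre, qq] using this

lemma DD_qq (j : J M) : DD M (qq M j) = rr M j := by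
  rcases j with i | ⟨n, k⟩
  · simp [qq, rr]
  · rcases k with a | _ | a
    · obtain ⟨c, hc⟩ := DD_Apre M n
      simp only [qq, rr, map_sub, Derivation.leibniz, DD_Y, smul_eq_mul, mul_zero, add_zero, hc]
      ring
    · simp only [qq, rr]
      exact DD_YB M n
    · simp only [qq, rr, Derivation.leibniz, DD_Y, smul_eq_mul, mul_zero, zero_add]
      rw [DD_Lv]
      simp only [qq]
      ring

lemma DD_rr (j : J M) : DD M (rr M j) = 0 := by
  rcases j with i | ⟨n, k⟩
  · simp [rr]
  · rcases k with a | _ | a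
    · simp [rr]
    · simp [rr]
    · simp only [rr, Derivation.leibniz, DD_Y, DD_YB, smul_zero, add_zero]

/-- weights -/
def wt : Vars M → ℕ := Sum.elim (fun _ => 0) (fun _ => 1)

/-- the homogeneous parts of the polynomial ring -/
noncomputable abbrev HH (d : ℕ) : Submodule Fp (PP M) := weightedHomogeneousSubmodule Fp (wt M) d

lemma Yv_mem (l : F3) : Yv M l ∈ HH M 1 := by
  rw [mem_weightedHomogeneousSubmodule]
  exact isWeightedHomogeneous_X _ _ _

lemma Tv_mem (j : J M) : Tv M j ∈ HH M 0 := by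
  rw [mem_weightedHomogeneousSubmodule]
  exact isWeightedHomogeneous_X _ _ _

lemma HH_mul {a b : ℕ} {p q : PP M} (hp : p ∈ HH M a) (hq : q ∈ HH M b) : p * q ∈ HH M (a + b) := by
  rw [mem_weightedHomogeneousSubmodule] at *
  exact hp.mul hq

lemma Lv_mem (n : ℕ) (k : TT) : Lv M n k ∈ HH M 0 := by
  rw [Lv]
  split_ifs with h
  · exact Tv_mem M _
  · exact Submodule.zero_mem _

lemma Apre_mem (n : ℕ) (a : Fin 3) : Apre M n a ∈ HH M 0 := by
  cases n with
  | zero => exact Submodule.zero_mem _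
  | succ k => exact Lv_mem M k _

lemma YB_mem (n : ℕ) : YB M n ∈ HH M 1 := by
  unfold YB
  exact Submodule.add_mem _ (Submodule.add_mem _ (HH_mul M (b := 0) (Yv_mem M _) (Lv_mem M _ _))
    (HH_mul M (b := 0) (Yv_mem M _) (Lv_mem M _ _))) (HH_mul M (b := 0) (Yv_mem M _) (Lv_mem M _ _))

lemma qq_mem (j : J M) : qq M j ∈ HH M 1 := by
  rcases j with i | ⟨n, k⟩
  · exact Yv_mem M i
  · rcases k with a | _ | a
    · exact Submodule.sub_mem _ (HH_mul M (b := 0) (Yv_mem M _) (Apre_mem M _ _))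
        (HH_mul M (b := 0) (Yv_mem M _) (Apre_mem M _ _))
    · exact YB_mem M n
    · have := HH_mul M (a := 0) (b := 1) (Lv_mem M n TT.C) (Yv_mem M (cY a))
      rw [zero_add] at this
      exact this

lemma rr_mem (j : J M) : rr M j ∈ HH M 2 := by
  rcases j with i | ⟨n, k⟩
  · exact Submodule.zero_mem _
  · rcases k with a | _ | a
    · exact Submodule.zero_mem _
    · exact Submodule.zero_mem _
    · exact HH_mul M (YB_mem M n) (Yv_mem M _)

/-- The derivation raises degrees by 1. -/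
lemma DD_mem {d : ℕ} {p : PP M} (hp : p ∈ HH M d) : DD M p ∈ HH M (d + 1) := by
  have hp' := hp
  rw [mem_weightedHomogeneousSubmodule] at hp
  rw [p.as_sum, map_sum]
  refine Submodule.sum_mem _ fun m hm => ?_
  have hm' : Finsupp.weight (wt M) m = d := hp (mem_support_iff.mp hm)
  rw [DD, mkDerivation_monomial]
  refine Submodule.smul_mem _ _ ?_
  rw [Finsupp.sum]
  refine Submodule.sum_mem _ fun v hv => ?_
  rcases v with j | l
  · simp only [Sum.elim_inl, smul_eq_mul]
    have h1 : (monomial (m - Finsupp.single (Sum.inl j) 1)) ((m (Sum.inl j) : ℕ) : Fp) ∈ HH M d := by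
      rw [mem_weightedHomogeneousSubmodule]
      apply isWeightedHomogeneous_monomial
      have hle : Finsupp.single (Sum.inl j) 1 ≤ m := by
        rw [Finsupp.single_le_iff]
        have := Finsupp.mem_support_iff.mp hv
        omega
      have h2 : Finsupp.weight (wt M) (m - Finsupp.single (Sum.inl j) 1) +
          Finsupp.weight (wt M) (Finsupp.single (Sum.inl j) 1) = Finsupp.weight (wt M) m := by
        rw [← map_add, tsub_add_cancel_of_le hle]
      rw [Finsupp.weight_single] at h2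
      have h3 : wt M (Sum.inl j) = 0 := rfl
      rw [h3, smul_zero, add_zero] at h2
      rw [← hm', ← h2]
    exact HH_mul M h1 (qq_mem M j)
  · simp

/-! ### Degree zero -/

abbrev P0 (M : ℕ) := MvPolynomial (J M) Fp

noncomputable def i0 : P0 M →ₐ[Fp] PP M := rename Sum.inl

lemma i0_injective : Function.Injective (i0 M) := rename_injective _ Sum.inl_injective

lemma i0_mem (g : P0 M) : i0 M g ∈ HH M 0 := by
  induction g using MvPolynomial.induction_on with
  | C a =>
    rw [i0, rename_C, mem_weightedHomogeneousSubmodule]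
    exact isWeightedHomogeneous_C _ _
  | add p q hp hq => rw [map_add]; exact Submodule.add_mem _ hp hq
  | mul_X p v hp =>
    rw [map_mul]
    refine HH_mul M hp (b := 0) ?_
    rw [i0, rename_X]
    exact Tv_mem M v

lemma exists_i0_of_mem {f : PP M} (hf : f ∈ HH M 0) : ∃ g, i0 M g = f := by
  rw [mem_weightedHomogeneousSubmodule] at hf
  have h : (f.vars : Set (Vars M)) ⊆ Set.range Sum.inl := by
    intro v hv
    rcases v with j | l
    · exact ⟨j, rfl⟩
    · exfalso
      rw [Finset.mem_coe, mem_vars] at hv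
      obtain ⟨m, hm, hml⟩ := hv
      have h1 := hf (mem_support_iff.mp hm)
      rw [Finsupp.weight_apply, Finsupp.sum, Finset.sum_eq_zero_iff] at h1
      have h2 := h1 _ hml
      simp [wt] at h2
      exact (Finsupp.mem_support_iff.mp hml) h2
  obtain ⟨g, hg⟩ := exists_rename_eq_of_vars_subset_range f Sum.inl Sum.inl_injective h
  exact ⟨g, hg⟩

/-- evaluation of the homogeneous coordinates at a point over the prime field -/
noncomputable def evp (p : F3 → Fp) : PP M →ₐ[Fp] P0 M :=
  aeval (Sum.elim X (fun l => C (p l)))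

@[simp] lemma evp_i0 (p : F3 → Fp) (g : P0 M) : evp M p (i0 M g) = g := by
  simp only [evp, i0, aeval_rename]
  have : (Sum.elim X (fun l => C (p l)) : Vars M → P0 M) ∘ Sum.inl = X := rfl
  rw [this, aeval_X_left, AlgHom.id_apply]

@[simp] lemma evp_Y (p : F3 → Fp) (l : F3) : evp M p (Yv M l) = C (p l) := by
  simp [evp, Yv]

@[simp] lemma evp_T (p : F3 → Fp) (j : J M) : evp M p (Tv M j) = X j := by
  simp [evp, Tv]

lemma DD_pp (p : PP M) : DD M (p ^ Pr.p) = 0 := by
  have h : ((Pr.p : ℕ) : PP M) = 0 := CharP.cast_eq_zero (PP M) Pr.p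
  rw [Derivation.leibniz_pow, ← Nat.cast_smul_eq_nsmul (PP M), h, zero_smul]

end Pool.Agent.H11.BAB
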