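import Pool.Agent.H11.BAB.Chart

/-!
Closed homogeneous polynomials in a chart, and the algebraic independence of the chart coordinates.
-/

open MvPolynomial

namespace Pool.Agent.H11.BAB

variable [Pr]

variable (M : ℕ)

/-- the sums `∑_{k<p} c_k e_i^k` with `c_k ∈ C_i` -/
def NN (i : F3) (f : FF M) : Prop :=
  ∃ c : ℕ → FF M, (∀ k, c k ∈ CC M i) ∧
    f = ∑ k ∈ Finset.range Pr.p, c k * tF M (Sum.inl i) ^ k

lemma NN_of_CC (i : F3) {a : FF M} (ha : a ∈ CC M i) : NN M i a := by
  refine ⟨fun k => if k = 0 then a else 0, fun k => ?_, ?_⟩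
  · dsimp only
    split_ifs
    · exact ha
    · exact Subalgebra.zero_mem _
  · rw [Finset.sum_eq_single 0]
    · simp
    · intro k _ hk
      simp [hk]
    · intro h
      exact absurd (Finset.mem_range.mpr p_pos) h

lemma NN_add (i : F3) {f g : FF M} (hf : NN M i f) (hg : NN M i g) : NN M i (f + g) := by
  obtain ⟨c, hc, rfl⟩ := hf
  obtain ⟨c', hc', rfl⟩ := hg
  refine ⟨fun k => c k + c' k, fun k => Subalgebra.add_mem _ (hc k) (hc' k), ?_⟩
  rw [← Finset.sum_add_distrib]
  exact Finset.sum_congr rfl fun k _ => by ring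

lemma NN_mul (i : F3) {f a : FF M} (hf : NN M i f) (ha : a ∈ CC M i) : NN M i (f * a) := by
  obtain ⟨c, hc, rfl⟩ := hf
  refine ⟨fun k => c k * a, fun k => Subalgebra.mul_mem _ (hc k) ha, ?_⟩
  rw [Finset.sum_mul]
  exact Finset.sum_congr rfl fun k _ => by ring

lemma NN_mul_e (i : F3) {f : FF M} (hf : NN M i f) : NN M i (f * tF M (Sum.inl i)) := by
  obtain ⟨c, hc, rfl⟩ := hf
  obtain ⟨n, hn⟩ : ∃ n, Pr.p = n + 1 := ⟨Pr.p - 1, by have := p_pos; omega⟩
  refine ⟨fun k => if k = 0 then c n * tF M (Sum.inl i) ^ Pr.p else c (k - 1), fun k => ?_, ?_⟩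
  · dsimp only
    split_ifs
    · exact Subalgebra.mul_mem _ (hc n) (ep_mem M i)
    · exact hc _
  · have hr : Finset.range Pr.p = Finset.range (n + 1) := congrArg Finset.range hn
    have he : tF M (Sum.inl i) ^ Pr.p = tF M (Sum.inl i) ^ (n + 1) := congrArg _ hn
    rw [hr, Finset.sum_range_succ, Finset.sum_range_succ', add_mul, Finset.sum_mul]
    dsimp only
    rw [he]
    congr 1
    · refine Finset.sum_congr rfl fun k _ => ?_
      rw [if_neg (Nat.succ_ne_zero k), Nat.add_sub_cancel, pow_succ]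
      ring
    · rw [if_pos rfl, pow_zero, pow_succ]
      ring

lemma half_mem (i : F3) : (2 : FF M)⁻¹ ∈ CC M i := by
  have h : (algebraMap Fp (FF M)) ((2 : Fp)⁻¹) = (2 : FF M)⁻¹ := by
    rw [map_inv₀, map_ofNat]
  rw [← h]
  exact Subalgebra.algebraMap_mem _ _

lemma rhalf_mem (i : F3) (j : J M) : rF M j / (2 * yF M i ^ 2) ∈ CC M i := by
  have h : rF M j / (2 * yF M i ^ 2) = (2 : FF M)⁻¹ * (rF M j / yF M i ^ 2) := by
    rw [mul_comm (2 : FF M), div_mul_eq_div_div, div_eq_inv_mul (rF M j / yF M i ^ 2) 2]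
  rw [h]
  exact Subalgebra.mul_mem _ (half_mem M i) (rdiv_mem M i j)

lemma NN_mul_t (i : F3) {f : FF M} (hf : NN M i f) (j : J M) : NN M i (f * tF M j) := by
  have h : f * tF M j = f * uF M i j + f * tF M (Sum.inl i) * qc M i j +
      f * tF M (Sum.inl i) * tF M (Sum.inl i) * (rF M j / (2 * yF M i ^ 2)) := by
    conv_lhs => rw [tF_eq M i j]
    ring
  rw [h]
  exact NN_add M i (NN_add M i (NN_mul M i hf (u_mem M i j))
    (NN_mul M i (NN_mul_e M i hf) (qc_mem M i j)))
    (NN_mul M i (NN_mul_e M i (NN_mul_e M i hf)) (rhalf_mem M i j))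

lemma theta_mem (i : F3) (p : PP M) : NN M i (theta M i p) := by
  induction p using MvPolynomial.induction_on with
  | C a => rw [theta, aeval_C]; exact NN_of_CC M i (Subalgebra.algebraMap_mem _ _)
  | add p q hp hq => rw [map_add]; exact NN_add M i hp hq
  | mul_X p v hp =>
    rw [map_mul]
    rcases v with j | l
    · simp only [theta, aeval_X, Sum.elim_inl]; exact NN_mul_t M i hp j
    · simp only [theta, aeval_X, Sum.elim_inr]; exact NN_mul M i hp (ydiv_mem M i l)

lemma DF_pow_e (i : F3) (k : ℕ) : DF M (tF M (Sum.inl i) ^ (k + 1)) =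
    ((k + 1 : ℕ) : FF M) * tF M (Sum.inl i) ^ k * yF M i := by
  rw [Derivation.leibniz_pow, DF_t, qF_inl, Nat.add_sub_cancel, smul_eq_mul, nsmul_eq_mul, mul_assoc]

lemma DF_sum_e (i : F3) (c : ℕ → FF M) (hc : ∀ k, DF M (c k) = 0) (n : ℕ) :
    DF M (∑ k ∈ Finset.range (n + 1), c k * tF M (Sum.inl i) ^ k) =
      (∑ k ∈ Finset.range n, (((k + 1 : ℕ) : FF M) * c (k + 1)) * tF M (Sum.inl i) ^ k) *
        yF M i := by
  rw [Finset.sum_range_succ', map_add, map_sum, pow_zero, mul_one, hc 0, add_zero, Finset.sum_mul]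
  refine Finset.sum_congr rfl fun k _ => ?_
  rw [DF_mul, hc, mul_zero, add_zero, DF_pow_e]
  ring

lemma DF_natCast_mul (n : ℕ) {a : FF M} (ha : DF M a = 0) : DF M ((n : FF M) * a) = 0 := by
  rw [DF_mul, ha, (DF M).map_natCast, mul_zero, mul_zero, add_zero]

/-- the powers of `e_i` below `p` are independent over the constants -/
lemma indep_e (i : F3) (n : ℕ) (hn : n ≤ Pr.p) : ∀ (c : ℕ → FF M), (∀ k, DF M (c k) = 0) →
    ∑ k ∈ Finset.range n, c k * tF M (Sum.inl i) ^ k = 0 → ∀ k < n, c k = 0 := by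
  induction n with
  | zero => intro c _ _ k hk; omega
  | succ n ih =>
    intro c hc hs k hk
    have h1 := DF_sum_e M i c hc n
    rw [hs, map_zero] at h1
    have h2 := (mul_eq_zero.mp h1.symm).resolve_right (yF_ne M i)
    have h3 := ih (by omega) (fun k => ((k + 1 : ℕ) : FF M) * c (k + 1))
      (fun k => DF_natCast_mul M _ (hc _)) h2
    have h4 : ∀ k < n, c (k + 1) = 0 := fun k hk =>
      (mul_eq_zero.mp (h3 k hk)).resolve_left (nat_ne_FF M (by omega) (by omega))
    rcases k with _ | k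
    · rw [Finset.sum_range_succ', Finset.sum_eq_zero, zero_add, pow_zero, mul_one] at hs
      · exact hs
      · intro k hk
        rw [h4 k (Finset.mem_range.mp hk), zero_mul]
    · exact h4 k (by omega)

/-- a constant sum of powers of `e_i` is its constant term -/
lemma const_of_sum (i : F3) (n : ℕ) (hn : n < Pr.p) (c : ℕ → FF M) (hc : ∀ k, DF M (c k) = 0)
    (h : DF M (∑ k ∈ Finset.range (n + 1), c k * tF M (Sum.inl i) ^ k) = 0) :
    ∑ k ∈ Finset.range (n + 1), c k * tF M (Sum.inl i) ^ k = c 0 := by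
  rw [DF_sum_e M i c hc n] at h
  have h2 := (mul_eq_zero.mp h).resolve_right (yF_ne M i)
  have h3 := indep_e M i n (by omega) (fun k => ((k + 1 : ℕ) : FF M) * c (k + 1))
      (fun k => DF_natCast_mul M _ (hc _)) h2
  rw [Finset.sum_range_succ', Finset.sum_eq_zero, zero_add, pow_zero, mul_one]
  intro k hk
  have hk' := Finset.mem_range.mp hk
  rw [(mul_eq_zero.mp (h3 k hk')).resolve_left (nat_ne_FF M (by omega) (by omega)), zero_mul]

/-- Lemma A: a closed homogeneous polynomial, divided by a power of `Y_i`, is a polynomial in the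
chart coordinates. -/
theorem closed_div_mem (i : F3) {d : ℕ} {p : PP M} (hp : p ∈ HH M d) (hD : DD M p = 0) :
    algebraMap (PP M) (FF M) p / yF M i ^ d ∈ CC M i := by
  obtain ⟨c, hc, hab⟩ := theta_mem M i p
  rw [theta_of_mem M i hp] at hab
  have h1 : DF M (algebraMap (PP M) (FF M) p / yF M i ^ d) = 0 := by
    apply DF_div
    · rw [DF_algebraMap, hD, map_zero]
    · exact DF_pow_zero M (DF_y M i) d
  obtain ⟨n, hn⟩ : ∃ n, Pr.p = n + 1 := ⟨Pr.p - 1, by have := p_pos; omega⟩
  have hr : Finset.range Pr.p = Finset.range (n + 1) := congrArg Finset.range hn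
  rw [hr] at hab
  rw [hab] at h1 ⊢
  rw [const_of_sum M i n (by omega) c (fun k => DF_CC M i (hc k)) h1]
  exact hc 0

/-! ### Algebraic independence of the chart coordinates -/

noncomputable def coordO (i : F3) : Option (VV M) → FF M
  | none => yF M i
  | some v => coord M i v

lemma trdeg_FF : Algebra.trdeg Fp (FF M) = Fintype.card (Vars M) := by
  have h1 : IsTranscendenceBasis Fp (algebraMap (PP M) (FF M) ∘ (X : Vars M → PP M)) := by
    have : Algebra.IsAlgebraic (PP M) (FF M) :=
      IsLocalization.isAlgebraic (FF M) (nonZeroDivisors (PP M))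
    exact (IsTranscendenceBasis.mvPolynomial (Vars M) Fp).algebraMap_comp
  rw [← h1.cardinalMk_eq_trdeg]
  simp

lemma CC_le_adjoin (i : F3) : CC M i ≤ Algebra.adjoin Fp (Set.range (coordO M i)) := by
  rintro _ ⟨p, rfl⟩
  change psi M i p ∈ _
  induction p using MvPolynomial.induction_on with
  | C a => rw [psi, aeval_C]; exact Subalgebra.algebraMap_mem _ _
  | add p q hp hq => rw [map_add]; exact Subalgebra.add_mem _ hp hq
  | mul_X p v hp =>
    rw [map_mul]
    refine Subalgebra.mul_mem _ hp ?_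
    rw [psi, aeval_X]
    exact Algebra.subset_adjoin ⟨some v, rfl⟩

lemma isAlgebraic_all (i : F3) :
    Algebra.IsAlgebraic (Algebra.adjoin Fp (Set.range (coordO M i))) (FF M) := by
  set A0 := Algebra.adjoin Fp (Set.range (coordO M i)) with hA0
  have hmem : ∀ x ∈ A0, IsAlgebraic A0 x := fun x hx => isAlgebraic_algebraMap (⟨x, hx⟩ : A0)
  have hCC : ∀ x ∈ CC M i, IsAlgebraic A0 x := fun x hx => hmem x (CC_le_adjoin M i hx)
  have he : IsAlgebraic A0 (tF M (Sum.inl i)) := by
    have h2 := hCC _ (ep_mem M i)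
    exact IsAlgebraic.of_pow p_pos h2
  have hT : ∀ j, IsAlgebraic A0 (tF M j) := by
    intro j
    rw [tF_eq M i j]
    exact ((hCC _ (u_mem M i j)).add (he.mul (hCC _ (qc_mem M i j)))).add
      ((he.pow 2).mul (hCC _ (rhalf_mem M i j)))
  have hPP : ∀ p : PP M, IsAlgebraic A0 (algebraMap (PP M) (FF M) p) := by
    intro p
    induction p using MvPolynomial.induction_on with
    | C a =>
      rw [← algebraMap_eq, ← IsScalarTower.algebraMap_apply]
      exact hmem _ (Subalgebra.algebraMap_mem _ _)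
    | add p q hp hq => rw [map_add]; exact hp.add hq
    | mul_X p v hp =>
      rw [map_mul]
      refine hp.mul ?_
      rcases v with j | l
      · exact hT j
      · apply hmem
        change yF M l ∈ A0
        rw [show yF M l = yF M l / yF M i * yF M i by
          rw [div_mul_cancel₀ _ (yF_ne M i)]]
        exact Subalgebra.mul_mem _ (CC_le_adjoin M i (ydiv_mem M i l))
          (Algebra.subset_adjoin ⟨none, rfl⟩)
  constructor
  intro x
  obtain ⟨a, b, hb, rfl⟩ := IsFractionRing.div_surjective (A := PP M) x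
  rw [div_eq_mul_inv]
  exact (hPP a).mul (hPP b).inv

lemma coord_algebraicIndependent (i : F3) : AlgebraicIndependent Fp (coord M i) := by
  have := isAlgebraic_all M i
  have h := Algebra.IsAlgebraic.isTranscendenceBasis_of_le_trdeg_of_finite Fp (coordO M i) (by
    rw [trdeg_FF]
    simp only [Cardinal.mk_fintype, Fintype.card_option, Fintype.card_sum, Fintype.card_fin,
      Fintype.card_prod]
    have h3 : Pr.d + 1 + M * Fintype.card TT + Pr.d + 1 ≤
      Pr.d + 1 + M * Fintype.card TT + (Pr.d + 1) := by omega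
    exact_mod_cast h3)
  have := h.1.comp some (Option.some_injective _)
  exact this

lemma psi_injective (i : F3) : Function.Injective (psi M i) :=
  coord_algebraicIndependent M i

end Pool.Agent.H11.BAB
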