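import Pool.Graph.R_seed8.H187R3.TaskF
import Pool.Agent.H11.BAB.Alg3
import Pool.Graph.R_seed8.Y939.BAB.Jac

/-!
The change of coordinates between the charts: Jacobian determinant.
-/

open MvPolynomial

namespace Pool.Agent.H11.BAB

open Pool.Agent.H187R3

open Pool.Agent.Y939.BAB (cf)

variable [Pr]

variable (M : ℕ)

lemma D_pp {L : Type} [Field L] [CharP L Pr.p] (z : L) :
    KaehlerDifferential.D ℤ L (z ^ Pr.p) = 0 := by
  have h : ((Pr.p : ℕ) : L) = 0 := CharP.cast_eq_zero L Pr.p
  rw [Derivation.leibniz_pow, ← Nat.cast_smul_eq_nsmul L, h, zero_smul]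

/-- position of an index inside its level -/
def idx : TT → ℕ
  | TT.B a => a.val
  | TT.C => 3
  | TT.A a => 4 + a.val

omit [Pr] in
lemma idx_lt (k : TT) : idx k < 7 := by
  rcases k with a | _ | a
  · have := a.2; simp only [idx]; omega
  · simp only [idx]; omega
  · have := a.2; simp only [idx]; omega

omit [Pr] in
lemma idx_injective : Function.Injective idx := by
  intro a b h
  rcases a with a | _ | a <;> rcases b with b | _ | b <;> simp only [idx] at h
  · exact congrArg TT.B (Fin.ext h)
  · have := a.2; omega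
  · have := a.2; omega
  · have := b.2; omega
  · rfl
  · omega
  · have := b.2; omega
  · omega
  · exact congrArg TT.A (Fin.ext (by omega))

/-- order of the coordinates of the chart `i` -/
def rho (i : F3) : VV M → ℕ
  | Sum.inr m => if m.succ = i then 0 else m.val + 1
  | Sum.inl (Sum.inl s) => if s = i then Pr.d + 1 else if s = 0 then Pr.d + 2 else
      Pr.d + 3 + s.val
  | Sum.inl (Sum.inr (n, k)) => Pr.d + 3 + (Pr.d + 1) + 7 * n + idx k

lemma rho_injective (i : F3) (hi : i ≠ 0) : Function.Injective (rho M i) := by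
  intro a b hab
  rcases a with (s | ⟨n, c⟩) | m <;> rcases b with (s' | ⟨n', c'⟩) | m' <;>
    simp only [rho] at hab
  · congr 2
    split_ifs at hab <;> first | omega | (subst_vars; rfl) | (apply Fin.ext; omega)
  · have := s.2
    split_ifs at hab <;> omega
  · have := m'.2
    split_ifs at hab <;> omega
  · have := s'.2
    split_ifs at hab <;> omega
  · have h1 := idx_lt c
    have h2 := idx_lt c'
    have h3 : (n : ℕ) = n' := by omega
    have h4 : idx c = idx c' := by omega
    rw [Fin.ext h3, idx_injective h4]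
  · have := m'.2
    split_ifs at hab <;> omega
  · have := m.2
    split_ifs at hab <;> omega
  · have := m.2
    split_ifs at hab <;> omega
  · congr 1
    split_ifs at hab with h1 h2 h3 <;> first
      | omega
      | exact Fin.succ_injective _ (h1.trans h2.symm)

/-- diagonal entries of the Jacobian matrix -/
noncomputable def diag {L : Type} [Field L] (w : L) (i : F3) : VV M → L
  | Sum.inr m => if m.succ = i then -(w⁻¹) ^ 2 else w⁻¹
  | Sum.inl (Sum.inl s) => if s = i then -(w⁻¹) else if s = 0 then w ^ Pr.p else 1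
  | Sum.inl (Sum.inr _) => 1

lemma prod_diag {L : Type} [Field L] (w : L) (hw : w ≠ 0) (i : F3) (hi : i ≠ 0) :
    ∏ v, diag M w i v = (w⁻¹) ^ (Pr.q + 1) := by
  rw [Fintype.prod_sum_type, Fintype.prod_sum_type]
  simp only [diag, Finset.prod_const_one, mul_one]
  obtain ⟨m0, hm0⟩ := Fin.exists_succ_eq.mpr hi
  have h1 : ∏ m : Fin Pr.d, (if m.succ = i then -(w⁻¹) ^ 2 else w⁻¹) =
      (w⁻¹) ^ Pr.d * -(w⁻¹) := by
    have h2 : ∀ m : Fin Pr.d, (if m.succ = i then -(w⁻¹) ^ 2 else w⁻¹) =
        w⁻¹ * (if m = m0 then -(w⁻¹) else 1) := by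
      intro m
      by_cases h : m = m0
      · rw [if_pos h, if_pos (by rw [h, hm0])]
        ring
      · rw [if_neg h, if_neg (fun h' => h (Fin.succ_injective _ (h'.trans hm0.symm))), mul_one]
    rw [Finset.prod_congr rfl fun m _ => h2 m, Finset.prod_mul_distrib,
      Finset.prod_ite_eq' Finset.univ m0 (fun _ => -(w⁻¹)), if_pos (Finset.mem_univ _),
      Finset.prod_const, Finset.card_univ, Fintype.card_fin]
  have h3 : ∏ s : F3, (if s = i then -(w⁻¹) else if s = 0 then w ^ Pr.p else 1) =
      -(w⁻¹) * w ^ Pr.p := by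
    have h2 : ∀ s : F3, (if s = i then -(w⁻¹) else if s = 0 then w ^ Pr.p else 1) =
        (if s = i then -(w⁻¹) else 1) * (if s = 0 then w ^ Pr.p else 1) := by
      intro s
      by_cases h : s = i
      · rw [if_pos h, if_pos h, if_neg (by rw [h]; exact hi), mul_one]
      · rw [if_neg h, if_neg h, one_mul]
    rw [Finset.prod_congr rfl fun m _ => h2 m, Finset.prod_mul_distrib,
      Finset.prod_ite_eq' Finset.univ i (fun _ => -(w⁻¹)), if_pos (Finset.mem_univ _),
      Finset.prod_ite_eq' Finset.univ 0 (fun _ => w ^ Pr.p), if_pos (Finset.mem_univ _)]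
  rw [h1, h3]
  have h4 : w⁻¹ ^ Pr.p * w ^ Pr.p = 1 := by rw [← mul_pow, inv_mul_cancel₀ hw, one_pow]
  have h5 : w⁻¹ ^ (Pr.d + 1) = w⁻¹ ^ Pr.p * w⁻¹ ^ Pr.q := by rw [Pr.hd, pow_add]
  calc -(w⁻¹) * w ^ Pr.p * (w⁻¹ ^ Pr.d * -(w⁻¹)) = w⁻¹ * w ^ Pr.p * w⁻¹ ^ (Pr.d + 1) := by
        rw [pow_succ]; ring
    _ = w⁻¹ ^ (Pr.q + 1) * (w⁻¹ ^ Pr.p * w ^ Pr.p) := by rw [h5, pow_succ]; ring
    _ = w⁻¹ ^ (Pr.q + 1) := by rw [h4, mul_one]

/-- the quotient `U/w = e_0 Y_i/Y_0 - e_i` -/
lemma u_change (i : F3) (j : J M) : uF M 0 j = uF M i j +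
    (-(uF M i (Sum.inl 0) / (yF M 0 / yF M i)) * qc M i j +
      (uF M i (Sum.inl 0) / (yF M 0 / yF M i)) ^ 2 * ((2 : FF M)⁻¹ * (rF M j / yF M i ^ 2))) := by
  have h0 := yF_ne M 0
  have hi := yF_ne M i
  have h2 := two_ne_FF M
  rw [qc]
  rw [show uF M i (Sum.inl 0) = tF M (Sum.inl 0) - tF M (Sum.inl i) * (yF M 0 / yF M i) by
    rw [uF, qF_inl, rF_inl, zero_div, mul_zero, add_zero]]
  rw [uF, uF]
  field_simp
  ring

lemma e_change (i : F3) : tF M (Sum.inl 0) ^ Pr.p = (uF M i (Sum.inl 0)) ^ Pr.p +
    (yF M 0 / yF M i) ^ Pr.p * tF M (Sum.inl i) ^ Pr.p := by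
  rw [← mul_pow, ← add_pow_char]
  congr 1
  rw [uF, qF_inl, rF_inl, zero_div, mul_zero, add_zero]
  ring

section main

variable {M} {L : Type} [Field L] (κ : L →+* FF M) (i : F3) (τ0 τi : VV M → L)

/-- elements of `L` lifting `Y_s/Y_i` -/
def ylab (s : F3) : L := if h : sw i s = 0 then 1 else τi (Sum.inr ((sw i s).pred h))

lemma kap_ylab (hi : ∀ v, κ (τi v) = coord M i v) (s : F3) :
    κ (ylab i τi s) = yF M s / yF M i := by
  unfold ylab
  split_ifs with h
  · have : s = i := by rw [← sw_sw i s, h, sw_zero]
    rw [map_one, this, div_self (yF_ne M i)]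
  · rw [hi]
    simp only [coord, Fin.succ_pred, sw_sw]

theorem jacobian (h0 : ∀ v, κ (τ0 v) = coord M 0 v) (hi : ∀ v, κ (τi v) = coord M i v)
    (c : Module.Basis (VV M) L (Ω[L⁄ℤ])) (hc : ∀ v, c v = KaehlerDifferential.D ℤ L (τi v)) :
    c.det (fun v => KaehlerDifferential.D ℤ L (τ0 v)) = ((ylab i τi 0)⁻¹) ^ (Pr.q + 1) := by
  classical
  have hκ : Function.Injective κ := κ.injective
  by_cases hi0 : i = 0
  · subst hi0
    have : τ0 = τi := by
      funext v
      exact hκ (by rw [h0, hi])
    subst this
    have h1 : (fun v => KaehlerDifferential.D ℤ L (τ0 v)) = c := by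
      funext v; exact (hc v).symm
    rw [h1, c.det_self]
    simp [ylab, sw_zero]
  · have : CharP L Pr.p := (RingHom.charP_iff κ hκ Pr.p).mpr inferInstance
    set w : L := ylab i τi 0 with hw
    have hκw : κ w = yF M 0 / yF M i := kap_ylab κ i τi hi 0
    have hw0 : w ≠ 0 := by
      intro h
      rw [h, map_zero] at hκw
      exact div_ne_zero (yF_ne M 0) (yF_ne M i) hκw.symm
    rw [← prod_diag (M := M) w hw0 i hi0]
    refine det_triangular c _ (diag M w i) (rho M i) (rho_injective M i hi0) fun v => ?_
    set E := Submodule.span L (c '' {v' | rho M i v' < rho M i v}) with hE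
    -- the image of the subfield in `FF M`
    set K : Subfield (FF M) := (cf E).map κ with hK
    have hKiff : ∀ z : L, κ z ∈ K → z ∈ cf E := by
      intro z hz
      obtain ⟨z', hz', he⟩ := hz
      rw [← hκ he]; exact hz'
    have hco : ∀ v', rho M i v' < rho M i v → coord M i v' ∈ K := by
      intro v' hv'
      refine ⟨τi v', ?_, hi v'⟩
      change KaehlerDifferential.D ℤ L (τi v') ∈ E
      rw [← hc]
      exact Submodule.subset_span ⟨v', hv', rfl⟩
    have hy : Pr.d + 1 ≤ rho M i v → ∀ s, yF M s / yF M i ∈ K := by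
      intro h2 s
      by_cases h : s = i
      · rw [h, div_self (yF_ne M i)]; exact K.one_mem
      · have hl : sw i s ≠ 0 := sw_ne_zero h
        obtain ⟨m, hm⟩ := Fin.exists_succ_eq.mpr hl
        have h3 : coord M i (Sum.inr m) ∈ K := by
          apply hco
          have : rho M i (Sum.inr m) < Pr.d + 1 := by
            have := m.2
            simp only [rho]; split_ifs <;> omega
          omega
        simp only [coord, hm, sw_sw] at h3
        exact h3
    have hw_mem : 1 ≤ rho M i v → yF M 0 / yF M i ∈ K := by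
      intro h1
      have hl : sw i 0 ≠ 0 := sw_ne_zero (Ne.symm hi0)
      obtain ⟨m, hm⟩ := Fin.exists_succ_eq.mpr hl
      have h3 : coord M i (Sum.inr m) ∈ K := by
        apply hco
        have : rho M i (Sum.inr m) = 0 := by
          simp only [rho]; rw [if_pos]; rw [hm, sw_zero]
        omega
      simp only [coord, hm, sw_sw] at h3
      exact h3
    have hwcf : 1 ≤ rho M i v → w ∈ cf E := fun h => hKiff _ (by rw [hκw]; exact hw_mem h)
    have esw : sw i i = 0 := by
      have := sw_sw i 0
      rwa [sw_zero] at this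
    have hUco : coord M i (Sum.inl (Sum.inl i)) = uF M i (Sum.inl 0) := by
      simp only [coord, if_neg hi0, esw]
    have hUmem : Pr.d + 2 ≤ rho M i v → uF M i (Sum.inl 0) ∈ K := by
      intro h3
      rw [← hUco]
      apply hco
      have : rho M i (Sum.inl (Sum.inl i)) = Pr.d + 1 := by simp [rho]
      omega
    have hq : Pr.d + 2 ≤ rho M i v → ∀ z : FF M, z ∈ K →
        -(uF M i (Sum.inl 0) / (yF M 0 / yF M i)) * z ∈ K := by
      intro h3 z hz
      exact K.mul_mem (K.neg_mem (K.div_mem (hUmem h3) (hw_mem (by omega)))) hz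
    have hr : Pr.d + 2 ≤ rho M i v → ∀ z : FF M, z ∈ K →
        (uF M i (Sum.inl 0) / (yF M 0 / yF M i)) ^ 2 * ((2 : FF M)⁻¹ * z) ∈ K := by
      intro h3 z hz
      have h2 : (2 : FF M) ∈ K := by
        have := K.add_mem K.one_mem K.one_mem
        rwa [one_add_one_eq_two] at this
      exact K.mul_mem (K.pow_mem (K.div_mem (hUmem h3) (hw_mem (by omega))) 2)
        (K.mul_mem (K.inv_mem h2) hz)
    -- a coordinate which changes by an element of `K`
    have hdiff : ∀ v0 : VV M, v0 = v → coord M 0 v0 - coord M i v0 ∈ K →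
        KaehlerDifferential.D ℤ L (τ0 v0) - (1 : L) • c v0 ∈ E := by
      intro v0 _ hz
      rw [one_smul, hc, ← map_sub]
      have h6 : τ0 v0 - τi v0 ∈ cf E := by
        apply hKiff
        rw [map_sub, h0, hi]
        exact hz
      exact h6
    have hD : ∀ z ∈ cf E, KaehlerDifferential.D ℤ L z ∈ E := fun z hz => hz
    rcases v with (s | ⟨n, k⟩) | m
    · simp only [diag]
      split_ifs with h1 h2
      · -- s = i
        subst h1
        have hτ : τ0 (Sum.inl (Sum.inl s)) = -(w⁻¹) * τi (Sum.inl (Sum.inl s)) := by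
          apply hκ
          rw [h0, map_mul, map_neg, map_inv₀, hκw, hi, hUco]
          simp only [coord, if_neg hi0]
          have e : sw 0 s = s := by simp [sw]
          rw [e, u_change M s (Sum.inl s), uF_self, qc_inl, rF_inl,
            div_self (yF_ne M s)]
          ring
        have hrho : rho M s (Sum.inl (Sum.inl s)) = Pr.d + 1 := by simp [rho]
        rw [hτ, Derivation.leibniz, hc, add_sub_cancel_left]
        exact E.smul_mem _ (hD _ ((cf E).neg_mem ((cf E).inv_mem (hwcf (by omega)))))
      · -- s = 0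
        subst h2
        obtain ⟨U, hU⟩ : ∃ U : L, κ U = uF M i (Sum.inl 0) :=
          ⟨τi (Sum.inl (Sum.inl i)), by rw [hi, hUco]⟩
        have hτ : τ0 (Sum.inl (Sum.inl 0)) = U ^ Pr.p + w ^ Pr.p * τi (Sum.inl (Sum.inl 0)) := by
          apply hκ
          rw [h0, map_add, map_mul, map_pow, map_pow, hκw, hU, hi]
          simp only [coord, if_true]
          rw [e_change M i]
        rw [hτ, map_add, D_pp, zero_add, Derivation.leibniz, D_pp, smul_zero, add_zero, hc,
          sub_self]
        exact E.zero_mem
      · have e0 : sw 0 s = s := by simp [sw]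
        have ei : sw i s = s := by
          rw [sw, Equiv.swap_apply_of_ne_of_ne h2 h1]
        have hrho : Pr.d + 3 ≤ rho M i (Sum.inl (Sum.inl s)) := by simp [rho, h1, h2]
        apply hdiff _ rfl
        simp only [coord, if_neg h2, e0, ei]
        rw [u_change M i (Sum.inl s), add_sub_cancel_left, qc_inl, rF_inl, zero_div]
        exact K.add_mem (hq (by omega) _ (hy (by omega) s)) (hr (by omega) _ K.zero_mem)
    · simp only [diag]
      have hrho : rho M i (Sum.inl (Sum.inr (n, k))) = Pr.d + 3 + (Pr.d + 1) + 7 * n + idx k := rfl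
      apply hdiff _ rfl
      simp only [coord]
      rw [u_change M i (Sum.inr (n, k)), add_sub_cancel_left]
      have hlev : ∀ (n' : Fin M) (k' : TT), 7 * (n' : ℕ) + idx k' < 7 * n + idx k →
          uF M i (Sum.inr (n', k')) ∈ K := by
        intro n' k' h
        have h3 := hco (Sum.inl (Sum.inr (n', k'))) (by
          rw [hrho]
          simp only [rho]
          omega)
        exact h3
      have hqr : qc M i (Sum.inr (n, k)) ∈ K ∧ rF M (Sum.inr (n, k)) / yF M i ^ 2 ∈ K := by
        rcases k with a | _ | a
        · refine ⟨?_, ?_⟩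
          · have hA : ∀ b : Fin 3, uApre M i n b ∈ K := by
              intro b
              obtain ⟨n, hn⟩ := n
              cases n with
              | zero => exact K.zero_mem
              | succ k =>
                have hk : k < M := by omega
                have h5 : uApre M i (k + 1) b = uF M i (Sum.inr (⟨k, hk⟩, TT.A b)) :=
                  uL_fin M i ⟨k, hk⟩ _
                change uApre M i (k + 1) b ∈ K
                rw [h5]
                apply hlev
                have := b.2
                simp only [idx]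
                omega
            rw [qc_B]
            exact K.sub_mem (K.mul_mem (hy (by omega) _) (hA _)) (K.mul_mem (hy (by omega) _) (hA _))
          · rw [rF_B, zero_div]; exact K.zero_mem
        · refine ⟨?_, ?_⟩
          · rw [qc_C]
            have hB : ∀ b : Fin 3, uF M i (Sum.inr (n, TT.B b)) ∈ K := by
              intro b
              apply hlev
              have := b.2
              simp only [idx]
              omega
            exact K.add_mem (K.add_mem (K.mul_mem (hy (by omega) _) (hB _))
              (K.mul_mem (hy (by omega) _) (hB _))) (K.mul_mem (hy (by omega) _) (hB _))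
          · rw [rF_C, zero_div]; exact K.zero_mem
        · refine ⟨?_, ?_⟩
          · rw [qc_A]
            refine K.mul_mem (hlev _ _ ?_) (hy (by omega) _)
            simp only [idx]
            omega
          · rw [rc_A, qc_C]
            have hB : ∀ b : Fin 3, uF M i (Sum.inr (n, TT.B b)) ∈ K := by
              intro b
              apply hlev
              have := b.2
              simp only [idx]
              omega
            exact K.mul_mem (K.add_mem (K.add_mem (K.mul_mem (hy (by omega) _) (hB _))
              (K.mul_mem (hy (by omega) _) (hB _))) (K.mul_mem (hy (by omega) _) (hB _)))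
              (hy (by omega) _)
      exact K.add_mem (hq (by omega) _ hqr.1) (hr (by omega) _ hqr.2)
    · simp only [diag]
      split_ifs with h1
      · have hτi : τi (Sum.inr m) = w := by
          apply hκ
          rw [hi, hκw]
          simp only [coord, h1, esw]
        have hτ : τ0 (Sum.inr m) = w⁻¹ := by
          apply hκ
          rw [h0, map_inv₀, hκw]
          simp only [coord, h1]
          rw [show sw 0 i = i by simp [sw], inv_div]
        rw [hτ, hc, hτi, Derivation.leibniz_inv, sub_self]
        exact E.zero_mem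
      · have hne0 : m.succ ≠ 0 := Fin.succ_ne_zero m
        have hτ : τ0 (Sum.inr m) = w⁻¹ * τi (Sum.inr m) := by
          apply hκ
          rw [h0, map_mul, map_inv₀, hκw, hi]
          simp only [coord]
          rw [show sw 0 m.succ = m.succ by simp [sw],
            show sw i m.succ = m.succ by rw [sw, Equiv.swap_apply_of_ne_of_ne hne0 h1]]
          have h0' := yF_ne M 0
          have hi' := yF_ne M i
          field_simp
        have hrho : 1 ≤ rho M i (Sum.inr m) := by simp [rho, h1]
        rw [hτ, Derivation.leibniz, hc, add_sub_cancel_left]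
        exact E.smul_mem _ (hD _ ((cf E).inv_mem (hwcf (by omega))))

end main

end Pool.Agent.H11.BAB
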