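import Pool.Agent.H11.BAB.TaskG
import Pool.Agent.H11.BAB.Jac
import Pool.Graph.R_seed8.H187R3.TaskB

/-!
The canonical divisor of `X_M`.
-/

open AlgebraicGeometry CategoryTheory Order

namespace Pool.Agent.H11.BAB

open Pool.Agent.H187R3

variable [Pr]

variable (M : ℕ)

instance : IsLocallyNoetherian (XM M) := isLocallyNoetherian_XM M

lemma kap_injective : Function.Injective (kap M) := (kap M).injective

lemma generic_mem (i : F3) : genericPoint (XM M) ∈ Proj.basicOpen (AA M) (ys M i) := by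
  obtain ⟨j, hj⟩ := cover_XM M (genericPoint (XM M))
  obtain ⟨a, ha, hu⟩ := unit_iff M j i (genericPoint (XM M)) hj
  rw [← hu]
  have h1 : a ≠ 0 := by
    rintro rfl
    rw [map_zero, map_zero] at ha
    exact div_ne_zero (yF_ne M i) (yF_ne M j) ha.symm
  have h2 : IsUnit (show (XM M).functionField from a) := isUnit_iff_ne_zero.mpr h1
  exact h2

lemma exists_tau (i : F3) (v : VV M) : ∃ t : (XM M).functionField, kap M t = coord M i v := by
  obtain ⟨φ, hφ, -⟩ := stalk_chart M i (genericPoint (XM M)) (generic_mem M i)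
  exact ⟨_, by rw [hφ (MvPolynomial.X v)]; simp [psi]⟩

noncomputable def tau (i : F3) (v : VV M) : (XM M).functionField := (exists_tau M i v).choose

lemma kap_tau (i : F3) (v : VV M) : kap M (tau M i v) = coord M i v :=
  (exists_tau M i v).choose_spec

/-- the rational function `Y_j / Y_i` -/
noncomputable def yq (i j : F3) : (XM M).functionField := ylab i (tau M i) j

lemma kap_yq (i j : F3) : kap M (yq M i j) = yF M j / yF M i :=
  kap_ylab (kap M) i (tau M i) (kap_tau M i) j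

lemma yq_ne (i j : F3) : yq M i j ≠ 0 := by
  intro h
  have := kap_yq M i j
  rw [h, map_zero] at this
  exact div_ne_zero (yF_ne M j) (yF_ne M i) this.symm

lemma yq_mul (i j k : F3) : yq M i j * yq M j k = yq M i k := by
  apply kap_injective
  rw [map_mul, kap_yq, kap_yq, kap_yq]
  have := yF_ne M i
  have := yF_ne M j
  field_simp

lemma yq_self (i : F3) : yq M i i = 1 := by
  apply kap_injective
  rw [kap_yq, map_one, div_self (yF_ne M i)]

lemma yq_inv (i j : F3) : (yq M i j)⁻¹ = yq M j i :=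
  inv_eq_of_mul_eq_one_right (by rw [yq_mul, yq_self])

/-- a chart containing a point -/
noncomputable def ch (x : XM M) : F3 := (cover_XM M x).choose

lemma mem_ch (x : XM M) : x ∈ Proj.basicOpen (AA M) (ys M (ch M x)) := (cover_XM M x).choose_spec

/-- Localization data at a point. -/
lemma exists_phi (i : F3) (x : XM M) (hx : x ∈ Proj.basicOpen (AA M) (ys M i)) :
    ∃ φ : BB M →+* (XM M).presheaf.stalk x, Function.Injective φ ∧
      (∀ v, algebraMap _ (XM M).functionField (φ (MvPolynomial.X v)) = tau M i v) ∧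
      ∀ a, ∃ b s : BB M, IsUnit (φ s) ∧ a * φ s = φ b := by
  obtain ⟨φ, hφ, hloc⟩ := stalk_chart M i x hx
  refine ⟨φ, ?_, ?_, hloc⟩
  · intro a b hab
    apply psi_injective M i
    rw [← hφ, ← hφ, hab]
  · intro v
    apply kap_injective
    rw [hφ, kap_tau]
    simp [psi]

lemma isNormal_XM : IsNormalScheme (XM M) := by
  intro x
  obtain ⟨φ, hinj, -, hloc⟩ := exists_phi M _ x (mem_ch M x)
  exact isIntegrallyClosed_of_loc φ hinj hloc

lemma exists_cbasis (i : F3) (x : XM M) (hx : x ∈ Proj.basicOpen (AA M) (ys M i)) :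
    ∃ c : Module.Basis (VV M) (XM M).functionField (Ω[(XM M).functionField⁄ℤ]),
      (∀ v, c v = KaehlerDifferential.D ℤ (XM M).functionField (tau M i v)) ∧
      (Submodule.span ((XM M).presheaf.stalk x) (Set.range c) :
        Submodule ((XM M).presheaf.stalk x) _) =
        diffLattice ((XM M).presheaf.stalk x) (XM M).functionField := by
  obtain ⟨φ, hinj, hv, hloc⟩ := exists_phi M i x hx
  obtain ⟨c, hc, hspan⟩ := exists_basis_of_loc (L := (XM M).functionField) φ hinj hloc
  exact ⟨c, fun v => by rw [hc, hv], hspan⟩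

/-- The canonical divisor (minus `q + 1` times the divisor of `Y_0`). -/
noncomputable def KX (x : XM M) : ℤ := Scheme.ord (yq M 0 (ch M x) ^ (Pr.q + 1)) x

lemma yqp_ne (i j : F3) : yq M i j ^ (Pr.q + 1) ≠ 0 := pow_ne_zero _ (yq_ne M i j)

lemma yqp_mul (i j k : F3) :
    yq M i j ^ (Pr.q + 1) * yq M j k ^ (Pr.q + 1) = yq M i k ^ (Pr.q + 1) := by
  rw [← mul_pow, yq_mul]

/-- `Y_j/Y_i` has order zero at the points of `D₊(Y_i) ∩ D₊(Y_j)` -/
lemma ord_yq (i j : F3) (x : XM M) (hi : x ∈ Proj.basicOpen (AA M) (ys M i))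
    (hj : x ∈ Proj.basicOpen (AA M) (ys M j)) : Scheme.ord (yq M i j ^ (Pr.q + 1)) x = 0 := by
  by_cases hx : coheight x = 1
  · obtain ⟨a, ha, hu⟩ := unit_iff M i j x hi
    have haU : IsUnit (a ^ (Pr.q + 1)) := (hu.mpr hj).pow _
    have h1 : algebraMap _ (XM M).functionField a = yq M i j := by
      apply kap_injective; rw [ha, kap_yq]
    rw [← h1, ← map_pow, Scheme.ord_eq_iff hx (by rw [map_pow, h1]; exact yqp_ne M i j)]
    have : Ring.KrullDimLE 1 ((XM M).presheaf.stalk x) := krullDimLE_of_coheight_le hx.le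
    exact Ring.ordFrac_of_isUnit haU
  · exact Scheme.ord_eq_zero_of_coheight_neq_one hx _

lemma KX_eq (i : F3) (x : XM M) (hi : x ∈ Proj.basicOpen (AA M) (ys M i)) :
    KX M x = Scheme.ord (yq M 0 i ^ (Pr.q + 1)) x := by
  have h1 : yq M 0 (ch M x) ^ (Pr.q + 1) = yq M 0 i ^ (Pr.q + 1) * yq M i (ch M x) ^ (Pr.q + 1) :=
    (yqp_mul M 0 i _).symm
  rw [KX, h1, Scheme.ord_mul (yqp_ne M _ _) (yqp_ne M _ _), ord_yq M i _ x hi (mem_ch M x),
    add_zero]

lemma isFormOrder_KX (x : XM M) : IsFormOrder (XM M) (tau M 0) x (KX M x) := by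
  obtain ⟨c, hc, hspan⟩ := exists_cbasis M _ x (mem_ch M x)
  have hdet := jacobian (kap M) (ch M x) (tau M 0) (tau M (ch M x)) (kap_tau M 0)
    (kap_tau M _) c hc
  change _ = ((yq M (ch M x) 0)⁻¹) ^ (Pr.q + 1) at hdet
  rw [yq_inv] at hdet
  refine ⟨c, hspan, ?_, ?_⟩
  · rw [hdet]; exact yqp_ne M _ _
  · rw [hdet]; rfl


/-! ### Ampleness -/

lemma ord_one' {X : Scheme.{0}} [IsIntegral X] [IsLocallyNoetherian X] (y : X) :
    Scheme.ord (1 : X.functionField) y = 0 := by
  have h := Scheme.ord_mul (X := X) (x := y) (f := 1) (g := 1) one_ne_zero one_ne_zero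
  rw [one_mul] at h
  omega

lemma isAmple (hc : CompactSpace (XM M)) :
    IsAmpleDivisor (XM M) (fun y => -(((1 : ℕ) : ℤ) * KX M y)) := by
  have hE : ∀ (i : F3) (y : XM M), y ∈ Proj.basicOpen (AA M) (ys M i) → coheight y = 1 →
      Scheme.ord (yq M i 0 ^ (Pr.q + 1)) y = -KX M y := by
    intro i y hy hy1
    rw [KX_eq M i y hy]
    have h1 : Scheme.ord (yq M i 0 ^ (Pr.q + 1) * yq M 0 i ^ (Pr.q + 1)) y = 0 := by
      rw [yqp_mul, yq_self, one_pow, ord_one']
    rw [Scheme.ord_mul (yqp_ne M _ _) (yqp_ne M _ _)] at h1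
    omega
  refine ⟨hc, ?_, ?_⟩
  · intro z
    refine ⟨yq M (ch M z) 0 ^ (Pr.q + 1), yqp_ne M _ _, fun y hy hyz => ?_⟩
    have hy' : y ∈ Proj.basicOpen (AA M) (ys M (ch M z)) :=
      hyz.mem_open (Proj.basicOpen (AA M) (ys M (ch M z))).isOpen (mem_ch M z)
    rw [hE _ y hy' hy]
    simp
  · intro x
    refine ⟨1, one_pos, yq M 0 (ch M x) ^ (Pr.q + 1), yqp_ne M _ _,
      Proj.basicOpen (AA M) (ys M (ch M x)),
      Proj.isAffineOpen_basicOpen (AA M) (ys M (ch M x)) (ys_mem M _) one_pos, mem_ch M x,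
      fun z => ?_⟩
    refine ⟨yq M (ch M z) 0 ^ (Pr.q + 1), ⟨yqp_ne M _ _, fun y hy hyz => ?_⟩, ?_⟩
    · have hy' : y ∈ Proj.basicOpen (AA M) (ys M (ch M z)) :=
        hyz.mem_open (Proj.basicOpen (AA M) (ys M (ch M z))).isOpen (mem_ch M z)
      rw [hE _ y hy' hy]
      simp
    · obtain ⟨a, ha, hu⟩ := unit_iff M (ch M z) (ch M x) z (mem_ch M z)
      refine ⟨a ^ (Pr.q + 1), ?_, ?_⟩
      · apply kap_injective
        rw [map_pow, map_pow, ha, map_mul, map_pow, map_pow, kap_yq, kap_yq, ← mul_pow]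
        congr 1
        have := yF_ne M 0
        field_simp
      · rw [isUnit_pow_iff (Nat.succ_ne_zero _)]
        exact hu

end Pool.Agent.H11.BAB
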