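import Pool.Agent.H11.BAB.Alg

/-!
The field of fractions and the chart coordinates: definitions and basic formulas.
-/

open MvPolynomial

namespace Pool.Agent.H11.BAB

variable [Pr]

variable (M : ℕ)

noncomputable def yF (l : F3) : FF M := algebraMap (PP M) (FF M) (Yv M l)
noncomputable def tF (j : J M) : FF M := algebraMap (PP M) (FF M) (Tv M j)
noncomputable def qF (j : J M) : FF M := algebraMap (PP M) (FF M) (qq M j)
noncomputable def rF (j : J M) : FF M := algebraMap (PP M) (FF M) (rr M j)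

lemma yF_ne (l : F3) : yF M l ≠ 0 := by
  rw [yF, Ne, FaithfulSMul.algebraMap_eq_zero_iff]
  exact X_ne_zero _

instance : CharP (FF M) Pr.p :=
  charP_of_injective_algebraMap (IsFractionRing.injective (PP M) (FF M)) Pr.p

lemma two_ne_FF : (2 : FF M) ≠ 0 := by
  intro h
  have h1 : ((2 : ℕ) : FF M) = 0 := by exact_mod_cast h
  rw [CharP.cast_eq_zero_iff (FF M) Pr.p] at h1
  have := Nat.le_of_dvd (by norm_num) h1
  have := Pr.hp3
  omega

/-- small positive numbers are nonzero in the field -/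
lemma nat_ne_FF {n : ℕ} (h0 : 0 < n) (hn : n < Pr.p) : (n : FF M) ≠ 0 := by
  intro h
  rw [CharP.cast_eq_zero_iff (FF M) Pr.p] at h
  have := Nat.le_of_dvd h0 h
  omega

theorem exists_DF : ∃ D : Derivation Fp (FF M) (FF M), ∀ a : PP M,
    D (algebraMap (PP M) (FF M) a) = algebraMap (PP M) (FF M) (DD M a) := by
  obtain ⟨D, hD⟩ := Pool.Agent.Y939.BAB.exists_derivation_extension (R := Fp) (A := PP M) (K := FF M)
    ((IsScalarTower.toAlgHom (PP M) (PP M) (FF M)).toLinearMap.compDer (DD M))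
  exact ⟨D, fun a => by rw [hD]; rfl⟩

noncomputable def DF : Derivation Fp (FF M) (FF M) := (exists_DF M).choose

lemma DF_algebraMap (a : PP M) :
    DF M (algebraMap (PP M) (FF M) a) = algebraMap (PP M) (FF M) (DD M a) :=
  (exists_DF M).choose_spec a

@[simp] lemma DF_y (l : F3) : DF M (yF M l) = 0 := by
  rw [yF, DF_algebraMap, DD_Y, map_zero]
@[simp] lemma DF_t (j : J M) : DF M (tF M j) = qF M j := by
  rw [tF, DF_algebraMap, DD_T, qF]
@[simp] lemma DF_q (j : J M) : DF M (qF M j) = rF M j := by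
  rw [qF, DF_algebraMap, DD_qq, rF]
@[simp] lemma DF_r (j : J M) : DF M (rF M j) = 0 := by
  rw [rF, DF_algebraMap, DD_rr, map_zero]

lemma DF_mul (a b : FF M) : DF M (a * b) = a * DF M b + b * DF M a := by
  rw [Derivation.leibniz, smul_eq_mul, smul_eq_mul]

lemma DF_div' {a b : FF M} (hb : DF M b = 0) : DF M (a / b) = DF M a / b := by
  by_cases h : b = 0
  · simp [h]
  · have h1 : DF M (a / b * b) = DF M a := by rw [div_mul_cancel₀ _ h]
    rw [DF_mul, hb, mul_zero, zero_add] at h1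
    rw [← h1]
    field_simp

lemma DF_div {a b : FF M} (ha : DF M a = 0) (hb : DF M b = 0) : DF M (a / b) = 0 := by
  rw [DF_div' M hb, ha, zero_div]

lemma DF_pow_zero {a : FF M} (ha : DF M a = 0) (n : ℕ) : DF M (a ^ n) = 0 := by
  induction n with
  | zero => simp
  | succ n ih => rw [pow_succ, DF_mul, ha, ih, mul_zero, mul_zero, add_zero]

lemma DF_pp (a : FF M) : DF M (a ^ Pr.p) = 0 := by
  have h : ((Pr.p : ℕ) : FF M) = 0 := CharP.cast_eq_zero (FF M) Pr.p
  rw [Derivation.leibniz_pow, ← Nat.cast_smul_eq_nsmul (FF M), h, zero_smul]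

lemma DF_two : DF M (2 : FF M) = 0 := by
  have := (DF M).map_natCast 2
  exact_mod_cast this

/-- index of the variable playing the role of label `l` in chart `i` -/
def sw (i l : F3) : F3 := Equiv.swap 0 i l

lemma sw_sw (i l : F3) : sw i (sw i l) = l := Equiv.swap_apply_self 0 i l
lemma sw_zero (i : F3) : sw i 0 = i := Equiv.swap_apply_left 0 i
lemma sw_ne_zero {i l : F3} (h : l ≠ i) : sw i l ≠ 0 := by
  intro h'
  apply h
  rw [← sw_sw i l, h', sw_zero]
lemma sw_ne_self {i l : F3} (h : l ≠ 0) : sw i l ≠ i := by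
  intro h'
  apply h
  rw [← sw_sw i l, h']
  exact Equiv.swap_apply_right 0 i

/-- The variable `t_j` corrected to a constant in the chart `i`:
`t' = t - e_i (D t)/Y_i + e_i² (D² t)/(2 Y_i²)`. -/
noncomputable def uF (i : F3) (j : J M) : FF M :=
  tF M j - tF M (Sum.inl i) * (qF M j / yF M i) +
    tF M (Sum.inl i) ^ 2 * (rF M j / (2 * yF M i ^ 2))

/-- The constant `(D t_j)' = (D t_j)/Y_i - e_i (D² t_j)/Y_i²`. -/
noncomputable def qc (i : F3) (j : J M) : FF M :=
  qF M j / yF M i - tF M (Sum.inl i) * (rF M j / yF M i ^ 2)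

lemma qF_inl (l : F3) : qF M (Sum.inl l) = yF M l := rfl
lemma rF_inl (l : F3) : rF M (Sum.inl l) = 0 := by simp [rF, rr]

/-- `t = t' + e_i (D t)' + e_i² (D² t)' / 2` -/
lemma tF_eq (i : F3) (j : J M) : tF M j = uF M i j + tF M (Sum.inl i) * qc M i j +
    tF M (Sum.inl i) ^ 2 * (rF M j / (2 * yF M i ^ 2)) := by
  have h2 := two_ne_FF M
  have hy := yF_ne M i
  rw [uF, qc]
  field_simp
  ring

lemma DF_u (i : F3) (j : J M) : DF M (uF M i j) = 0 := by
  have h2 := two_ne_FF M
  have hy := yF_ne M i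
  have hy2 : DF M (yF M i ^ 2) = 0 := DF_pow_zero M (DF_y M i) 2
  have h3 : DF M (2 * yF M i ^ 2) = 0 := by rw [DF_mul, hy2, DF_two, mul_zero, mul_zero, add_zero]
  rw [uF, map_add, map_sub, DF_mul, DF_mul, DF_div' M (DF_y M i), DF_div' M h3, DF_q, DF_r, DF_t,
    pow_two (tF M (Sum.inl i)), DF_mul, DF_t, qF_inl]
  field_simp
  ring

lemma DF_qc (i : F3) (j : J M) : DF M (qc M i j) = 0 := by
  have hy := yF_ne M i
  have hy2 : DF M (yF M i ^ 2) = 0 := DF_pow_zero M (DF_y M i) 2
  rw [qc, map_sub, DF_mul, DF_div' M (DF_y M i), DF_div' M hy2, DF_q, DF_r, DF_t, qF_inl]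
  field_simp
  ring

/-- the corrected variable of level `n`, zero for `n ≥ M` -/
noncomputable def uL (i : F3) (n : ℕ) (k : TT) : FF M :=
  if h : n < M then uF M i (Sum.inr (⟨n, h⟩, k)) else 0

/-- the corrected `A_{n-1}` -/
noncomputable def uApre (i : F3) : ℕ → Fin 3 → FF M
  | 0, _ => 0
  | (n+1), a => uL M i n (TT.A a)

lemma uL_fin (i : F3) (n : Fin M) (k : TT) : uL M i n k = uF M i (Sum.inr (n, k)) := by
  rw [uL, dif_pos n.2]

lemma qc_inl (i l : F3) : qc M i (Sum.inl l) = yF M l / yF M i := by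
  rw [qc, qF_inl, rF_inl, zero_div, mul_zero, sub_zero]

/-- the image of `Lv` -/
noncomputable def LF (n : ℕ) (k : TT) : FF M := algebraMap (PP M) (FF M) (Lv M n k)

lemma LF_fin (n : Fin M) (k : TT) : LF M n k = tF M (Sum.inr (n, k)) := by
  rw [LF, Lv_fin]; rfl

lemma qF_A (n : Fin M) (a : Fin 3) : qF M (Sum.inr (n, TT.A a)) = LF M n TT.C * yF M (cY a) := by
  simp [qF, qq, LF, yF]

lemma qF_C (n : Fin M) : qF M (Sum.inr (n, TT.C)) = yF M (cY 0) * LF M n (TT.B 0) +
    yF M (cY 1) * LF M n (TT.B 1) + yF M (cY 2) * LF M n (TT.B 2) := by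
  simp [qF, qq, LF, yF, YB]

lemma qF_B (n : Fin M) (a : Fin 3) : qF M (Sum.inr (n, TT.B a)) =
    yF M (cY (a + 1)) * algebraMap (PP M) (FF M) (Apre M n (a + 2)) -
      yF M (cY (a + 2)) * algebraMap (PP M) (FF M) (Apre M n (a + 1)) := by
  simp [qF, qq, yF]

lemma rF_A (n : Fin M) (a : Fin 3) :
    rF M (Sum.inr (n, TT.A a)) = qF M (Sum.inr (n, TT.C)) * yF M (cY a) := by
  simp [qF, rF, qq, rr, yF]

lemma rF_C (n : Fin M) : rF M (Sum.inr (n, TT.C)) = 0 := by simp [rF, rr]
lemma rF_B (n : Fin M) (a : Fin 3) : rF M (Sum.inr (n, TT.B a)) = 0 := by simp [rF, rr]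

lemma uF_self (i : F3) : uF M i (Sum.inl i) = 0 := by
  rw [uF, qF_inl, rF_inl, div_self (yF_ne M i), zero_div]
  ring

/-- `D A_n = C_n Y` in the chart -/
lemma qc_A (i : F3) (n : Fin M) (a : Fin 3) :
    qc M i (Sum.inr (n, TT.A a)) = uF M i (Sum.inr (n, TT.C)) * (yF M (cY a) / yF M i) := by
  have hy := yF_ne M i
  rw [qc, uF, qF_A, rF_A, rF_C, LF_fin]
  field_simp
  ring

/-- `D B_n = Y × A_{n-1}` in the chart -/
lemma qc_B (i : F3) (n : Fin M) (a : Fin 3) :
    qc M i (Sum.inr (n, TT.B a)) = yF M (cY (a + 1)) / yF M i * uApre M i n (a + 2) -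
      yF M (cY (a + 2)) / yF M i * uApre M i n (a + 1) := by
  have hy := yF_ne M i
  have h2 := two_ne_FF M
  rw [qc, qF_B, rF_B]
  obtain ⟨n, hn⟩ := n
  cases n with
  | zero => simp [Apre, uApre]
  | succ k =>
    have hk : k < M := by omega
    have e1 : ∀ a, algebraMap (PP M) (FF M) (Apre M (k + 1) a) =
        tF M (Sum.inr (⟨k, hk⟩, TT.A a)) := fun a => LF_fin M ⟨k, hk⟩ _
    have e2 : ∀ a, uApre M i (k + 1) a = uF M i (Sum.inr (⟨k, hk⟩, TT.A a)) :=
      fun a => uL_fin M i ⟨k, hk⟩ _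
    simp only [e1, e2, uF, qF_A, rF_A]
    field_simp
    ring

/-- `D C_n = Y · B_n` in the chart -/
lemma qc_C (i : F3) (n : Fin M) :
    qc M i (Sum.inr (n, TT.C)) = yF M (cY 0) / yF M i * uF M i (Sum.inr (n, TT.B 0)) +
      yF M (cY 1) / yF M i * uF M i (Sum.inr (n, TT.B 1)) +
        yF M (cY 2) / yF M i * uF M i (Sum.inr (n, TT.B 2)) := by
  have hy := yF_ne M i
  have h2 := two_ne_FF M
  rw [qc, qF_C, rF_C]
  simp only [LF_fin, uF, qF_B, rF_B]
  have e1 : (0 : Fin 3) + 1 = 1 := rfl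
  have e2 : (0 : Fin 3) + 2 = 2 := rfl
  have e3 : (1 : Fin 3) + 1 = 2 := rfl
  have e4 : (1 : Fin 3) + 2 = 0 := rfl
  have e5 : (2 : Fin 3) + 1 = 0 := rfl
  have e6 : (2 : Fin 3) + 2 = 1 := rfl
  rw [e1, e2, e3, e4, e5, e6]
  field_simp
  ring

/-- `D² A_n = (Y · B_n) Y` in the chart -/
lemma rc_A (i : F3) (n : Fin M) (a : Fin 3) : rF M (Sum.inr (n, TT.A a)) / yF M i ^ 2 =
    qc M i (Sum.inr (n, TT.C)) * (yF M (cY a) / yF M i) := by
  have hy := yF_ne M i
  rw [rF_A, qc, rF_C]
  field_simp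
  ring

/-- The index set of chart coordinates. -/
abbrev VV (M : ℕ) := J M ⊕ Fin Pr.d

/-- chart coordinates -/
noncomputable def coord (i : F3) : VV M → FF M
  | Sum.inl (Sum.inl l) => if l = 0 then tF M (Sum.inl i) ^ Pr.p else uF M i (Sum.inl (sw i l))
  | Sum.inl (Sum.inr nb) => uF M i (Sum.inr nb)
  | Sum.inr m => yF M (sw i m.succ) / yF M i

lemma DF_coord (i : F3) (v : VV M) : DF M (coord M i v) = 0 := by
  rcases v with (l | nb) | m
  · simp only [coord]
    split_ifs
    · exact DF_pp M _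
    · exact DF_u M _ _
  · exact DF_u M _ _
  · exact DF_div M (DF_y M _) (DF_y M _)

/-- The polynomial ring of a chart. -/
abbrev BB (M : ℕ) := MvPolynomial (VV M) Fp

/-- the chart map -/
noncomputable def psi (i : F3) : BB M →ₐ[Fp] FF M := aeval (coord M i)

/-- the (unlocalized) chart ring -/
noncomputable def CC (i : F3) : Subalgebra Fp (FF M) := (psi M i).range

lemma coord_mem (i : F3) (v : VV M) : coord M i v ∈ CC M i := ⟨X v, by simp [psi]⟩

lemma DF_CC (i : F3) {c : FF M} (hc : c ∈ CC M i) : DF M c = 0 := by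
  obtain ⟨p, rfl⟩ := hc
  change DF M (psi M i p) = 0
  induction p using MvPolynomial.induction_on with
  | C a => simp [psi]
  | add p q hp hq => rw [map_add, map_add, hp, hq, add_zero]
  | mul_X p v hp =>
    rw [map_mul, Derivation.leibniz, hp]
    simp [psi, DF_coord]

lemma ydiv_mem (i l : F3) : yF M l / yF M i ∈ CC M i := by
  by_cases h : l = i
  · subst h
    rw [div_self (yF_ne M l)]
    exact Subalgebra.one_mem _
  · have hl : sw i l ≠ 0 := sw_ne_zero h
    obtain ⟨m, hm⟩ := Fin.exists_succ_eq.mpr hl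
    have := coord_mem M i (Sum.inr m)
    simp only [coord, hm, sw_sw] at this
    exact this

lemma ep_mem (i : F3) : tF M (Sum.inl i) ^ Pr.p ∈ CC M i := by
  have := coord_mem M i (Sum.inl (Sum.inl 0))
  simpa [coord] using this

lemma u_mem (i : F3) (j : J M) : uF M i j ∈ CC M i := by
  rcases j with l | nb
  · by_cases h : l = i
    · subst h
      rw [uF_self]; exact Subalgebra.zero_mem _
    · have hl : sw i l ≠ 0 := sw_ne_zero h
      have := coord_mem M i (Sum.inl (Sum.inl (sw i l)))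
      simp only [coord, if_neg hl, sw_sw] at this
      exact this
  · exact coord_mem M i (Sum.inl (Sum.inr nb))

lemma uL_mem (i : F3) (n : ℕ) (k : TT) : uL M i n k ∈ CC M i := by
  rw [uL]
  split_ifs
  · exact u_mem M i _
  · exact Subalgebra.zero_mem _

lemma uApre_mem (i : F3) (n : ℕ) (a : Fin 3) : uApre M i n a ∈ CC M i := by
  cases n with
  | zero => exact Subalgebra.zero_mem _
  | succ k => exact uL_mem M i k _

lemma qc_mem (i : F3) (j : J M) : qc M i j ∈ CC M i := by
  rcases j with l | ⟨n, k⟩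
  · rw [qc_inl]; exact ydiv_mem M i l
  · rcases k with a | _ | a
    · rw [qc_B]
      exact Subalgebra.sub_mem _ (Subalgebra.mul_mem _ (ydiv_mem M i _) (uApre_mem M i _ _))
        (Subalgebra.mul_mem _ (ydiv_mem M i _) (uApre_mem M i _ _))
    · rw [qc_C]
      exact Subalgebra.add_mem _ (Subalgebra.add_mem _
        (Subalgebra.mul_mem _ (ydiv_mem M i _) (u_mem M i _))
        (Subalgebra.mul_mem _ (ydiv_mem M i _) (u_mem M i _)))
        (Subalgebra.mul_mem _ (ydiv_mem M i _) (u_mem M i _))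
    · rw [qc_A]
      exact Subalgebra.mul_mem _ (u_mem M i _) (ydiv_mem M i _)

lemma rdiv_mem (i : F3) (j : J M) : rF M j / yF M i ^ 2 ∈ CC M i := by
  rcases j with l | ⟨n, k⟩
  · rw [rF_inl, zero_div]; exact Subalgebra.zero_mem _
  · rcases k with a | _ | a
    · rw [rF_B, zero_div]; exact Subalgebra.zero_mem _
    · rw [rF_C, zero_div]; exact Subalgebra.zero_mem _
    · rw [rc_A]
      exact Subalgebra.mul_mem _ (qc_mem M i _) (ydiv_mem M i _)

/-- dehomogenization -/
noncomputable def theta (i : F3) : PP M →ₐ[Fp] FF M :=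
  aeval (Sum.elim (tF M) (fun l => yF M l / yF M i))

lemma theta_of_mem (i : F3) {d : ℕ} {p : PP M} (hp : p ∈ HH M d) :
    theta M i p = algebraMap (PP M) (FF M) p / yF M i ^ d := by
  have hp' := hp
  rw [mem_weightedHomogeneousSubmodule] at hp
  have hsum : ∀ m ∈ p.support, theta M i (monomial m (coeff m p)) =
      algebraMap (PP M) (FF M) (monomial m (coeff m p)) / yF M i ^ d := by
    intro m hm
    have hm' : Finsupp.weight (wt M) m = d := hp (mem_support_iff.mp hm)
    rw [theta, aeval_monomial, monomial_eq, map_mul, ← algebraMap_eq,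
      ← IsScalarTower.algebraMap_apply, mul_div_assoc]
    congr 1
    rw [← hm', Finsupp.weight_apply, Finsupp.prod, Finsupp.prod, Finsupp.sum, map_prod,
      ← Finset.prod_pow_eq_pow_sum, ← Finset.prod_div_distrib]
    refine Finset.prod_congr rfl fun v _ => ?_
    rcases v with j | l
    · simp [tF, Tv, wt]
    · simp [yF, Yv, wt, div_pow]
  conv_lhs => rw [p.as_sum]
  conv_rhs => rw [p.as_sum]
  rw [map_sum, map_sum, Finset.sum_div]
  exact Finset.sum_congr rfl hsum

end Pool.Agent.H11.BAB
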