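import Pool.Agent.H11.BAB.Chart

/-!
# The coefficient derivations

The derivation `D` of `Alg.lean` is `∑_l Y_l D_l` on polynomials in the `t_j`; every `g` with `D g = 0`
is killed by the `D_l`, hence by their commutators. With `D_a` for `Y_a`, `a = 0, 1, 2`, put
`P = [D_0, [D_1, D_2]]`, `Δ_0 = D_1` and `Δ_{k+1} = [P, Δ_k]`. Then `Δ_k C_n = B_{n-k,1}`, which is
zero for `k > n`: the `Δ_k` are linearly independent.
-/

open MvPolynomial

namespace Pool.Agent.H11.BAB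

variable [Pr]

variable (M : ℕ)

/-- the coefficient of `Y_l` in the derivation -/
noncomputable def dl (l : F3) : Derivation Fp (P0 M) (P0 M) :=
  mkDerivation Fp (fun j => evp M (Pi.single l 1) (qq M j))

lemma dl_X (l : F3) (j : J M) : dl M l (X j) = evp M (Pi.single l 1) (qq M j) := by
  rw [dl, mkDerivation_X]

lemma dl_eq (l : F3) (g : P0 M) : dl M l g = evp M (Pi.single l 1) (DD M (i0 M g)) := by
  induction g using MvPolynomial.induction_on with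
  | C a => simp [dl, i0]
  | add p q hp hq => rw [map_add, map_add, map_add, map_add, hp, hq]
  | mul_X p v hp =>
    have hv : i0 M (X v) = Tv M v := by rw [i0, rename_X, Tv]
    rw [Derivation.leibniz, map_mul (i0 M), Derivation.leibniz, hp, hv, DD_T, map_add]
    simp only [smul_eq_mul, map_mul, evp_i0, evp_T, dl_X]

lemma dl_of_DD (l : F3) {g : P0 M} (hg : DD M (i0 M g) = 0) : dl M l g = 0 := by
  rw [dl_eq, hg, map_zero]

/-- the variable of level `n : ℤ`, zero for `n < 0` and for `n ≥ M` -/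
noncomputable def ZZ' (n : ℤ) (t : TT) : P0 M :=
  if h : 0 ≤ n ∧ n < M then X (Sum.inr (⟨n.toNat, by omega⟩, t)) else 0

lemma ZZ'_neg {n : ℤ} (h : n < 0) (t : TT) : ZZ' M n t = 0 := by
  rw [ZZ', dif_neg (by omega)]

lemma ZZ'_fin (n : Fin M) (t : TT) : ZZ' M (n : ℕ) t = X (Sum.inr (n, t)) := by
  have h : 0 ≤ ((n : ℕ) : ℤ) ∧ ((n : ℕ) : ℤ) < M := ⟨by omega, by have := n.2; omega⟩
  rw [ZZ', dif_pos h]
  rfl

omit [Pr] in
lemma exists_fin {n : ℤ} (h0 : 0 ≤ n) (h : n < M) : ∃ m : Fin M, n = ((m : ℕ) : ℤ) :=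
  ⟨⟨n.toNat, by omega⟩, by simp [h0]⟩

lemma evp_Lv (p : F3 → Fp) (n : ℕ) (t : TT) (hn : n < M) : evp M p (Lv M n t) = ZZ' M n t := by
  rw [Lv, dif_pos hn, evp_T, ← ZZ'_fin M ⟨n, hn⟩]

lemma evp_Apre (p : F3 → Fp) (n : ℕ) (a : Fin 3) (hn : n < M) :
    evp M p (Apre M n a) = ZZ' M ((n : ℤ) - 1) (TT.A a) := by
  cases n with
  | zero => rw [Apre, map_zero, ZZ'_neg M (by simp)]
  | succ k =>
    rw [Apre, evp_Lv M p k _ (by omega)]
    congr 1
    push_cast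
    ring

lemma single_cY (a b : Fin 3) :
    (Pi.single (cY a) 1 : F3 → Fp) (cY b) = if b = a then 1 else 0 := by
  by_cases h : b = a
  · subst h; simp
  · rw [if_neg h, Pi.single_eq_of_ne]
    exact fun h' => h (cY_injective h')

/-- `D_a`, `a = 0, 1, 2` -/
noncomputable def Dc (a : Fin 3) : Derivation Fp (P0 M) (P0 M) := dl M (cY a)

lemma Dc_A (a b : Fin 3) {n : ℤ} (hn : n < M) :
    Dc M a (ZZ' M n (TT.A b)) = if b = a then ZZ' M n TT.C else 0 := by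
  rcases lt_or_ge n 0 with h | h
  · rw [ZZ'_neg M h, ZZ'_neg M h, map_zero]; simp
  · obtain ⟨m, rfl⟩ := exists_fin M h hn
    rw [ZZ'_fin, Dc, dl_X]
    simp only [qq, map_mul, evp_Y, single_cY]
    rw [evp_Lv M _ _ _ m.2]
    split_ifs <;> simp

lemma Dc_C (a : Fin 3) {n : ℤ} (hn : n < M) :
    Dc M a (ZZ' M n TT.C) = ZZ' M n (TT.B a) := by
  rcases lt_or_ge n 0 with h | h
  · rw [ZZ'_neg M h, ZZ'_neg M h, map_zero]
  · obtain ⟨m, rfl⟩ := exists_fin M h hn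
    rw [ZZ'_fin, Dc, dl_X]
    simp only [qq, YB, map_add, map_mul, evp_Y, single_cY]
    rw [evp_Lv M _ _ _ m.2, evp_Lv M _ _ _ m.2, evp_Lv M _ _ _ m.2]
    fin_cases a <;> simp

lemma Dc_B (a b : Fin 3) {n : ℤ} (hn : n < M) :
    Dc M a (ZZ' M n (TT.B b)) = (if b + 1 = a then ZZ' M (n - 1) (TT.A (b + 2)) else 0) -
      (if b + 2 = a then ZZ' M (n - 1) (TT.A (b + 1)) else 0) := by
  rcases lt_or_ge n 0 with h | h
  · rw [ZZ'_neg M h, ZZ'_neg M (by omega), ZZ'_neg M (by omega), map_zero]; simp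
  · obtain ⟨m, rfl⟩ := exists_fin M h hn
    rw [ZZ'_fin, Dc, dl_X]
    simp only [qq, map_sub, map_mul, evp_Y, single_cY]
    rw [evp_Apre M _ _ _ m.2, evp_Apre M _ _ _ m.2]
    split_ifs <;> simp

/-- `P = [D_0, [D_1, D_2]]` -/
noncomputable def Pd : Derivation Fp (P0 M) (P0 M) := ⁅Dc M 0, ⁅Dc M 1, Dc M 2⁆⁆

lemma Pd_apply (x : P0 M) : Pd M x = Dc M 0 (Dc M 1 (Dc M 2 x) - Dc M 2 (Dc M 1 x)) -
    (Dc M 1 (Dc M 2 (Dc M 0 x)) - Dc M 2 (Dc M 1 (Dc M 0 x))) := by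
  rw [Pd, Derivation.commutator_apply, Derivation.commutator_apply, Derivation.commutator_apply]

lemma Pd_A0 {n : ℤ} (hn : n < M) : Pd M (ZZ' M n (TT.A 0)) = 2 * ZZ' M (n - 1) (TT.A 0) := by
  rw [Pd_apply]
  simp [Dc_A M _ _ hn, Dc_C M _ hn, Dc_B M _ _ hn]
  ring

lemma Pd_A1 {n : ℤ} (hn : n < M) : Pd M (ZZ' M n (TT.A 1)) = - ZZ' M (n - 1) (TT.A 1) := by
  rw [Pd_apply]
  simp [Dc_A M _ _ hn, Dc_C M _ hn, Dc_B M _ _ hn]

lemma Pd_A2 {n : ℤ} (hn : n < M) : Pd M (ZZ' M n (TT.A 2)) = - ZZ' M (n - 1) (TT.A 2) := by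
  rw [Pd_apply]
  simp [Dc_A M _ _ hn, Dc_C M _ hn, Dc_B M _ _ hn]

lemma Pd_C {n : ℤ} (hn : n < M) : Pd M (ZZ' M n TT.C) = 0 := by
  have hn' : n - 1 < M := by omega
  rw [Pd_apply]
  simp [Dc_A M _ _ hn, Dc_C M _ hn, Dc_B M _ _ hn, Dc_A M _ _ hn', Dc_C M _ hn']

lemma Pd_B0 {n : ℤ} (hn : n < M) : Pd M (ZZ' M n (TT.B 0)) = - 2 * ZZ' M (n - 1) (TT.B 0) := by
  have hn' : n - 1 < M := by omega
  rw [Pd_apply]
  simp [Dc_A M _ _ hn, Dc_C M _ hn, Dc_B M _ _ hn, Dc_A M _ _ hn', Dc_C M _ hn']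
  ring

lemma Pd_B1 {n : ℤ} (hn : n < M) : Pd M (ZZ' M n (TT.B 1)) = ZZ' M (n - 1) (TT.B 1) := by
  have hn' : n - 1 < M := by omega
  rw [Pd_apply]
  simp [Dc_A M _ _ hn, Dc_C M _ hn, Dc_B M _ _ hn, Dc_A M _ _ hn', Dc_C M _ hn']

lemma Pd_B2 {n : ℤ} (hn : n < M) : Pd M (ZZ' M n (TT.B 2)) = ZZ' M (n - 1) (TT.B 2) := by
  have hn' : n - 1 < M := by omega
  rw [Pd_apply]
  simp [Dc_A M _ _ hn, Dc_C M _ hn, Dc_B M _ _ hn, Dc_A M _ _ hn', Dc_C M _ hn']

/-- `Δ_0 = D_1`, `Δ_{k+1} = [P, Δ_k]` -/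
noncomputable def Del : ℕ → Derivation Fp (P0 M) (P0 M)
  | 0 => Dc M 1
  | (k + 1) => ⁅Pd M, Del k⁆

lemma Del_succ (k : ℕ) (x : P0 M) : Del M (k + 1) x = Pd M (Del M k x) - Del M k (Pd M x) := by
  rw [Del, Derivation.commutator_apply]

lemma Del_spec (k : ℕ) : ∀ n : ℤ, n < M →
    Del M k (ZZ' M n (TT.A 0)) = 0 ∧
    Del M k (ZZ' M n (TT.A 1)) = ZZ' M (n - k) TT.C ∧
    Del M k (ZZ' M n (TT.A 2)) = 0 ∧
    Del M k (ZZ' M n TT.C) = ZZ' M (n - k) (TT.B 1) ∧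
    Del M k (ZZ' M n (TT.B 0)) = ZZ' M (n - 1 - k) (TT.A 2) ∧
    Del M k (ZZ' M n (TT.B 1)) = 0 ∧
    Del M k (ZZ' M n (TT.B 2)) = - ZZ' M (n - 1 - k) (TT.A 0) := by
  induction k with
  | zero =>
    intro n hn
    simp [Del, Dc_A M _ _ hn, Dc_C M _ hn, Dc_B M _ _ hn]
  | succ k ih =>
    intro n hn
    have hn1 : n - 1 < M := by omega
    have hnk : n - k < M := by omega
    have hnk1 : n - 1 - k < M := by omega
    obtain ⟨a0, a1, a2, c, b0, b1, b2⟩ := ih n hn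
    obtain ⟨a0', a1', a2', c', b0', b1', b2'⟩ := ih (n - 1) hn1
    have e1 : n - ((k + 1 : ℕ) : ℤ) = n - 1 - k := by push_cast; ring
    have e2 : n - 1 - ((k + 1 : ℕ) : ℤ) = n - 1 - k - 1 := by push_cast; ring
    have e3 : n - k - 1 = n - 1 - k := by ring
    have e4 : n - 1 - 1 - k = n - 1 - k - 1 := by ring
    have two : ∀ (D : Derivation Fp (P0 M) (P0 M)) (x : P0 M), D (2 * x) = 2 * D x := by
      intro D x
      rw [two_mul, map_add, two_mul]
    have ntwo : ∀ (D : Derivation Fp (P0 M) (P0 M)) (x : P0 M), D (- 2 * x) = - 2 * D x := by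
      intro D x
      rw [neg_mul, map_neg, two, neg_mul]
    refine ⟨?_, ?_, ?_, ?_, ?_, ?_, ?_⟩
    · rw [Del_succ, a0, Pd_A0 M hn, two, a0', map_zero, mul_zero, sub_zero]
    · rw [Del_succ, a1, Pd_A1 M hn, Pd_C M hnk, map_neg, a1', e1]; ring
    · rw [Del_succ, a2, Pd_A2 M hn, map_neg, a2', map_zero, neg_zero, sub_zero]
    · rw [Del_succ, c, Pd_C M hn, Pd_B1 M hnk, map_zero, e1, e3, sub_zero]
    · rw [Del_succ, b0, Pd_B0 M hn, Pd_A2 M hnk1, ntwo, b0', e2, e4]; ring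
    · rw [Del_succ, b1, Pd_B1 M hn, b1', map_zero, sub_zero]
    · rw [Del_succ, b2, Pd_B2 M hn, b2', map_neg, Pd_A0 M hnk1, e2, e4]; ring

lemma Del_C (k : ℕ) (n : Fin M) : Del M k (X (Sum.inr (n, TT.C))) =
    if h : k ≤ n.val then X (Sum.inr (⟨n.val - k, by omega⟩, TT.B 1)) else 0 := by
  have h := (Del_spec M k (n : ℕ) (by have := n.2; omega)).2.2.2.1
  rw [ZZ'_fin] at h
  rw [h]
  split_ifs with hk
  · rw [← ZZ'_fin M ⟨n.val - k, by omega⟩]
    congr 1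
    push_cast [hk]
    ring
  · exact ZZ'_neg M (by omega) _

lemma Dc_kill (a : Fin 3) {g : P0 M} (hg : DD M (i0 M g) = 0) : Dc M a g = 0 := dl_of_DD M _ hg

lemma Pd_kill {g : P0 M} (hg : DD M (i0 M g) = 0) : Pd M g = 0 := by
  rw [Pd_apply]
  simp [Dc_kill M _ hg]

lemma Del_kill (k : ℕ) {g : P0 M} (hg : DD M (i0 M g) = 0) : Del M k g = 0 := by
  induction k with
  | zero => exact Dc_kill M 1 hg
  | succ k ih => rw [Del_succ, ih, Pd_kill M hg, map_zero, map_zero, sub_zero]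

theorem exists_derivations : ∃ Δ : ℕ → Derivation Fp (P0 M) (P0 M),
    (∀ k, ∀ g : P0 M, DD M (i0 M g) = 0 → Δ k g = 0) ∧
    (∀ k, ∀ n : Fin M, Δ k (X (Sum.inr (n, TT.C))) =
      if h : k ≤ n.val then X (Sum.inr (⟨n.val - k, by omega⟩, TT.B 1)) else 0) :=
  ⟨Del M, fun k _ hg => Del_kill M k hg, fun k n => Del_C M k n⟩

/-- every derivation of `F_p[t_j]` extends to the field of fractions of `F_p[t_j, Y_l]`, with value
zero on the `Y_l` -/
lemma exists_ext (D : Derivation Fp (P0 M) (P0 M)) : ∃ E : Derivation Fp (FF M) (FF M),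
    (∀ g : P0 M, E (algebraMap (PP M) (FF M) (i0 M g)) = algebraMap (PP M) (FF M) (i0 M (D g))) ∧
    ∀ l, E (yF M l) = 0 := by
  let D' : Derivation Fp (PP M) (PP M) :=
    mkDerivation Fp (Sum.elim (fun j => i0 M (D (X j))) 0)
  have hD' : ∀ g : P0 M, D' (i0 M g) = i0 M (D g) := by
    intro g
    induction g using MvPolynomial.induction_on with
    | C a => simp [D', i0]
    | add p q hp hq => rw [map_add, map_add, map_add, map_add, hp, hq]
    | mul_X p v hp =>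
      have hv : i0 M (X v) = X (Sum.inl v) := by rw [i0, rename_X]
      have hv' : D' (X (Sum.inl v)) = i0 M (D (X v)) := by simp [D', mkDerivation_X]
      rw [map_mul (i0 M), Derivation.leibniz, hp, hv, hv', Derivation.leibniz, map_add]
      simp only [smul_eq_mul, map_mul, hv]
  obtain ⟨E, hE⟩ := Pool.Agent.Y939.BAB.exists_derivation_extension (R := Fp) (A := PP M) (K := FF M)
    ((IsScalarTower.toAlgHom (PP M) (PP M) (FF M)).toLinearMap.compDer D')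
  have hE' : ∀ a, E (algebraMap (PP M) (FF M) a) = algebraMap (PP M) (FF M) (D' a) := by
    intro a; rw [hE]; rfl
  refine ⟨E, fun g => by rw [hE', hD'], fun l => ?_⟩
  rw [yF, hE']
  have : D' (Yv M l) = 0 := by simp [D', Yv, mkDerivation_X]
  rw [this, map_zero]

theorem exists_derivations_FF : ∃ Δ : ℕ → Derivation Fp (FF M) (FF M),
    (∀ k, ∀ g : P0 M, DD M (i0 M g) = 0 → Δ k (algebraMap (PP M) (FF M) (i0 M g)) = 0) ∧
    (∀ k, ∀ n : Fin M, Δ k (tF M (Sum.inr (n, TT.C))) =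
      if h : k ≤ n.val then tF M (Sum.inr (⟨n.val - k, by omega⟩, TT.B 1)) else 0) := by
  have ht : ∀ j, tF M j = algebraMap (PP M) (FF M) (i0 M (X j)) := fun j => by
    rw [i0, rename_X]; rfl
  refine ⟨fun k => (exists_ext M (Del M k)).choose, fun k g hg => ?_, fun k n => ?_⟩
  · rw [(exists_ext M (Del M k)).choose_spec.1, Del_kill M k hg, map_zero, map_zero]
  · rw [ht, (exists_ext M (Del M k)).choose_spec.1, Del_C]
    split_ifs with hk
    · rw [ht]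
    · rw [map_zero, map_zero]

theorem independent (Δ : ℕ → Derivation Fp (FF M) (FF M))
    (hΔ : ∀ k, ∀ n : Fin M, Δ k (tF M (Sum.inr (n, TT.C))) =
      if h : k ≤ n.val then tF M (Sum.inr (⟨n.val - k, by omega⟩, TT.B 1)) else 0)
    (c : Fin M → FF M) (h : ∀ x, ∑ k : Fin M, c k * Δ k x = 0) : c = 0 := by
  have key : ∀ m : ℕ, ∀ hm : m < M, c ⟨m, hm⟩ = 0 := by
    intro m
    induction m using Nat.strong_induction_on with
    | _ m ih =>
      intro hm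
      have h1 := h (tF M (Sum.inr (⟨m, hm⟩, TT.C)))
      rw [Finset.sum_eq_single (⟨m, hm⟩ : Fin M)] at h1
      · rw [hΔ, dif_pos le_rfl] at h1
        rcases mul_eq_zero.mp h1 with h2 | h2
        · exact h2
        · exfalso
          rw [tF, FaithfulSMul.algebraMap_eq_zero_iff] at h2
          exact X_ne_zero _ h2
      · intro k _ hk
        rcases lt_or_gt_of_ne (fun h' => hk (Fin.ext h') : (k : ℕ) ≠ m) with hlt | hgt
        · have := ih k hlt k.2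
          rw [Fin.eta] at this
          rw [this, zero_mul]
        · rw [hΔ, dif_neg (by simpa using hgt), mul_zero]
      · intro hn; exact absurd (Finset.mem_univ _) hn
  funext k
  exact key k k.2

end Pool.Agent.H11.BAB
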