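import Pool.Graph.R_seed8.H187R3.TaskF
import Pool.Agent.H11.BAB.Alg

/-!
Task F. Localizations `A` of a polynomial ring `B = F_p[X_v : v ∈ V]`, `V` finite, inside their
fraction field `L`. The hypothesis `hloc` says that `A` is a localization of `B` (via `φ`).
-/

open MvPolynomial

namespace Pool.Agent.H11.BAB

open Pool.Agent.H187R3 (diffLattice isLocalization_range)

variable [Pr]

variable {V : Type} [Fintype V] {A L : Type} [CommRing A] [Field L] [Algebra A L]
  [IsFractionRing A L]

theorem isNoetherianRing_of_loc (φ : MvPolynomial V Fp →+* A)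
    (hloc : ∀ a : A, ∃ b s, IsUnit (φ s) ∧ a * φ s = φ b) : IsNoetherianRing A := by
  have h1 : IsNoetherianRing φ.range :=
    isNoetherianRing_of_surjective _ _ φ.rangeRestrict φ.rangeRestrict_surjective
  have h2 := isLocalization_range φ hloc
  exact IsLocalization.isNoetherianRing
    ((IsUnit.submonoid A).comap (φ.range.subtype : φ.range →* A)) A h1

theorem isIntegrallyClosed_of_loc (φ : MvPolynomial V Fp →+* A) (hφ : Function.Injective φ)
    (hloc : ∀ a : A, ∃ b s, IsUnit (φ s) ∧ a * φ s = φ b) : IsIntegrallyClosed A := by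
  let := φ.toAlgebra
  have hA : Nontrivial A := by
    refine ⟨φ 0, φ 1, fun h => ?_⟩
    exact zero_ne_one (hφ h)
  have hM : IsLocalization ((IsUnit.submonoid A).comap (φ : MvPolynomial V Fp →* A)) A := by
    refine ⟨fun y => y.2, fun a => ?_, fun {x y} h => ?_⟩
    · obtain ⟨b, s, hs, h⟩ := hloc a
      exact ⟨⟨b, ⟨s, hs⟩⟩, h⟩
    · exact ⟨1, by rw [hφ h]⟩
  refine isIntegrallyClosed_of_isLocalization A ((IsUnit.submonoid A).comap
    (φ : MvPolynomial V Fp →* A)) ?_
  intro s hs
  rw [mem_nonZeroDivisors_iff_ne_zero]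
  rintro rfl
  have h1 : IsUnit (φ 0) := hs
  rw [map_zero] at h1
  exact not_isUnit_zero h1

theorem essFiniteType_of_loc (φ : MvPolynomial V Fp →+* A)
    (hloc : ∀ a : A, ∃ b s, IsUnit (φ s) ∧ a * φ s = φ b) : Algebra.EssFiniteType ℤ A := by
  have h2 := isLocalization_range φ hloc
  let f : MvPolynomial V ℤ →ₐ[ℤ] φ.range :=
    { φ.rangeRestrict.comp (MvPolynomial.map (Int.castRingHom Fp)) with
      commutes' := by
        intro r
        simp }
  have hf : Function.Surjective f := by
    apply φ.rangeRestrict_surjective.comp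
    exact MvPolynomial.map_surjective _ ZMod.intCast_surjective
  have h4 : Algebra.FiniteType ℤ φ.range := Algebra.FiniteType.of_surjective f hf
  have h5 := Algebra.EssFiniteType.of_isLocalization (R := φ.range) A
    ((IsUnit.submonoid A).comap (φ.range.subtype : φ.range →* A))
  exact Algebra.EssFiniteType.comp ℤ φ.range A

/-- The differentials over `ℤ` and over `Fp` agree. -/
noncomputable def kaehlerZ (B : Type) [CommRing B] [Algebra Fp B] :
    Ω[B⁄ℤ] ≃ₗ[B] Ω[B⁄Fp] := by
  let D' : Derivation Fp B (Ω[B⁄ℤ]) :=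
    { toFun := KaehlerDifferential.D ℤ B
      map_add' := map_add _
      map_smul' := by
        intro c x
        exact ZMod.map_smul (KaehlerDifferential.D ℤ B) c x
      map_one_eq_zero' := by simp
      leibniz' := by intro a b; exact Derivation.leibniz _ a b }
  refine LinearEquiv.ofLinear (KaehlerDifferential.map ℤ Fp B B)
    D'.liftKaehlerDifferential ?_ ?_
  · apply Derivation.liftKaehlerDifferential_unique
    ext x
    simp [D']
  · apply Derivation.liftKaehlerDifferential_unique
    ext x
    simp [D']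

lemma basis_general {V B L : Type} [CommRing B] [IsDomain B] [Algebra Fp B] [Field L]
    [Algebra B L] [IsFractionRing B L] (x : V → B) (c0 : Module.Basis V B (Ω[B⁄Fp]))
    (hc0 : ∀ v, c0 v = KaehlerDifferential.D Fp B (x v)) :
    ∃ c : Module.Basis V L (Ω[L⁄ℤ]), ∀ v, c v = KaehlerDifferential.D ℤ L (algebraMap B L (x v)) := by
  refine ⟨(c0.map (kaehlerZ B).symm).ofIsLocalizedModule L (nonZeroDivisors B)
    (KaehlerDifferential.map ℤ ℤ B L), fun v => ?_⟩
  rw [Module.Basis.ofIsLocalizedModule_apply, Module.Basis.map_apply, hc0]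
  have h1 : (kaehlerZ B).symm (KaehlerDifferential.D Fp B (x v)) =
      KaehlerDifferential.D ℤ B (x v) := by
    rw [LinearEquiv.symm_apply_eq]
    simp [kaehlerZ]
  rw [h1, KaehlerDifferential.map_D]

theorem exists_basis_of_loc (φ : MvPolynomial V Fp →+* A) (hφ : Function.Injective φ)
    (hloc : ∀ a : A, ∃ b s, IsUnit (φ s) ∧ a * φ s = φ b) :
    ∃ c : Module.Basis V L (Ω[L⁄ℤ]),
      (∀ v, c v = KaehlerDifferential.D ℤ L (algebraMap A L (φ (X v)))) ∧
      (Submodule.span A (Set.range c) : Submodule A (Ω[L⁄ℤ])) = diffLattice A L := by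
  let B := MvPolynomial V Fp
  letI : Algebra B L := ((algebraMap A L).comp φ).toAlgebra
  have hmap : ∀ b : B, algebraMap B L b = algebraMap A L (φ b) := fun b => rfl
  have hinjA : Function.Injective (algebraMap A L) := IsFractionRing.injective A L
  have hnt : Nontrivial A := ⟨φ 0, φ 1, fun h => zero_ne_one (hφ h)⟩
  have hinj : Function.Injective (algebraMap B L) := hinjA.comp hφ
  have hfrac : IsFractionRing B L := by
    refine ⟨fun y => ?_, fun z => ?_, fun {x y} h => ⟨1, by rw [hinj h]⟩⟩
    · rw [isUnit_iff_ne_zero]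
      intro h
      have h1 : (y : B) = 0 := hinj (by rw [h, map_zero])
      exact nonZeroDivisors.coe_ne_zero y h1
    · obtain ⟨⟨a, a'⟩, h⟩ := IsLocalization.surj (nonZeroDivisors A) z
      obtain ⟨b, s, hs, h1⟩ := hloc a
      obtain ⟨b', s', hs', h2⟩ := hloc a'
      have ha' : (a' : A) ≠ 0 := nonZeroDivisors.ne_zero a'.2
      have hb' : b' ≠ 0 := by
        rintro rfl
        rw [map_zero] at h2
        exact ha' (hs'.mul_left_eq_zero.mp h2)
      have hs0 : s ≠ 0 := by
        rintro rfl
        rw [map_zero] at hs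
        exact hs.ne_zero rfl
      refine ⟨⟨b * s', ⟨b' * s, mem_nonZeroDivisors_of_ne_zero (mul_ne_zero hb' hs0)⟩⟩, ?_⟩
      show z * algebraMap B L (b' * s) = algebraMap B L (b * s')
      simp only [hmap, map_mul] at *
      rw [← h1, ← h2]
      simp only [map_mul]
      linear_combination (algebraMap A L (φ s') * algebraMap A L (φ s)) * h
  obtain ⟨c, hc⟩ := basis_general (B := B) (L := L) (fun v : V => (X v : B))
    (KaehlerDifferential.mvPolynomialBasis Fp V)
    (fun v => KaehlerDifferential.mvPolynomialBasis_apply Fp V v)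
  refine ⟨c, fun v => hc v, le_antisymm ?_ ?_⟩
  · rw [Submodule.span_le]
    rintro _ ⟨v, rfl⟩
    rw [hc v]
    exact Submodule.subset_span ⟨φ (X v), rfl⟩
  · have hB : ∀ b : B, KaehlerDifferential.D ℤ L (algebraMap A L (φ b)) ∈
        (Submodule.span A (Set.range c) : Submodule A (Ω[L⁄ℤ])) := by
      intro b
      induction b using MvPolynomial.induction_on with
      | C a =>
        have h2 : (C a : B) = ((a.val : ℕ) : B) := by
          conv_lhs => rw [← ZMod.natCast_zmod_val a]
          exact map_natCast C _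
        rw [h2, map_natCast, map_natCast, Derivation.map_natCast]
        exact Submodule.zero_mem _
      | add p q hp hq =>
        rw [map_add, map_add, map_add]
        exact Submodule.add_mem _ hp hq
      | mul_X p v hp =>
        rw [map_mul, map_mul, Derivation.leibniz, algebraMap_smul, algebraMap_smul]
        refine Submodule.add_mem _ (Submodule.smul_mem _ _ ?_) (Submodule.smul_mem _ _ hp)
        exact Submodule.subset_span ⟨v, hc v⟩
    unfold diffLattice
    rw [Submodule.span_le]
    rintro _ ⟨a, rfl⟩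
    obtain ⟨b, s, hs, h⟩ := hloc a
    have h1 : algebraMap A L a * algebraMap A L (φ s) = algebraMap A L (φ b) := by
      rw [← map_mul, h]
    have h2 := congrArg (KaehlerDifferential.D ℤ L) h1
    rw [Derivation.leibniz, algebraMap_smul, algebraMap_smul] at h2
    have h3 : φ s • KaehlerDifferential.D ℤ L (algebraMap A L a) ∈
        (Submodule.span A (Set.range c) : Submodule A (Ω[L⁄ℤ])) := by
      have h4 := (Submodule.span A (Set.range c)).sub_mem (hB b)
        ((Submodule.span A (Set.range c)).smul_mem a (hB s))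
      rw [← h2, add_sub_cancel_left] at h4
      exact h4
    obtain ⟨u, hu⟩ := hs
    have h5 := (Submodule.span A (Set.range c)).smul_mem ((u⁻¹ : Aˣ) : A) h3
    rw [← hu, smul_smul, Units.inv_mul, one_smul] at h5
    exact h5

end Pool.Agent.H11.BAB
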