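import Pool.Agent.H11.BAB.TaskD1
import Pool.Agent.H11.BAB.Loc

/-!
Task D. `SR M` is a finitely generated algebra over its degree zero part `AA M 0`, and
`AA M 0` is essentially of finite type.
-/

open AlgebraicGeometry CategoryTheory MvPolynomial

namespace Pool.Agent.H11.BAB

/-- abstract finiteness statement -/
lemma finiteType_abs {k S F J Y : Type} [CommRing k] [IsNoetherianRing k] [CommRing S] [CommRing F]
    [Algebra k S] [Fintype J] [Finite Y] (e : ℕ) (he : 0 < e) (ι : S →+* F)
    (hι : Function.Injective ι) (y : Y → S) (t : J → F)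
    (ht : ∀ j, ∃ a : k, ι (algebraMap k S a) = t j ^ e)
    (hS : ∀ s : S, ∃ c : k, ∃ g ∈ Subring.closure (Set.range (fun l => ι (y l)) ∪ Set.range t),
      ι s = ι (algebraMap k S c) * g) : Algebra.FiniteType k S := by
  classical
  let P := MvPolynomial Y k
  let α : P →ₐ[k] S := aeval y
  let β : P →+* F := ι.comp α.toRingHom
  let a1 : Algebra P S := α.toRingHom.toAlgebra
  let a2 : Algebra P F := β.toAlgebra
  have hb : ∀ (a : P) (x : F), a • x = β a * x := fun a x => rfl
  have hβX : ∀ l, β (X l) = ι (y l) := by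
    intro l
    have h1 : α (X l) = y l := MvPolynomial.aeval_X y l
    show ι (α (X l)) = _
    rw [h1]
  have hβC : ∀ c : k, β (C c) = ι (algebraMap k S c) := by
    intro c
    have h1 : α (C c) = algebraMap k S c := MvPolynomial.aeval_C y c
    show ι (α (C c)) = _
    rw [h1]
  let mon : (J → Fin e) → F := fun S => ∏ j, t j ^ (S j : ℕ)
  let T : Submodule P F := Submodule.span P (Set.range mon)
  have hTfg : T.FG := ⟨Finset.univ.image mon, by simp [T]⟩
  have hmem : ∀ S, mon S ∈ T := fun S => Submodule.subset_span ⟨S, rfl⟩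
  have hYmul : ∀ l : Y, ∀ x ∈ T, x * ι (y l) ∈ T := by
    intro l x hx
    have h1 := T.smul_mem (X l) hx
    rw [hb, hβX, mul_comm] at h1
    exact h1
  have hsplit : ∀ (S : J → Fin e) (j : J), mon S = t j ^ (S j : ℕ) *
      ∏ i ∈ Finset.univ.erase j, t i ^ (S i : ℕ) := fun S j =>
    (Finset.mul_prod_erase Finset.univ (fun i => t i ^ (S i : ℕ)) (Finset.mem_univ j)).symm
  have hupd : ∀ (S : J → Fin e) (j : J) (a : Fin e), mon (Function.update S j a) = t j ^ (a : ℕ) *
      ∏ i ∈ Finset.univ.erase j, t i ^ (S i : ℕ) := by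
    intro S j a
    rw [hsplit, Function.update_self]
    congr 1
    refine Finset.prod_congr rfl fun i hi => ?_
    rw [Function.update_of_ne (Finset.ne_of_mem_erase hi)]
  have hTmul : ∀ j : J, ∀ x ∈ T, x * t j ∈ T := by
    intro j x hx
    induction hx using Submodule.span_induction with
    | mem x h =>
      obtain ⟨S, rfl⟩ := h
      by_cases hj : (S j : ℕ) + 1 < e
      · have h1 : mon S * t j = mon (Function.update S j ⟨(S j : ℕ) + 1, hj⟩) := by
          rw [hupd, hsplit S j, pow_succ]
          ring
        rw [h1]; exact hmem _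
      · have hj' : (S j : ℕ) + 1 = e := by have := (S j).2; omega
        have h1 : mon S * t j = t j ^ e * mon (Function.update S j ⟨0, he⟩) := by
          have e1 : t j ^ e = t j ^ (S j : ℕ) * t j := by rw [← pow_succ, hj']
          rw [hupd, hsplit S j, pow_zero, one_mul, e1]
          ring
        obtain ⟨a, ha⟩ := ht j
        rw [h1, ← ha, ← hβC, ← hb]
        exact T.smul_mem _ (hmem _)
    | zero => rw [zero_mul]; exact T.zero_mem
    | add x y _ _ hx hy => rw [add_mul]; exact T.add_mem hx hy
    | smul a x _ hx => rw [smul_mul_assoc]; exact T.smul_mem a hx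
  have hcl : ∀ g ∈ Subring.closure (Set.range (fun l => ι (y l)) ∪ Set.range t),
      ∀ x ∈ T, x * g ∈ T := by
    intro g hg
    induction hg using Subring.closure_induction with
    | mem g h =>
      rcases h with ⟨l, rfl⟩ | ⟨j, rfl⟩
      · exact hYmul l
      · exact hTmul j
    | zero => intro x _; rw [mul_zero]; exact T.zero_mem
    | one => intro x hx; rwa [mul_one]
    | add a b _ _ ha hb => intro x hx; rw [mul_add]; exact T.add_mem (ha x hx) (hb x hx)
    | neg a _ ha => intro x hx; rw [mul_neg]; exact T.neg_mem (ha x hx)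
    | mul a b _ _ ha hb => intro x hx; rw [← mul_assoc]; exact hb _ (ha x hx)
  have h1T : (1 : F) ∈ T := by
    have := hmem (fun _ => ⟨0, he⟩)
    simpa [mon] using this
  have hST : ∀ s : S, ι s ∈ T := by
    intro s
    obtain ⟨c, g, hg, h⟩ := hS s
    rw [h, ← hβC, ← hb]
    have := hcl g hg 1 h1T
    rw [one_mul] at this
    exact T.smul_mem _ this
  let ι' : S →ₗ[P] T :=
    { toFun := fun s => ⟨ι s, hST s⟩
      map_add' := fun a b => Subtype.ext (map_add ι a b)
      map_smul' := fun a b => Subtype.ext (map_mul ι (α a) b) }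
  have hι' : Function.Injective ι' := by
    intro a b hab
    exact hι (congrArg (fun x : T => (x : F)) hab)
  have : IsNoetherian P T := isNoetherian_of_fg_of_noetherian T hTfg
  have hfin : Module.Finite P S := Module.Finite.of_injective ι' hι'
  have hft : Algebra.FiniteType P S := inferInstance
  have hst : IsScalarTower k P S := by
    refine IsScalarTower.of_algebraMap_eq (fun x => ?_)
    show algebraMap k S x = α (algebraMap k P x)
    rw [AlgHom.commutes]
  exact Algebra.FiniteType.trans (S := P) inferInstance hft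

variable [Pr]

variable (M : ℕ)

lemma coe0_mul (a b : AA M 0) : (((a * b : AA M 0) : SR M) : FF M) =
    ((a : SR M) : FF M) * ((b : SR M) : FF M) := rfl

lemma coe0_one : (((1 : AA M 0) : SR M) : FF M) = 1 := rfl

lemma dn_X (j : J M) : dn M (X j) = tF M j := by
  rw [dn_apply, i0, rename_X]; rfl

lemma mem_closure_PP (g : PP M) : algebraMap (PP M) (FF M) g ∈
    Subring.closure (Set.range (fun l => (SR M).subtype (ys M l)) ∪ Set.range (tF M)) := by
  induction g using MvPolynomial.induction_on with
  | C a =>
    have h2 : (C a : PP M) = ((a.val : ℕ) : PP M) := by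
      conv_lhs => rw [← ZMod.natCast_zmod_val a]
      exact map_natCast C _
    rw [h2, map_natCast]
    exact natCast_mem _ _
  | add p q hp hq => rw [map_add]; exact Subring.add_mem _ hp hq
  | mul_X p v hp =>
    rw [map_mul]
    refine Subring.mul_mem _ hp (Subring.subset_closure ?_)
    rcases v with j | l
    · exact Or.inr ⟨j, rfl⟩
    · exact Or.inl ⟨l, rfl⟩

theorem finiteType_SR : Algebra.FiniteType (AA M 0) (SR M) := by
  have hfld := isField_AA0 M
  have h1 := hfld.isPrincipalIdealRing
  have h2 : IsNoetherianRing (AA M 0) := PrincipalIdealRing.isNoetherianRing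
  refine finiteType_abs Pr.p p_pos (SR M).subtype Subtype.val_injective (ys M) (tF M) (fun j => ?_)
    (fun s => ?_)
  · refine ⟨frHom M (X j), ?_⟩
    have h3 : (((frHom M (X j) : AA M 0) : SR M) : FF M) = tF M j ^ Pr.p := by
      rw [frHom_coe, dn_X]
    exact h3
  · obtain ⟨n, hn, g, hD, h⟩ := s.2
    have hs0 : frHom M n ≠ 0 := by
      intro h0
      exact hn (frHom_injective M (by rw [h0, map_zero]))
    obtain ⟨c, hc⟩ := hfld.mul_inv_cancel hs0
    refine ⟨c, _, mem_closure_PP M g, ?_⟩
    have h1 : (((c : AA M 0) : SR M) : FF M) * dn M n ^ Pr.p = 1 := by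
      rw [← frHom_coe, ← coe0_mul, mul_comm, hc, coe0_one]
    show (s : FF M) = (((c : AA M 0) : SR M) : FF M) * _
    rw [← h, mul_comm (s : FF M), ← mul_assoc, h1, one_mul]

lemma mem_closure_P0 (g : P0 M) : dn M g ∈
    Subring.closure (Set.range (fun _ : Empty => (0 : FF M)) ∪ Set.range (tF M)) := by
  induction g using MvPolynomial.induction_on with
  | C a =>
    have h2 : (C a : P0 M) = ((a.val : ℕ) : P0 M) := by
      conv_lhs => rw [← ZMod.natCast_zmod_val a]
      exact map_natCast C _
    rw [h2, map_natCast]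
    exact natCast_mem _ _
  | add p q hp hq => rw [map_add]; exact Subring.add_mem _ hp hq
  | mul_X p v hp =>
    rw [map_mul]
    refine Subring.mul_mem _ hp (Subring.subset_closure ?_)
    exact Or.inr ⟨v, (dn_X M v).symm⟩

/-- the inclusion of the degree zero part in the field -/
noncomputable def inc0 : AA M 0 →+* FF M where
  toFun a := ((a : SR M) : FF M)
  map_one' := rfl
  map_mul' _ _ := rfl
  map_zero' := rfl
  map_add' _ _ := rfl

lemma inc0_injective : Function.Injective (inc0 M) := by
  intro a b h
  exact Subtype.ext (Subtype.ext h)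

lemma ess_aux (Q : Type) [Field Q] [Algebra (P0 M) Q] [IsFractionRing (P0 M) Q] :
    Algebra.EssFiniteType ℤ (AA M 0) := by
  have hfld := isField_AA0 M
  have hunit : ∀ y : nonZeroDivisors (P0 M), IsUnit (frHom M y) := by
    intro y
    have hs0 : frHom M y ≠ 0 := by
      intro h0
      exact nonZeroDivisors.coe_ne_zero y (frHom_injective M (by rw [h0, map_zero]))
    obtain ⟨c, hc⟩ := hfld.mul_inv_cancel hs0
    exact IsUnit.of_mul_eq_one c hc
  let lam : Q →+* AA M 0 := IsLocalization.lift (M := nonZeroDivisors (P0 M)) hunit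
  let _ : Algebra Q (AA M 0) := lam.toAlgebra
  have hlam : ∀ f : P0 M, lam (algebraMap (P0 M) Q f) = frHom M f := fun f =>
    IsLocalization.lift_eq hunit f
  have hft : Algebra.FiniteType Q (AA M 0) := by
    refine finiteType_abs (Y := Empty) Pr.p p_pos (inc0 M) (inc0_injective M) (fun l => 0) (tF M)
      (fun j => ?_) (fun s => ?_)
    · refine ⟨algebraMap (P0 M) Q (X j), ?_⟩
      show inc0 M (lam (algebraMap (P0 M) Q (X j))) = _
      rw [hlam]
      show (((frHom M (X j) : AA M 0) : SR M) : FF M) = tF M j ^ Pr.p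
      rw [frHom_coe, dn_X]
    · obtain ⟨f, n, hn, -, h⟩ := exists_of_mem_AA0 M s
      refine ⟨IsLocalization.mk' Q 1 ⟨n, mem_nonZeroDivisors_of_ne_zero hn⟩, dn M f, ?_, ?_⟩
      · have := mem_closure_P0 M f
        simpa using this
      · show inc0 M s = inc0 M (lam _) * dn M f
        have h1 : lam (IsLocalization.mk' Q 1 ⟨n, mem_nonZeroDivisors_of_ne_zero hn⟩) *
            frHom M n = 1 := by
          rw [← hlam, ← map_mul]
          have := IsLocalization.mk'_spec Q (1 : P0 M)
            (⟨n, mem_nonZeroDivisors_of_ne_zero hn⟩ : nonZeroDivisors (P0 M))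
          rw [this, map_one, map_one]
        have h2 := congrArg (inc0 M) h1
        rw [map_mul, map_one] at h2
        have h3 : inc0 M (frHom M n) = dn M n ^ Pr.p := frHom_coe M n
        rw [h3] at h2
        have h4 : inc0 M s = dn M f / dn M n ^ Pr.p := h
        rw [h4, div_eq_mul_inv, mul_comm, ← eq_inv_of_mul_eq_one_left h2]
  have hQ : Algebra.EssFiniteType ℤ Q := by
    refine essFiniteType_of_loc (V := J M) (algebraMap (P0 M) Q) (fun a => ?_)
    obtain ⟨⟨b, s⟩, h⟩ := IsLocalization.surj (nonZeroDivisors (P0 M)) a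
    exact ⟨b, s, IsLocalization.map_units Q s, h⟩
  have htow := IsScalarTower.of_algebraMap_eq (R := ℤ) (S := Q) (A := AA M 0) (fun n =>
    RingHom.congr_fun (RingHom.ext_int (algebraMap ℤ (AA M 0)) (lam.comp (algebraMap ℤ Q))) n)
  exact Algebra.EssFiniteType.comp ℤ Q (AA M 0)

theorem essFiniteType_AA0 : Algebra.EssFiniteType ℤ (AA M 0) :=
  ess_aux M (FractionRing (P0 M))

end Pool.Agent.H11.BAB
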