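import Pool.Agent.H11.BAB.Klt
import Pool.Agent.H11.BAB.TaskD

/-!
Dimension (transcendence degree) of `X_M`.
-/

open AlgebraicGeometry CategoryTheory Order

namespace Pool.Agent.H11.BAB

open Pool.Agent.H187R3

variable [Pr]

variable (M : ℕ)

lemma isAlgebraic_tau_aux [Algebra Fp (XM M).functionField] (x : XM M)
    (hx : x ∈ Proj.basicOpen (AA M) (ys M 0)) :
    Algebra.IsAlgebraic (Algebra.adjoin Fp (Set.range (tau M 0))) (XM M).functionField := by
  obtain ⟨φ, hinj, hv, hloc⟩ := exists_phi M 0 x hx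
  set A0 := Algebra.adjoin Fp (Set.range (tau M 0)) with hA0
  let al : (XM M).presheaf.stalk x →+* (XM M).functionField := algebraMap _ _
  have hal : ∀ b : BB M, al (φ b) ∈ A0 := by
    intro b
    induction b using MvPolynomial.induction_on with
    | C a =>
      have : al (φ (MvPolynomial.C a)) = algebraMap Fp (XM M).functionField a := by
        have h := RingHom.ext_zmod ((al.comp φ).comp MvPolynomial.C)
          (algebraMap Fp (XM M).functionField)
        exact congrArg (fun g => g a) h
      rw [this]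
      exact Subalgebra.algebraMap_mem _ _
    | add p q hp hq => rw [map_add, map_add]; exact Subalgebra.add_mem _ hp hq
    | mul_X p v hp =>
      rw [map_mul, map_mul]
      refine Subalgebra.mul_mem _ hp ?_
      rw [hv v]
      exact Algebra.subset_adjoin ⟨v, rfl⟩
  have halg : ∀ b : BB M, IsAlgebraic A0 (al (φ b)) := fun b =>
    isAlgebraic_algebraMap (⟨_, hal b⟩ : A0)
  have hst : ∀ z, IsAlgebraic A0 (al z) := by
    intro z
    obtain ⟨b, s, hs, h⟩ := hloc z
    have hs' : al (φ s) ≠ 0 := (hs.map al).ne_zero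
    have : al z = al (φ b) * (al (φ s))⁻¹ := by
      rw [← h, map_mul]; field_simp
    rw [this]
    exact (halg b).mul (halg s).inv
  constructor
  intro a
  obtain ⟨z, y, hy, rfl⟩ := IsFractionRing.div_surjective
      (A := (XM M).presheaf.stalk x) (K := (XM M).functionField) a
  rw [div_eq_mul_inv]
  exact (hst z).mul (hst y).inv

lemma trdeg_KX [Algebra Fp (XM M).functionField] :
    Algebra.trdeg Fp (XM M).functionField = Fintype.card (VV M) := by
  have h1 := isAlgebraic_tau_aux M (genericPoint (XM M)) (generic_mem M 0)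
  let κ' : (XM M).functionField →ₐ[Fp] FF M :=
    { kap M with
      commutes' := fun a => by
        have h := RingHom.ext_zmod ((kap M).comp (algebraMap Fp (XM M).functionField))
          (algebraMap Fp (FF M))
        exact congrArg (fun g => g a) h }
  have h2 : AlgebraicIndependent Fp (tau M 0) := by
    apply AlgebraicIndependent.of_comp κ'
    have : (κ' ∘ tau M 0) = coord M 0 := by
      funext v; exact kap_tau M 0 v
    rw [this]
    exact coord_algebraicIndependent M 0
  have h3 : IsTranscendenceBasis Fp (tau M 0) :=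
    isTranscendenceBasis_iff_algebraicIndependent_isAlgebraic.mpr ⟨h2, h1⟩
  rw [← h3.cardinalMk_eq_trdeg]
  simp

theorem trdeg_XM : @Algebra.trdeg Γ(XM M, ⊤) (XM M).functionField _ _ (globalAlgebra (XM M)) =
    ((Pr.d : ℕ) : Cardinal) := by
  let _ := globalAlgebra (XM M)
  obtain ⟨e, he⟩ := exists_globalIso M
  let g : P0 M →+* Γ(XM M, ⊤) := e.toRingHom.comp (frHom M)
  let algP : Algebra (P0 M) Γ(XM M, ⊤) := g.toAlgebra
  let algF : Algebra Fp Γ(XM M, ⊤) := (g.comp (algebraMap Fp (P0 M))).toAlgebra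
  let algK : Algebra Fp (XM M).functionField :=
    ((algebraMap Γ(XM M, ⊤) (XM M).functionField).comp (algebraMap Fp Γ(XM M, ⊤))).toAlgebra
  have ht1 : IsScalarTower Fp (P0 M) Γ(XM M, ⊤) := IsScalarTower.of_algebraMap_eq' rfl
  have ht2 : IsScalarTower Fp Γ(XM M, ⊤) (XM M).functionField := IsScalarTower.of_algebraMap_eq' rfl
  have hinj : Function.Injective (algebraMap Γ(XM M, ⊤) (XM M).functionField) :=
    germ_injective_of_isIntegral (XM M) (U := ⊤) (genericPoint (XM M)) trivial
  have hdom : IsDomain Γ(XM M, ⊤) := hinj.isDomain _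
  have halg : Algebra.IsAlgebraic (P0 M) Γ(XM M, ⊤) := by
    let _ := (frHom M).toAlgebra
    have h1 : Algebra.IsAlgebraic (P0 M) (AA M 0) := isAlgebraic_AA0 M
    let e' : AA M 0 ≃ₐ[P0 M] Γ(XM M, ⊤) := { e with commutes' := fun a => rfl }
    exact e'.isAlgebraic
  have hginj : Function.Injective (algebraMap (P0 M) Γ(XM M, ⊤)) := by
    intro a b hab
    exact frHom_injective M (e.injective hab)
  have hfaith : FaithfulSMul (P0 M) Γ(XM M, ⊤) := (faithfulSMul_iff_algebraMap_injective _ _).mpr hginj
  have htr : Algebra.trdeg Fp Γ(XM M, ⊤) = Fintype.card (J M) := by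
    have h1 : IsTranscendenceBasis Fp (algebraMap (P0 M) Γ(XM M, ⊤) ∘ (MvPolynomial.X : J M → P0 M)) :=
      (IsTranscendenceBasis.mvPolynomial (J M) Fp).algebraMap_comp
    rw [← h1.cardinalMk_eq_trdeg]
    simp
  have hfaith2 : FaithfulSMul Γ(XM M, ⊤) (XM M).functionField :=
    (faithfulSMul_iff_algebraMap_injective _ _).mpr hinj
  have hfaith3 : FaithfulSMul Fp Γ(XM M, ⊤) := by
    rw [faithfulSMul_iff_algebraMap_injective]
    exact (algebraMap Fp Γ(XM M, ⊤)).injective
  have hadd := trdeg_add_eq Fp Γ(XM M, ⊤) (A := (XM M).functionField)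
  rw [htr, trdeg_KX] at hadd
  have h7 : Algebra.trdeg Γ(XM M, ⊤) (XM M).functionField + ((Fintype.card (J M) : ℕ) : Cardinal) =
      ((Pr.d : ℕ) : Cardinal) + ((Fintype.card (J M) : ℕ) : Cardinal) := by
    rw [add_comm, hadd]
    simp [add_comm]
  exact (Cardinal.add_right_inj_of_lt_aleph0 (Cardinal.natCast_lt_aleph0)).mp h7

end Pool.Agent.H11.BAB
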