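import Pool.Agent.H11.BAB.Chart

open MvPolynomial DirectSum

namespace Pool.Agent.H11.BAB

open Pool.Agent.H187R3

variable [Pr]

variable (M : ℕ)

/-- denominators: images of polynomials in the `t`-variables only -/
noncomputable def dn : P0 M →ₐ[Fp] FF M :=
  (IsScalarTower.toAlgHom Fp (PP M) (FF M)).comp (i0 M)

lemma dn_apply (n : P0 M) : dn M n = algebraMap (PP M) (FF M) (i0 M n) := rfl

lemma dn_injective : Function.Injective (dn M) :=
  (IsFractionRing.injective (PP M) (FF M)).comp (i0_injective M)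

lemma dn_ne {n : P0 M} (hn : n ≠ 0) : dn M n ≠ 0 := by
  intro h
  exact hn (dn_injective M (by rw [h, map_zero]))

/-- the homogeneous part of degree `d` of the graded ring, inside the big field -/
noncomputable def SF (d : ℕ) : AddSubgroup (FF M) where
  carrier := {f | ∃ n : P0 M, n ≠ 0 ∧ ∃ g ∈ HH M d, DD M g = 0 ∧
    f * dn M n ^ Pr.p = algebraMap (PP M) (FF M) g}
  zero_mem' := ⟨1, one_ne_zero, 0, Submodule.zero_mem _, map_zero _, by simp⟩
  add_mem' := by
    rintro a b ⟨n, hn, g, hg, hD, h⟩ ⟨n', hn', g', hg', hD', h'⟩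
    refine ⟨n * n', mul_ne_zero hn hn', g * i0 M n' ^ Pr.p + g' * i0 M n ^ Pr.p, ?_, ?_, ?_⟩
    · have e1 : i0 M n' ^ Pr.p ∈ HH M 0 := by rw [← map_pow]; exact i0_mem M _
      have e2 : i0 M n ^ Pr.p ∈ HH M 0 := by rw [← map_pow]; exact i0_mem M _
      exact Submodule.add_mem _ (HH_mul M hg e1) (HH_mul M hg' e2)
    · simp only [map_add, Derivation.leibniz, hD, hD', DD_pp, smul_zero, add_zero]
    · simp only [map_add, map_mul, map_pow, ← h, ← h', ← dn_apply]
      ring
  neg_mem' := by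
    rintro a ⟨n, hn, g, hg, hD, h⟩
    exact ⟨n, hn, -g, Submodule.neg_mem _ hg, by simp [hD], by simp [h]⟩

/-- the graded ring -/
noncomputable def SR : Subring (FF M) where
  carrier := {f | ∃ n : P0 M, n ≠ 0 ∧ ∃ g : PP M, DD M g = 0 ∧
    f * dn M n ^ Pr.p = algebraMap (PP M) (FF M) g}
  zero_mem' := ⟨1, one_ne_zero, 0, map_zero _, by simp⟩
  one_mem' := ⟨1, one_ne_zero, 1, by simp, by simp⟩
  add_mem' := by
    rintro a b ⟨n, hn, g, hD, h⟩ ⟨n', hn', g', hD', h'⟩
    refine ⟨n * n', mul_ne_zero hn hn', g * i0 M n' ^ Pr.p + g' * i0 M n ^ Pr.p, ?_, ?_⟩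
    · simp only [map_add, Derivation.leibniz, hD, hD', DD_pp, smul_zero, add_zero]
    · simp only [map_add, map_mul, map_pow, ← h, ← h', ← dn_apply]
      ring
  mul_mem' := by
    rintro a b ⟨n, hn, g, hD, h⟩ ⟨n', hn', g', hD', h'⟩
    refine ⟨n * n', mul_ne_zero hn hn', g * g', ?_, ?_⟩
    · simp only [Derivation.leibniz, hD, hD', smul_zero, add_zero]
    · simp only [map_mul, ← h, ← h']
      ring
  neg_mem' := by
    rintro a ⟨n, hn, g, hD, h⟩
    exact ⟨n, hn, -g, by simp [hD], by simp [h]⟩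

lemma SF_le (d : ℕ) {f : FF M} (hf : f ∈ SF M d) : f ∈ SR M := by
  obtain ⟨n, hn, g, _, hD, h⟩ := hf
  exact ⟨n, hn, g, hD, h⟩

lemma SF_mul {a b : ℕ} {x y : FF M} (hx : x ∈ SF M a) (hy : y ∈ SF M b) : x * y ∈ SF M (a + b) := by
  obtain ⟨n, hn, g, hg, hD, h⟩ := hx
  obtain ⟨n', hn', g', hg', hD', h'⟩ := hy
  refine ⟨n * n', mul_ne_zero hn hn', g * g', HH_mul M hg hg', ?_, ?_⟩
  · simp only [Derivation.leibniz, hD, hD', smul_zero, add_zero]
  · simp only [map_mul, ← h, ← h']
    ring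

lemma SF_one : (1 : FF M) ∈ SF M 0 :=
  ⟨1, one_ne_zero, 1, by
    rw [mem_weightedHomogeneousSubmodule]; exact isWeightedHomogeneous_one _ _, by simp, by simp⟩

/-- the grading -/
noncomputable def AA (d : ℕ) : AddSubgroup (SR M) := (SF M d).comap (SR M).subtype.toAddMonoidHom

lemma mem_AA {d : ℕ} {s : SR M} : s ∈ AA M d ↔ (s : FF M) ∈ SF M d := Iff.rfl

instance : SetLike.GradedMonoid (AA M) where
  one_mem := SF_one M
  mul_mem _ _ _ _ hx hy := SF_mul M hx hy

lemma common_den (y : ⨁ d, AA M d) (s : Finset ℕ) : ∃ n : P0 M, n ≠ 0 ∧ ∀ d ∈ s,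
    ∃ g ∈ HH M d, ((y d : SR M) : FF M) * dn M n ^ Pr.p = algebraMap (PP M) (FF M) g := by
  classical
  induction s using Finset.induction_on with
  | empty => exact ⟨1, one_ne_zero, by simp⟩
  | insert a s has ih =>
    obtain ⟨n, hn, h⟩ := ih
    obtain ⟨n', hn', g', hg', -, h'⟩ := (mem_AA M).mp (y a).2
    refine ⟨n * n', mul_ne_zero hn hn', fun d hd => ?_⟩
    rcases Finset.mem_insert.mp hd with rfl | hd
    · refine ⟨g' * i0 M n ^ Pr.p, ?_, ?_⟩
      · have e2 : i0 M n ^ Pr.p ∈ HH M 0 := by rw [← map_pow]; exact i0_mem M _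
        exact HH_mul M hg' e2
      · simp only [map_mul, map_pow, ← h', ← dn_apply]; ring
    · obtain ⟨g, hg, hh⟩ := h d hd
      refine ⟨g * i0 M n' ^ Pr.p, ?_, ?_⟩
      · have e2 : i0 M n' ^ Pr.p ∈ HH M 0 := by rw [← map_pow]; exact i0_mem M _
        exact HH_mul M hg e2
      · simp only [map_mul, map_pow, ← hh, ← dn_apply]; ring

/-- homogeneous components -/
noncomputable abbrev wc (d : ℕ) : PP M →ₗ[Fp] PP M := weightedHomogeneousComponent (wt M) d

lemma wc_mem (d : ℕ) (g : PP M) : wc M d g ∈ HH M d := weightedHomogeneousComponent_mem _ _ _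

lemma wc_of_mem {m n : ℕ} {g : PP M} (hg : g ∈ HH M n) : wc M m g = if m = n then g else 0 :=
  weightedHomogeneousComponent_of_mem hg

lemma exists_wc_sum (g : PP M) : ∃ s : Finset ℕ, g = ∑ d ∈ s, wc M d g := by
  have h := sum_weightedHomogeneousComponent (wt M) g
  rw [finsum_eq_sum _ (weightedHomogeneousComponent_finsupp g)] at h
  exact ⟨_, h.symm⟩

lemma DD_wc {g : PP M} (hg : DD M g = 0) (d : ℕ) : DD M (wc M d g) = 0 := by
  obtain ⟨s, hs⟩ := exists_wc_sum M g
  have h1 : wc M (d + 1) (DD M g) = 0 := by rw [hg, map_zero]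
  rw [hs, map_sum, map_sum] at h1
  by_cases hd : d ∈ s
  · rw [Finset.sum_eq_single_of_mem d hd] at h1
    · rw [wc_of_mem M (DD_mem M (wc_mem M d g)), if_pos rfl] at h1
      exact h1
    · intro b _ hb
      rw [wc_of_mem M (DD_mem M (wc_mem M b g)), if_neg (by omega)]
  · have : wc M d g = 0 := by
      have h2 := congrArg (wc M d) hs
      rw [map_sum] at h2
      rw [h2]
      refine Finset.sum_eq_zero fun b hb => ?_
      rw [wc_of_mem M (wc_mem M b g), if_neg]
      rintro rfl; exact hd hb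
    rw [this, map_zero]

lemma isInternal_AA : DirectSum.IsInternal (AA M) := by
  classical
  constructor
  · rw [injective_iff_map_eq_zero]
    intro y hy
    obtain ⟨n, hn, h⟩ := common_den M y (DFinsupp.support y)
    ext d
    by_cases hd : d ∈ DFinsupp.support y
    · have hsum : ∑ b ∈ DFinsupp.support y, ((y b : SR M) : FF M) * dn M n ^ Pr.p = 0 := by
        rw [← Finset.sum_mul]
        have : ∑ b ∈ DFinsupp.support y, ((y b : SR M) : FF M) = 0 := by
          have h1 := congrArg (SR M).subtype hy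
          rw [DirectSum.coeAddMonoidHom_eq_dfinsuppSum, DFinsupp.sum, map_sum, map_zero] at h1
          exact h1
        rw [this, zero_mul]
      choose! g hg hgy using h
      rw [Finset.sum_congr rfl hgy, ← map_sum, FaithfulSMul.algebraMap_eq_zero_iff] at hsum
      have h2 := congrArg (wc M d) hsum
      rw [map_sum, map_zero, Finset.sum_eq_single_of_mem d hd] at h2
      · rw [wc_of_mem M (hg d hd), if_pos rfl] at h2
        have h3 := hgy d hd
        rw [h2, map_zero] at h3
        have h4 := (mul_eq_zero.mp h3).resolve_right (pow_ne_zero Pr.p (dn_ne M hn))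
        simpa using h4
      · intro b hb hbd
        rw [wc_of_mem M (hg b hb), if_neg (Ne.symm hbd)]
    · have := DFinsupp.notMem_support_iff.mp hd
      rw [this]; rfl
  · intro s
    obtain ⟨n, hn, g, hD, h⟩ := s.2
    obtain ⟨t, ht⟩ := exists_wc_sum M g
    have hmem : ∀ d, algebraMap (PP M) (FF M) (wc M d g) / dn M n ^ Pr.p ∈ SF M d := fun d =>
      ⟨n, hn, wc M d g, wc_mem M d g, DD_wc M hD d,
        div_mul_cancel₀ _ (pow_ne_zero Pr.p (dn_ne M hn))⟩
    refine ⟨∑ d ∈ t, DirectSum.of (fun d => AA M d) d ⟨⟨_, SF_le M d (hmem d)⟩, hmem d⟩, ?_⟩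
    rw [map_sum]
    simp only [DirectSum.coeAddMonoidHom_of]
    apply Subtype.ext
    change (SR M).subtype _ = _
    rw [map_sum]
    change ∑ d ∈ t, algebraMap (PP M) (FF M) (wc M d g) / dn M n ^ Pr.p = _
    rw [← Finset.sum_div, ← map_sum, ← ht, ← h, mul_div_cancel_right₀]
    exact pow_ne_zero Pr.p (dn_ne M hn)

noncomputable instance : GradedRing (AA M) where
  __ := (isInternal_AA M).chooseDecomposition
  one_mem := SetLike.GradedOne.one_mem
  mul_mem := SetLike.GradedMul.mul_mem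

end Pool.Agent.H11.BAB
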