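import Pool.Agent.H11.BAB.Can

/-!
The log discrepancies over `X_M`.
-/

open AlgebraicGeometry CategoryTheory Order

namespace Pool.Agent.H11.BAB

open Pool.Agent.H187R3

variable [Pr]

lemma functionFieldMap_algebraMap {W X : Scheme.{0}} [IsIntegral W] [IsIntegral X] (f : W ⟶ X)
    [IsDominant f] (w : W) (a : X.presheaf.stalk (f w)) :
    functionFieldMap f (algebraMap _ X.functionField a) =
      algebraMap (W.presheaf.stalk w) W.functionField ((f.stalkMap w).hom a) := by
  have hw : genericPoint W ⤳ w := (genericPoint_spec W).specializes trivial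
  have h1 := Scheme.Hom.stalkSpecializes_stalkMap f (genericPoint W) w hw
  have h2 := TopCat.Presheaf.stalkSpecializes_comp (X := X) X.presheaf
    (specializes_of_isDominant f) ((genericPoint_spec X).specializes (y := f w) trivial)
  have h3 : X.presheaf.stalkSpecializes ((genericPoint_spec X).specializes (y := f w) trivial) ≫
      X.presheaf.stalkSpecializes (specializes_of_isDominant f) ≫ f.stalkMap (genericPoint W) =
      f.stalkMap w ≫ W.presheaf.stalkSpecializes hw := by
    rw [← Category.assoc, h2, ← h1]
  have h4 := congrArg (fun g => g.hom a) h3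
  exact h4


lemma repr_mem_range {R L Ω V : Type} [CommRing R] [Field L] [Algebra R L] [AddCommGroup Ω]
    [Module L Ω] [Module R Ω] [IsScalarTower R L Ω] (c : Module.Basis V L Ω)
    {x : Ω} (hx : x ∈ Submodule.span R (Set.range c)) (v : V) :
    c.repr x v ∈ (algebraMap R L).range := by
  induction hx using Submodule.span_induction with
  | mem x hx =>
    obtain ⟨v', rfl⟩ := hx
    classical
    rw [Module.Basis.repr_self, Finsupp.single_apply]
    split_ifs
    · exact one_mem _
    · exact zero_mem _
  | zero => simp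
  | add x y _ _ hx hy =>
    rw [map_add, Finsupp.add_apply]
    exact add_mem hx hy
  | smul a x _ hx =>
    rw [← algebraMap_smul L a x, map_smul, Finsupp.smul_apply, smul_eq_mul]
    exact mul_mem ⟨a, rfl⟩ hx

lemma det_mem_range {R L Ω V : Type} [CommRing R] [Field L] [Algebra R L] [AddCommGroup Ω]
    [Module L Ω] [Module R Ω] [IsScalarTower R L Ω] [Fintype V] [DecidableEq V]
    (c : Module.Basis V L Ω) (f : V → Ω) (hf : ∀ v, f v ∈ Submodule.span R (Set.range c)) :
    c.det f ∈ (algebraMap R L).range := by
  have h : ∀ v v', ∃ r : R, algebraMap R L r = c.toMatrix f v v' := by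
    intro v v'
    rw [Module.Basis.toMatrix_apply]
    exact repr_mem_range c (hf v') v
  choose A hA using h
  refine ⟨Matrix.det (Matrix.of A), ?_⟩
  rw [RingHom.map_det, Module.Basis.det_apply]
  congr 1
  ext v v'
  simp [hA]

lemma ord_nonneg {W : Scheme.{0}} [IsIntegral W] [IsLocallyNoetherian W] (w : W)
    (r : W.presheaf.stalk w) (hr : algebraMap _ W.functionField r ≠ 0) :
    0 ≤ Scheme.ord (algebraMap _ W.functionField r) w := by
  by_cases hw : coheight w = 1
  · rw [Scheme.le_ord_iff hw hr]
    have : Ring.KrullDimLE 1 (W.presheaf.stalk w) := krullDimLE_of_coheight_le hw.le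
    have hr' : r ≠ 0 := by
      rintro rfl
      exact hr (map_zero _)
    exact Ring.ordFrac_ge_one_of_ne_zero hr'
  · rw [Scheme.ord_eq_zero_of_coheight_neq_one hw]

variable (M : ℕ)

lemma exists_basis_model_aux {W : Scheme.{0}} [IsIntegral W] (f : W ⟶ XM M) [IsDominant f]
    (hf : Function.Bijective (functionFieldMap f)) (i : F3) (x : XM M)
    (hx : x ∈ Proj.basicOpen (AA M) (ys M i)) :
    ∃ c : Module.Basis (VV M) W.functionField (Ω[W.functionField⁄ℤ]),
      ∀ v, c v = KaehlerDifferential.D ℤ W.functionField (functionFieldMap f (tau M i v)) := by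
  obtain ⟨φ, hinj, hv, hloc⟩ := exists_phi M i x hx
  let al : (XM M).presheaf.stalk x →+* (XM M).functionField := algebraMap _ _
  have hal : Function.Injective al :=
    IsFractionRing.injective ((XM M).presheaf.stalk x) (XM M).functionField
  let Φ : BB M →+* W.functionField := ((functionFieldMap f).comp al).comp φ
  have hΦ : Function.Injective Φ := hf.1.comp (hal.comp hinj)
  have hloc' : ∀ a : W.functionField, ∃ b s, IsUnit (Φ s) ∧ a * Φ s = Φ b := by
    intro a
    obtain ⟨a', rfl⟩ := hf.2 a
    obtain ⟨z, y, hy, hxy⟩ := IsFractionRing.div_surjective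
      (A := (XM M).presheaf.stalk x) (K := (XM M).functionField) a'
    obtain ⟨b1, s1, hs1, h1⟩ := hloc z
    obtain ⟨b2, s2, hs2, h2⟩ := hloc y
    have hy0 : al y ≠ 0 := IsFractionRing.to_map_ne_zero_of_mem_nonZeroDivisors hy
    have hs1' : al (φ s1) ≠ 0 := (hs1.map al).ne_zero
    have hs2' : al (φ s2) ≠ 0 := (hs2.map al).ne_zero
    have h1' : al z * al (φ s1) = al (φ b1) := by rw [← map_mul, h1]
    have h2' : al y * al (φ s2) = al (φ b2) := by rw [← map_mul, h2]
    have hb2' : al (φ b2) ≠ 0 := by rw [← h2']; exact mul_ne_zero hy0 hs2'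
    have hxy' : a' = al z / al y := hxy.symm
    refine ⟨b1 * s2, s1 * b2, ?_, ?_⟩
    · rw [isUnit_iff_ne_zero]
      change functionFieldMap f (al (φ (s1 * b2))) ≠ 0
      rw [map_ne_zero_iff _ hf.1, map_mul, map_mul]
      exact mul_ne_zero hs1' hb2'
    · change functionFieldMap f a' * functionFieldMap f (al (φ (s1 * b2))) =
        functionFieldMap f (al (φ (b1 * s2)))
      rw [← map_mul]
      congr 1
      rw [map_mul, map_mul, map_mul, map_mul, ← h1', ← h2', hxy']
      field_simp
  obtain ⟨c, hc, -⟩ := exists_basis_of_loc (A := W.functionField) (L := W.functionField) Φ hΦ hloc'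
  refine ⟨c, fun v => ?_⟩
  have h3 : algebraMap W.functionField W.functionField (Φ (MvPolynomial.X v)) =
      functionFieldMap f (tau M i v) := by
    change functionFieldMap f (al (φ (MvPolynomial.X v))) = _
    rw [← hv]
  rw [hc, h3]

/-- The chart coordinates give a basis of differentials on any birational model. -/
lemma exists_basis_model {W : Scheme.{0}} [IsIntegral W] (f : W ⟶ XM M) [IsDominant f]
    (hf : Function.Bijective (functionFieldMap f)) (i : F3) :
    ∃ c : Module.Basis (VV M) W.functionField (Ω[W.functionField⁄ℤ]),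
      ∀ v, c v = KaehlerDifferential.D ℤ W.functionField (functionFieldMap f (tau M i v)) :=
  exists_basis_model_aux M f hf i (genericPoint (XM M)) (generic_mem M i)

theorem isEpsKlt (ε : ℚ) (hε : ε < 1) : IsEpsKltWith ε (XM M) (tau M 0) 1 (KX M) := by
  intro W _ _ f _ _ hf hnorm w hw
  set i := ch M (f w) with hi
  have hmem : f w ∈ Proj.basicOpen (AA M) (ys M i) := mem_ch M (f w)
  refine ⟨yq M 0 i ^ (Pr.q + 1), ⟨yqp_ne M _ _, fun y hy hyz => ?_⟩, ?_⟩
  · have hy' : y ∈ Proj.basicOpen (AA M) (ys M i) :=
      hyz.mem_open (Proj.basicOpen (AA M) (ys M i)).isOpen hmem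
    change Scheme.ord (yq M 0 i ^ (Pr.q + 1)) y = ((1 : ℕ) : ℤ) * KX M y
    rw [KX_eq M i y hy']
    simp
  · obtain ⟨φ, hinj, hv, hloc⟩ := exists_phi M i (f w) hmem
    have hess : Algebra.EssFiniteType ℤ (W.presheaf.stalk w) := by
      have h1 : Algebra.EssFiniteType ℤ ((XM M).presheaf.stalk (f w)) := essFiniteType_of_loc φ hloc
      have h2 := LocallyOfFiniteType.stalkMap f w
      algebraize [(f.stalkMap w).hom]
      have : IsScalarTower ℤ ((XM M).presheaf.stalk (f w)) (W.presheaf.stalk w) := by
        infer_instance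
      exact Algebra.EssFiniteType.comp ℤ ((XM M).presheaf.stalk (f w)) (W.presheaf.stalk w)
    obtain ⟨c0, hc0⟩ := exists_basis_model M f hf 0
    obtain ⟨ci, hci⟩ := exists_basis_model M f hf i
    obtain ⟨n, hn⟩ := exists_isFormOrder W hnorm w hw
      (fun v => functionFieldMap f (tau M 0 v)) c0 hc0
    refine ⟨n, hn, ?_⟩
    obtain ⟨c, hspan, hne, hord⟩ := hn
    let e : (XM M).functionField ≃+* W.functionField := RingEquiv.ofBijective _ hf
    let κL : W.functionField →+* FF M := (kap M).comp e.symm.toRingHom
    have hκL : ∀ z, κL (functionFieldMap f z) = kap M z := by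
      intro z
      change kap M (e.symm (e z)) = _
      rw [RingEquiv.symm_apply_apply]
    have hjac := jacobian κL i (fun v => functionFieldMap f (tau M 0 v))
      (fun v => functionFieldMap f (tau M i v)) (fun v => by rw [hκL, kap_tau])
      (fun v => by rw [hκL, kap_tau]) ci hci
    have hylab : ylab i (fun v => functionFieldMap f (tau M i v)) 0 =
        functionFieldMap f (yq M i 0) := by
      apply κL.injective
      rw [hκL, kap_yq, kap_ylab κL i _ (fun v => by rw [hκL, kap_tau])]
    rw [hylab, ← map_inv₀, yq_inv, ← map_pow] at hjac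
    have hdet : c.det (fun v => KaehlerDifferential.D ℤ W.functionField
        (functionFieldMap f (tau M 0 v))) = c.det ci * functionFieldMap f (yq M 0 i ^ (Pr.q + 1)) := by
      rw [← hjac]
      have := congrArg (fun g => g (fun v => KaehlerDifferential.D ℤ W.functionField
        (functionFieldMap f (tau M 0 v)))) (c.det.eq_smul_basis_det ci)
      exact this
    have hyne : functionFieldMap f (yq M 0 i ^ (Pr.q + 1)) ≠ 0 := by
      rw [map_ne_zero_iff _ hf.1]; exact yqp_ne M _ _
    have hcne : c.det ci ≠ 0 := by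
      intro h
      rw [hdet, h, zero_mul] at hne
      exact hne rfl
    rw [hdet, Scheme.ord_mul hcne hyne] at hord
    have hmemR : c.det ci ∈ (algebraMap (W.presheaf.stalk w) W.functionField).range := by
      apply det_mem_range
      intro v
      rw [hspan, hci, ← hv v, functionFieldMap_algebraMap]
      exact Submodule.subset_span ⟨_, rfl⟩
    obtain ⟨r, hr⟩ := hmemR
    have hpos := ord_nonneg w r (by rw [hr]; exact hcne)
    rw [hr] at hpos
    have hn' : (Scheme.ord (functionFieldMap f (yq M 0 i ^ (Pr.q + 1))) w : ℚ) ≤ n := by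
      have : Scheme.ord (functionFieldMap f (yq M 0 i ^ (Pr.q + 1))) w ≤ n := by omega
      exact_mod_cast this
    simp only [Nat.cast_one, div_one]
    linarith

end Pool.Agent.H11.BAB
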