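import Pool.Agent.H11.BAB.Reg0
import Pool.Agent.H11.BAB.Can

/-!
The local rings of the varieties are regular.
-/

open AlgebraicGeometry CategoryTheory MvPolynomial

namespace Pool.Agent.H11.BAB

theorem isRegular_XM [Pr] (M : ℕ) (x : XM M) : IsRegularLocalRing ((XM M).presheaf.stalk x) := by
  obtain ⟨φ, hinj, -, hloc⟩ := exists_phi M _ x (mem_ch M x)
  exact isRegularLocalRing_of_loc Pr.p φ hinj hloc

end Pool.Agent.H11.BAB
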