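import Pool.Agent.H11.BAB.Unb
import Pool.Agent.H11.BAB.Dim
import Pool.Agent.H11.BAB.Reg
import Pool.Graph.R_seed8.Y939.BAB.GenBound

/-!
Final assembly for odd characteristic.
-/

open AlgebraicGeometry CategoryTheory Order

namespace Pool.Agent.H11.BAB

open Pool.Agent.H187R3
open Pool.Agent.Y939.BAB (IsBirationallyBounded exists_generator_bound' rat span_of_equiv)

section

variable [Pr]

theorem isEpsKltFano_XM (M : ℕ) (ε : ℚ) (hε : ε < 1) : IsEpsKltFano ε Pr.d (XM M) := by
  have hft : Algebra.FiniteType (AA M 0) (SR M) := finiteType_SR M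
  have hprop : IsProper (XM M).toSpecΓ := isProper_toSpecΓ M
  have hcomp : CompactSpace (XM M) := (quasiCompact_iff_compactSpace (XM M).toSpecΓ).mp inferInstance
  obtain ⟨e, he⟩ := exists_globalIso M
  refine ⟨inferInstance, inferInstance, ?_, ?_, hprop, trdeg_XM M, isNormal_XM M, VV M,
    inferInstance, inferInstance, tau M 0, KX M, 1, fun x _ => isFormOrder_KX M x, one_pos,
    isAmple M hcomp, isEpsKlt M ε hε⟩
  · exact e.symm.toMulEquiv.isField (isField_AA0 M)
  · have h1 : Algebra.EssFiniteType ℤ (AA M 0) := essFiniteType_AA0 M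
    exact (Algebra.EssFiniteType.iff_of_algEquiv
      (e.toIntAlgEquiv)).mp h1

theorem charP_XM (M : ℕ) : CharP Γ(XM M, ⊤) Pr.p := by
  have hinj : Function.Injective ((kap M).comp
      ((XM M).presheaf.germ ⊤ (genericPoint (XM M)) trivial).hom) :=
    (kap M).injective.comp
      (germ_injective_of_isIntegral (XM M) (U := ⊤) (genericPoint (XM M)) trivial)
  exact (RingHom.charP_iff _ hinj Pr.p).mpr inferInstance

theorem not_birBounded_aux :
    ¬ IsBirationallyBounded (fun X => CharP Γ(X, ⊤) Pr.p ∧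
      (∀ x : X, IsRegularLocalRing (X.presheaf.stalk x)) ∧
      ∀ ε : ℚ, ε < 1 → IsEpsKltFano ε Pr.d X) := by
  rintro ⟨T, Y, f, hT, hqc, hlft, h⟩
  obtain ⟨N, hN⟩ := exists_generator_bound' f
  obtain ⟨Z, hZ, g, h', p, hpb, e, he⟩ := h (XM (N + 3)) inferInstance ⟨charP_XM (N + 3),
    isRegular_XM (N + 3), fun ε hε =>
    isEpsKltFano_XM (N + 3) ε hε⟩
  obtain ⟨s, hs⟩ := hN Z Γ(XM (N + 3), ⊤) g h' p hpb
  have h1 : Submodule.span Z.functionField ((fun x => KaehlerDifferential.D ℤ Z.functionField x) ''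
      (Set.range s ∪ Set.range (rat p))) = ⊤ := by
    rw [← hs, Set.image_union, ← Set.range_comp, ← Set.range_comp]
    rfl
  have h2 := span_of_equiv e _ h1
  have h3 := generators_ge (N + 3) N (fun i => e.symm (s i)) (by
    rw [← h2, Set.image_union, Set.image_union]
    congr 2
    · ext x
      constructor
      · rintro ⟨i, rfl⟩
        exact ⟨_, ⟨s i, ⟨i, rfl⟩, rfl⟩, rfl⟩
      · rintro ⟨_, ⟨_, ⟨i, rfl⟩, rfl⟩, rfl⟩
        exact ⟨i, rfl⟩
    · ext x
      constructor
      · rintro ⟨a, rfl⟩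
        refine ⟨_, ⟨rat p a, ⟨a, rfl⟩, rfl⟩, ?_⟩
        show KaehlerDifferential.D ℤ _ (e.symm (rat p a)) = _
        rw [← he a, RingEquiv.symm_apply_apply]
      · rintro ⟨_, ⟨_, ⟨a, rfl⟩, rfl⟩, rfl⟩
        refine ⟨a, ?_⟩
        show KaehlerDifferential.D ℤ _ _ = KaehlerDifferential.D ℤ _ (e.symm (rat p a))
        rw [← he a, RingEquiv.symm_apply_apply])
  omega

end

/-- For every prime `p ≥ 3` and every `d ≥ p - 1` the regular Fano varieties of dimension `d` over
fields of characteristic `p` do not form a birationally bounded class. -/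
theorem not_birBounded_odd (p d : ℕ) (hp : p.Prime) (h3 : 3 ≤ p) (hd : p ≤ d + 1) :
    ¬ IsBirationallyBounded (fun X => CharP Γ(X, ⊤) p ∧
      (∀ x : X, IsRegularLocalRing (X.presheaf.stalk x)) ∧
      ∀ ε : ℚ, ε < 1 → IsEpsKltFano ε d X) := by
  let _ : Pr := ⟨p, d, d + 1 - p, hp, h3, by omega⟩
  exact not_birBounded_aux

end Pool.Agent.H11.BAB
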