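import Mathlib

/-!
Localizations of polynomial rings over a finite prime field are regular.
-/

open AlgebraicGeometry CategoryTheory MvPolynomial

namespace Pool.Agent.H11.BAB

/-- A local ring which is a localization of a polynomial ring over `F_p` is regular. -/
theorem isRegularLocalRing_of_loc (p : ℕ) [Fact p.Prime] {V : Type} [Finite V] {A : Type}
    [CommRing A] [IsLocalRing A] (φ : MvPolynomial V (ZMod p) →+* A) (hφ : Function.Injective φ)
    (hloc : ∀ a : A, ∃ b s, IsUnit (φ s) ∧ a * φ s = φ b) : IsRegularLocalRing A := by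
  let := φ.toAlgebra
  let P : Ideal (MvPolynomial V (ZMod p)) := (IsLocalRing.maximalIdeal A).comap φ
  have hP : P.IsPrime := Ideal.comap_isPrime φ _
  have hmem : ∀ s : MvPolynomial V (ZMod p), s ∈ P.primeCompl ↔ IsUnit (φ s) := by
    intro s
    have h1 : s ∈ P.primeCompl ↔ ¬ (φ s ∈ IsLocalRing.maximalIdeal A) := Iff.rfl
    rw [h1, IsLocalRing.mem_maximalIdeal, mem_nonunits_iff, not_not]
  have hL : IsLocalization.AtPrime A P := by
    refine ⟨fun y => (hmem y).mp y.2, fun a => ?_, fun {x y} h => ⟨1, by rw [hφ h]⟩⟩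
    obtain ⟨b, s, hs, h⟩ := hloc a
    exact ⟨⟨b, ⟨s, (hmem s).mpr hs⟩⟩, h⟩
  exact IsRegularLocalRing.of_ringEquiv
    (IsLocalization.algEquiv P.primeCompl (Localization.AtPrime P) A).toRingEquiv

end Pool.Agent.H11.BAB
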