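import Pool.Agent.H11.BAB.XM

/-!
Task D, first half. The degree zero part `AA M 0` of the graded ring `SR M` is a field between the
`p`-th powers of `ℓ = Frac (P0 M)` and `ℓ`.
-/

open AlgebraicGeometry CategoryTheory MvPolynomial

namespace Pool.Agent.H11.BAB

open Pool.Agent.H187R3

variable [Pr]

variable (M : ℕ)

/-- every element of degree zero is `f / n ^ p` with `D f = 0` -/
theorem exists_of_mem_AA0 (a : AA M 0) :
    ∃ f n : P0 M, n ≠ 0 ∧ DD M (i0 M f) = 0 ∧
      ((a : SR M) : FF M) = dn M f / dn M n ^ Pr.p := by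
  obtain ⟨n, hn, g, hg, hD, h⟩ := (mem_AA M).mp a.2
  obtain ⟨f, rfl⟩ := exists_i0_of_mem M hg
  refine ⟨f, n, hn, hD, ?_⟩
  rw [eq_div_iff (pow_ne_zero Pr.p (dn_ne M hn)), h, ← dn_apply]

/-- fractions `f / n ^ p` with `D f = 0` have degree zero -/
lemma div_mem_SF (f n : P0 M) (hn : n ≠ 0) (hf : DD M (i0 M f) = 0) :
    dn M f / dn M n ^ Pr.p ∈ SF M 0 := by
  refine ⟨n, hn, i0 M f, i0_mem M _, hf, ?_⟩
  rw [div_mul_cancel₀ _ (pow_ne_zero Pr.p (dn_ne M hn)), ← dn_apply]

lemma coe_AA0_mul (a b : AA M 0) : (((a * b : AA M 0) : SR M) : FF M) =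
    ((a : SR M) : FF M) * ((b : SR M) : FF M) := rfl

lemma coe_AA0_one : (((1 : AA M 0) : SR M) : FF M) = 1 := rfl

lemma coe_AA0_zero : (((0 : AA M 0) : SR M) : FF M) = 0 := rfl

lemma coe_AA0_injective {a b : AA M 0} (h : ((a : SR M) : FF M) = ((b : SR M) : FF M)) : a = b :=
  Subtype.ext (Subtype.ext h)

lemma DD_i0_pow {f : P0 M} (hf : DD M (i0 M f) = 0) (k : ℕ) : DD M (i0 M (f ^ k)) = 0 := by
  rw [map_pow, Derivation.leibniz_pow, hf, smul_zero, smul_zero]

theorem isField_AA0 : IsField (AA M 0) := by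
  refine ⟨⟨0, 1, ?_⟩, mul_comm, ?_⟩
  · intro h
    have h1 := congrArg (fun a : AA M 0 => ((a : SR M) : FF M)) h
    simp only [coe_AA0_one, coe_AA0_zero] at h1
    exact zero_ne_one h1
  · intro a ha
    obtain ⟨f, n, hn, hD, h⟩ := exists_of_mem_AA0 M a
    have hf : f ≠ 0 := by
      rintro rfl
      apply ha
      apply coe_AA0_injective
      rw [h, coe_AA0_zero, map_zero, zero_div]
    have hD' : DD M (i0 M (n ^ Pr.p * f ^ (Pr.p - 1))) = 0 := by
      rw [map_mul, Derivation.leibniz, DD_i0_pow M hD, map_pow, DD_pp, smul_zero, smul_zero,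
        add_zero]
    have hmem := div_mem_SF M (n ^ Pr.p * f ^ (Pr.p - 1)) f hf hD'
    refine ⟨⟨⟨_, SF_le M 0 hmem⟩, hmem⟩, ?_⟩
    apply coe_AA0_injective
    rw [coe_AA0_mul, h, coe_AA0_one]
    have h1 := dn_ne M hf
    have h2 := dn_ne M hn
    show dn M f / dn M n ^ Pr.p * (dn M (n ^ Pr.p * f ^ (Pr.p - 1)) / dn M f ^ Pr.p) = 1
    have e : dn M f ^ Pr.p = dn M f ^ (Pr.p - 1) * dn M f := by
      rw [← pow_succ, Nat.sub_add_cancel p_pos]
    rw [map_mul, map_pow, map_pow, e]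
    have h3 : dn M n ^ Pr.p ≠ 0 := pow_ne_zero _ h2
    have h4 : dn M f ^ (Pr.p - 1) ≠ 0 := pow_ne_zero _ h1
    field_simp

lemma frHom_mem (f : P0 M) : dn M f ^ Pr.p ∈ SF M 0 :=
  ⟨1, one_ne_zero, i0 M (f ^ Pr.p), i0_mem M _, by rw [map_pow]; exact DD_pp M _,
    by simp [dn_apply]⟩

/-- `f ↦ (dn f) ^ p` -/
noncomputable def frHom : P0 M →+* AA M 0 where
  toFun f := ⟨⟨dn M f ^ Pr.p, SF_le M 0 (frHom_mem M f)⟩, frHom_mem M f⟩
  map_one' := by
    apply Subtype.ext; apply Subtype.ext; simp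
  map_mul' a b := by
    apply Subtype.ext; apply Subtype.ext; simp [mul_pow]
  map_zero' := by
    apply Subtype.ext; apply Subtype.ext; simp [p_ne_zero]
  map_add' a b := by
    apply Subtype.ext; apply Subtype.ext
    simp [add_pow_char]

lemma frHom_coe (f : P0 M) : (((frHom M f : AA M 0) : SR M) : FF M) = dn M f ^ Pr.p := rfl

lemma frHom_injective : Function.Injective (frHom M) := by
  rw [injective_iff_map_eq_zero]
  intro f hf
  have h1 := congrArg (fun a : AA M 0 => ((a : SR M) : FF M)) hf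
  simp only [frHom_coe, coe_AA0_zero] at h1
  by_contra hne
  exact pow_ne_zero Pr.p (dn_ne M hne) h1

/-- the inclusion of the degree zero part in the field -/
noncomputable def incl0 : AA M 0 →+* FF M where
  toFun a := ((a : SR M) : FF M)
  map_one' := rfl
  map_mul' _ _ := rfl
  map_zero' := rfl
  map_add' _ _ := rfl

lemma incl0_injective : Function.Injective (incl0 M) := fun _ _ h => coe_AA0_injective M h

theorem isAlgebraic_AA0 : @Algebra.IsAlgebraic (P0 M) (AA M 0) _ _ (frHom M).toAlgebra := by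
  let := (frHom M).toAlgebra
  refine ⟨fun a => ?_⟩
  obtain ⟨f, n, hn, -, h⟩ := exists_of_mem_AA0 M a
  refine ⟨Polynomial.C (n ^ Pr.p) * Polynomial.X ^ Pr.p - Polynomial.C f, ?_, ?_⟩
  · intro h0
    have h1 := congrArg (fun q => Polynomial.coeff q Pr.p) h0
    simp only [Polynomial.coeff_sub, Polynomial.coeff_C_mul, Polynomial.coeff_X_pow, if_true,
      mul_one, Polynomial.coeff_C, if_neg p_ne_zero, sub_zero, Polynomial.coeff_zero] at h1
    exact pow_ne_zero _ hn h1
  · rw [map_sub, map_mul, Polynomial.aeval_C, Polynomial.aeval_C, Polynomial.aeval_X_pow]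
    apply incl0_injective M
    rw [map_zero, map_sub, map_mul]
    have e1 : ∀ g : P0 M, incl0 M (algebraMap (P0 M) (AA M 0) g) = dn M g ^ Pr.p := fun g => rfl
    have e2 : incl0 M a = dn M f / dn M n ^ Pr.p := h
    have e3 : incl0 M (a ^ Pr.p) = (dn M f / dn M n ^ Pr.p) ^ Pr.p := by rw [map_pow, e2]
    rw [e1, e1, e3, map_pow, div_pow, mul_div_cancel₀, sub_self]
    exact pow_ne_zero _ (pow_ne_zero _ (dn_ne M hn))

end Pool.Agent.H11.BAB
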