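import Pool.Agent.H11.BAB.TaskE0

/-!
Task E. Global sections of `X_M` are `AA M 0`, and `X_M → Spec Γ(X_M)` is proper
(given that `SR M` is of finite type over `AA M 0`, Task D).
-/

open AlgebraicGeometry CategoryTheory HomogeneousLocalization

namespace Pool.Agent.H11.BAB

open Pool.Agent.H187R3

variable [Pr]

variable (M : ℕ)

/-- the charts cover -/
theorem cover_XM (x : XM M) : ∃ i : F3, x ∈ Proj.basicOpen (AA M) (ys M i) := by
  classical
  by_contra hcon
  push Not at hcon
  have hmem : ∀ i, ys M i ∈ x.asHomogeneousIdeal.toIdeal := by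
    intro i
    have := hcon i
    rw [Proj.mem_basicOpen, not_not] at this
    exact this
  have hspan : Ideal.span (Set.range (ys M)) ≤ x.asHomogeneousIdeal.toIdeal := by
    rw [Ideal.span_le]
    rintro _ ⟨i, rfl⟩
    exact hmem i
  have hp : x.asHomogeneousIdeal.toIdeal.IsPrime := ProjectiveSpectrum.isPrime x
  apply ProjectiveSpectrum.not_irrelevant_le x
  intro z hz
  have hz' : z ∈ HomogeneousIdeal.irrelevant (AA M) := hz
  rw [HomogeneousIdeal.mem_irrelevant_iff, GradedRing.proj_apply] at hz'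
  rw [← DirectSum.sum_support_decompose (AA M) z]
  refine Ideal.sum_mem _ fun d _ => ?_
  by_cases hd : d = 0
  · subst hd
    rw [hz']
    exact Ideal.zero_mem _
  · have h1 := pp_mem_ideal M d (Nat.pos_of_ne_zero hd) _ (SetLike.coe_mem (DirectSum.decompose (AA M) z d))
    exact hp.mem_of_pow_mem Pr.p (hspan h1)

lemma generic_memE (f : SR M) (hf : f ≠ 0) : genericPoint (XM M) ∈ Proj.basicOpen (AA M) f := by
  have h := genericPoint_spec (XM M)
  refine (h.mem_open_set_iff (Proj.basicOpen (AA M) f).2).mpr ?_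
  refine ⟨projZeroPoint (AA M) ⟨1, one_pos, ys M 0, ys_mem M 0, ys_ne M 0⟩, trivial, ?_⟩
  show f ∉ (⊥ : HomogeneousIdeal (AA M)).toIdeal
  rw [HomogeneousIdeal.toIdeal_bot]
  simpa using hf

lemma generic_mem_one : genericPoint (XM M) ∈ Proj.basicOpen (AA M) 1 := by
  rw [Proj.basicOpen_one]; trivial

/-- the map from the degree zero part to the global sections -/
noncomputable def phiE : CommRingCat.of (AA M 0) ⟶ Γ(XM M, ⊤) :=
  CommRingCat.ofHom (fromZeroRingHom (AA M) (Submonoid.powers 1)) ≫ Proj.awayToSection (AA M) 1 ≫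
    (XM M).presheaf.map (homOfLE (Proj.basicOpen_one (AA M)).ge).op

lemma toSpecZero_eq : Proj.toSpecZero (AA M) = (XM M).toSpecΓ ≫ Spec.map (phiE M) := by
  rw [phiE, Proj.toSpecZero, Proj.basicOpenToSpec, Spec.map_comp, Spec.map_comp]
  simp only [Category.assoc]
  have h1 := Scheme.Opens.toSpecΓ_SpecMap_presheaf_map ⊤ (Proj.basicOpen (AA M) 1)
    (Proj.basicOpen_one (AA M)).ge
  rw [Scheme.Opens.toSpecΓ_top] at h1
  rw [Scheme.isoOfEq_inv]
  have h2 : (Scheme.topIso (XM M)).inv ≫ (XM M).homOfLE (Proj.basicOpen_one (AA M)).ge ≫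
      (Proj.basicOpen (AA M) 1).toSpecΓ = (XM M).toSpecΓ ≫
        Spec.map ((XM M).presheaf.map (homOfLE (Proj.basicOpen_one (AA M)).ge).op) := by
    rw [← h1, Category.assoc, ← Category.assoc, Scheme.toIso_inv_ι, Category.id_comp]
  rw [← Category.assoc, ← Category.assoc, Category.assoc (Scheme.topIso _).inv, h2]
  simp only [Category.assoc]

lemma kap_phiE (a : AA M 0) : kap M ((XM M).presheaf.germ ⊤ (genericPoint (XM M)) trivial
    ((phiE M).hom a)) = ((a : SR M) : FF M) := by
  have hη := generic_memE M (ys M 0) (ys_ne M 0)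
  have h1 := Proj.awayMap_awayToSection (𝒜 := AA M) (f := 1) (ys_mem M 0)
    (x := ys M 0) (one_mul _).symm
  have h2 := congrArg (fun φ => φ.hom (fromZeroRingHom (AA M) (Submonoid.powers 1) a)) h1
  simp only [CommRingCat.hom_comp, CommRingCat.hom_ofHom, RingHom.comp_apply] at h2
  rw [awayMap_fromZeroRingHom] at h2
  have h3 : (XM M).presheaf.germ ⊤ (genericPoint (XM M)) trivial ((phiE M).hom a) =
      (XM M).presheaf.germ (Proj.basicOpen (AA M) (ys M 0)) (genericPoint (XM M)) hη
        (Proj.awayToSection (AA M) (ys M 0) (Away.mk (AA M) (ys_mem M 0) 0 (a : SR M)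
          (by simp))) := by
    have h4 : (XM M).presheaf.germ ⊤ (genericPoint (XM M)) trivial ((phiE M).hom a) =
        (XM M).presheaf.germ (Proj.basicOpen (AA M) 1) (genericPoint (XM M)) (generic_mem_one M)
          ((Proj.awayToSection (AA M) 1).hom (fromZeroRingHom (AA M) (Submonoid.powers 1) a)) :=
      TopCat.Presheaf.germ_res_apply (XM M).presheaf
        (homOfLE (Proj.basicOpen_one (AA M)).ge) (genericPoint (XM M)) trivial
        ((Proj.awayToSection (AA M) 1).hom (fromZeroRingHom (AA M) (Submonoid.powers 1) a))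
    have h5 := TopCat.Presheaf.germ_res_apply (XM M).presheaf
        (homOfLE (Proj.basicOpen_mono (AA M) _ _ ⟨_, (one_mul (ys M 0)).symm⟩)) (genericPoint (XM M)) hη
        ((Proj.awayToSection (AA M) 1).hom (fromZeroRingHom (AA M) (Submonoid.powers 1) a))
    rw [h4, ← h5, ← h2]
    congr 2
  rw [h3, kap_spec M 1 one_pos _ _ (ys_ne M 0)]
  simp

lemma exists_frac (σ : Γ(XM M, ⊤)) (l : F3) : ∃ n : ℕ,
    kap M ((XM M).presheaf.germ ⊤ (genericPoint (XM M)) trivial σ) * yF M l ^ n ∈ SF M n := by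
  have hη := generic_memE M (ys M l) (ys_ne M l)
  let σl : Γ(XM M, Proj.basicOpen (AA M) (ys M l)) := (XM M).presheaf.map (homOfLE le_top).op σ
  have h1 : (XM M).presheaf.germ (Proj.basicOpen (AA M) (ys M l)) (genericPoint (XM M)) hη σl =
      (XM M).presheaf.germ ⊤ (genericPoint (XM M)) trivial σ :=
    TopCat.Presheaf.germ_res_apply (XM M).presheaf (homOfLE le_top) (genericPoint (XM M)) hη σ
  obtain ⟨z, hz⟩ : ∃ z, (Proj.awayToSection (AA M) (ys M l)).hom z = σl := by
    refine ⟨(Proj.basicOpenIsoAway (AA M) (ys M l) (ys_mem M l) one_pos).inv.hom σl, ?_⟩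
    have h2 := (Proj.basicOpenIsoAway (AA M) (ys M l) (ys_mem M l) one_pos).inv_hom_id
    rw [Proj.basicOpenIsoAway_hom] at h2
    exact congrArg (fun φ => φ.hom σl) h2
  obtain ⟨n, s, hs, rfl⟩ := Away.mk_surjective (AA M) (ys_mem M l) z
  refine ⟨n, ?_⟩
  rw [← h1, ← hz]
  have h3 := kap_spec M 1 one_pos (ys M l) (ys_mem M l) (ys_ne M l) n s hs hη
  have h4 : kap M ((XM M).presheaf.germ (Proj.basicOpen (AA M) (ys M l)) (genericPoint (XM M)) hη
      ((Proj.awayToSection (AA M) (ys M l)).hom (Away.mk (AA M) (ys_mem M l) n s hs))) =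
      (s : FF M) / ((ys M l : SR M) : FF M) ^ n := h3
  rw [h4, coe_ys, div_mul_cancel₀ _ (pow_ne_zero _ (yF_ne M l))]
  have h5 : s ∈ AA M n := by simpa using hs
  exact h5

lemma phiE_bijective : Function.Bijective (phiE M).hom := by
  constructor
  · intro a b hab
    apply Subtype.ext; apply Subtype.ext
    rw [← kap_phiE M a, ← kap_phiE M b, hab]
  · intro σ
    obtain ⟨n0, h0⟩ := exists_frac M σ 0
    obtain ⟨n1, h1⟩ := exists_frac M σ 1
    have h2 := mem_SF0 M _ n0 n1 h0 h1
    refine ⟨⟨⟨_, SF_le M 0 h2⟩, h2⟩, ?_⟩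
    apply germ_injective_of_isIntegral (XM M) (U := ⊤) (genericPoint (XM M)) trivial
    apply (kap M).injective
    exact kap_phiE M _

theorem exists_globalIso : ∃ e : AA M 0 ≃+* Γ(XM M, ⊤), ∀ a : AA M 0,
    kap M ((XM M).presheaf.germ ⊤ (genericPoint (XM M)) trivial (e a)) = ((a : SR M) : FF M) :=
  ⟨RingEquiv.ofBijective (phiE M).hom (phiE_bijective M), fun a => kap_phiE M a⟩

theorem isProper_toSpecΓ [Algebra.FiniteType (AA M 0) (SR M)] : IsProper (XM M).toSpecΓ := by
  have h1 : IsIso (phiE M) := (ConcreteCategory.isIso_iff_bijective _).mpr (phiE_bijective M)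
  have h2 : IsProper (Proj.toSpecZero (AA M)) := inferInstance
  rw [toSpecZero_eq] at h2
  exact (MorphismProperty.cancel_right_of_respectsIso @IsProper _ _).mp h2

end Pool.Agent.H11.BAB
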