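import Pool.Agent.H11.BAB.XM

/-!
Algebraic part of Task E.
-/

open MvPolynomial

namespace Pool.Agent.H11.BAB

open Pool.Agent.H187R3

variable [Pr]

variable (M : ℕ)

lemma f01 : (0 : F3) ≠ 1 := by
  intro h
  have h1 := congrArg Fin.val h
  have h2 := two_le_d
  have h3 : ((1 : F3) : ℕ) = 1 := Nat.mod_eq_of_lt (by omega : 1 < Pr.d + 1)
  rw [h3] at h1
  simp at h1

lemma Yv_ne (l : F3) : Yv M l ≠ 0 := X_ne_zero _

lemma DD_Y_pow (l : F3) (n : ℕ) : DD M (Yv M l ^ n) = 0 := by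
  rw [Derivation.leibniz_pow, DD_Y, smul_zero, smul_zero]

lemma Yv_pow_mem (l : F3) (n : ℕ) : Yv M l ^ n ∈ HH M n := by
  induction n with
  | zero =>
    rw [pow_zero, mem_weightedHomogeneousSubmodule]
    exact isWeightedHomogeneous_one _ _
  | succ n ih => rw [pow_succ]; exact HH_mul M ih (Yv_mem M l)

/-- homogeneous quotients -/
lemma exists_quot {n0 : ℕ} {g0 : PP M} (hg0 : g0 ∈ HH M n0) (hdvd : Yv M 0 ^ n0 ∣ g0) :
    ∃ h ∈ HH M 0, g0 = Yv M 0 ^ n0 * h := by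
  obtain ⟨h, rfl⟩ := hdvd
  obtain ⟨s, hs⟩ := exists_wc_sum M h
  have h1 : wc M n0 (Yv M 0 ^ n0 * h) = Yv M 0 ^ n0 * h := by
    rw [wc_of_mem M hg0, if_pos rfl]
  have h2 : wc M n0 (Yv M 0 ^ n0 * h) =
      Yv M 0 ^ n0 * (if 0 ∈ s then wc M 0 h else 0) := by
    conv_lhs => rw [hs]
    rw [Finset.mul_sum, map_sum]
    have h3 : ∀ d ∈ s, wc M n0 (Yv M 0 ^ n0 * wc M d h) =
        if d = 0 then Yv M 0 ^ n0 * wc M 0 h else 0 := by
      intro d _
      rw [wc_of_mem M (HH_mul M (Yv_pow_mem M 0 n0) (wc_mem M d h))]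
      by_cases hd : d = 0
      · subst hd; simp
      · rw [if_neg (by omega), if_neg hd]
    rw [Finset.sum_congr rfl h3, Finset.sum_ite_eq']
    split_ifs <;> simp
  refine ⟨if 0 ∈ s then wc M 0 h else 0, ?_, by rw [← h2, h1]⟩
  split_ifs
  · exact wc_mem M 0 h
  · exact Submodule.zero_mem _

lemma mem_SF0 (v : FF M) (n0 n1 : ℕ) (h0 : v * yF M 0 ^ n0 ∈ SF M n0)
    (h1 : v * yF M 1 ^ n1 ∈ SF M n1) : v ∈ SF M 0 := by
  obtain ⟨m0, hm0, g0, hg0, hD0, e0⟩ := h0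
  obtain ⟨m1, hm1, g1, hg1, hD1, e1⟩ := h1
  have key : g0 * (Yv M 1 ^ n1 * i0 M m1 ^ Pr.p) = Yv M 0 ^ n0 * (g1 * i0 M m0 ^ Pr.p) := by
    apply IsFractionRing.injective (PP M) (FF M)
    simp only [map_mul, map_pow, ← e0, ← e1, ← dn_apply]
    change _ * (yF M 1 ^ n1 * _) = yF M 0 ^ n0 * _
    ring
  have hnd : ¬ Yv M 0 ∣ Yv M 1 ^ n1 * i0 M m1 ^ Pr.p := by
    rintro ⟨q, hq⟩
    have h2 := congrArg (evp M (Pi.single 1 1)) hq
    simp only [map_mul, map_pow, evp_i0, evp_Y] at h2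
    rw [Pi.single_eq_same, Pi.single_eq_of_ne f01, map_zero, zero_mul, map_one, one_pow,
      one_mul] at h2
    exact pow_ne_zero _ hm1 h2
  have hdvd : Yv M 0 ^ n0 ∣ g0 :=
    Prime.pow_dvd_of_dvd_mul_right (p := Yv M 0) X_prime n0 hnd ⟨_, key⟩
  obtain ⟨h, hh, rfl⟩ := exists_quot M hg0 hdvd
  refine ⟨m0, hm0, h, hh, ?_, ?_⟩
  · rw [Derivation.leibniz, DD_Y_pow, smul_zero, add_zero, smul_eq_mul] at hD0
    exact (mul_eq_zero.mp hD0).resolve_left (pow_ne_zero _ (Yv_ne M 0))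
  · have h3 : yF M 0 ^ n0 ≠ 0 := pow_ne_zero _ (yF_ne M 0)
    apply mul_left_cancel₀ h3
    rw [map_mul, map_pow] at e0
    rw [← mul_assoc, mul_comm (yF M 0 ^ n0) v, e0]
    rfl

/-- the `p`-th power of a form of positive degree, as a combination of the `Y_l` -/
lemma pp_mem_ideal (d : ℕ) (hd : 0 < d) (s : SR M) (hs : s ∈ AA M d) :
    s ^ Pr.p ∈ Ideal.span (Set.range (ys M)) := by
  obtain ⟨n, hn, g, hg, hD, h⟩ := (mem_AA M).mp hs
  -- monomials
  have hmon : ∀ m ∈ g.support, ∃ a ∈ Ideal.span (Set.range (ys M)),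
      ((a : SR M) : FF M) = algebraMap (PP M) (FF M) (monomial m (coeff m g)) ^ Pr.p /
        (dn M n ^ Pr.p) ^ Pr.p := by
    intro m hm
    rw [mem_weightedHomogeneousSubmodule] at hg
    have hw : Finsupp.weight (wt M) m = d := hg (mem_support_iff.mp hm)
    have hex : ∃ l : F3, m (Sum.inr l) ≠ 0 := by
      by_contra hcon
      push Not at hcon
      rw [Finsupp.weight_apply, Finsupp.sum] at hw
      have h0 : ∑ a ∈ m.support, m a • wt M a = 0 := by
        refine Finset.sum_eq_zero fun a _ => ?_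
        rcases a with j | l
        · simp [wt]
        · rw [hcon l, zero_smul]
      omega
    obtain ⟨l, hl⟩ := hex
    obtain ⟨q, hq⟩ : Yv M l ∣ monomial m (coeff m g) := by
      rw [Yv, X_dvd_monomial]
      exact Or.inr hl
    obtain ⟨k, hk⟩ : ∃ k, Pr.p = k + 1 := ⟨Pr.p - 1, by have := p_pos; omega⟩
    have hDq : DD M (Yv M l ^ k * q ^ Pr.p) = 0 := by
      rw [Derivation.leibniz, DD_pp, DD_Y_pow, smul_zero, smul_zero, add_zero]
    have hmemSR : algebraMap (PP M) (FF M) (Yv M l ^ k * q ^ Pr.p) / dn M (n ^ Pr.p) ^ Pr.p ∈ SR M :=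
      ⟨n ^ Pr.p, pow_ne_zero _ hn, Yv M l ^ k * q ^ Pr.p, hDq,
        div_mul_cancel₀ _ (pow_ne_zero _ (dn_ne M (pow_ne_zero _ hn)))⟩
    refine ⟨⟨_, hmemSR⟩ * ys M l, Ideal.mul_mem_left _ _ (Ideal.subset_span ⟨l, rfl⟩), ?_⟩
    rw [hq]
    simp only [Subring.coe_mul, coe_ys, map_mul, map_pow, yF, mul_pow]
    have e : (algebraMap (PP M) (FF M) (Yv M l)) ^ Pr.p =
        (algebraMap (PP M) (FF M) (Yv M l)) ^ k * algebraMap (PP M) (FF M) (Yv M l) := by
      rw [← pow_succ, ← hk]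
    rw [e]
    ring
  choose! a ha hav using hmon
  have hsum : s ^ Pr.p = ∑ m ∈ g.support, a m := by
    apply Subtype.ext
    rw [AddSubmonoidClass.coe_finsetSum, Finset.sum_congr rfl hav, ← Finset.sum_div]
    have hfrob := map_sum (frobenius (PP M) Pr.p)
      (fun m => monomial m (coeff m g)) g.support
    rw [← g.as_sum] at hfrob
    simp only [frobenius_def] at hfrob
    simp only [← map_pow (algebraMap (PP M) (FF M))]
    rw [← map_sum, ← hfrob, map_pow, ← h, SubmonoidClass.coe_pow]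
    have := dn_ne M hn
    rw [mul_pow, mul_div_cancel_right₀]
    exact pow_ne_zero _ (pow_ne_zero _ this)
  rw [hsum]
  exact Ideal.sum_mem _ fun m hm => ha m hm

end Pool.Agent.H11.BAB
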