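import Pool.Agent.H11.BAB.TaskE
import Pool.Agent.H11.BAB.Alg3
import Pool.Agent.H11.BAB.Loc

/-!
The stalks of `X_M` at the points of the chart `D₊(Y_i)` are localizations of the
polynomial ring `BB M`, embedded in `FF M` by `psi M i`.
-/

open AlgebraicGeometry CategoryTheory HomogeneousLocalization

namespace Pool.Agent.H11.BAB

open Pool.Agent.H187R3

variable [Pr]

variable (M : ℕ)

lemma isUnit_mapId {A : Type} [CommRing A] (𝒜 : ℕ → AddSubgroup A) [GradedRing 𝒜] (P : Ideal A)
    [P.IsPrime] {f g : A} (hf : f ∈ 𝒜 1) (hg : g ∈ 𝒜 (1 • 1))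
    (hP : Submonoid.powers f ≤ P.primeCompl) :
    IsUnit (HomogeneousLocalization.mapId 𝒜 hP (Away.mk 𝒜 hf 1 g hg)) ↔ g ∉ P := by
  rw [← isUnit_iff_isUnit_val]
  have h : (HomogeneousLocalization.mapId 𝒜 hP (Away.mk 𝒜 hf 1 g hg)).val =
    Localization.mk g ⟨f ^ 1, hP ⟨1, rfl⟩⟩ := rfl
  rw [h, Localization.mk_eq_mk', IsLocalization.AtPrime.isUnit_mk'_iff _ P]
  rfl

lemma generic_mem' (i : F3) : genericPoint (XM M) ∈ Proj.basicOpen (AA M) (ys M i) := by
  let z : ProjectiveSpectrum (AA M) :=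
    projZeroPoint (AA M) ⟨1, one_pos, ys M 0, ys_mem M 0, ys_ne M 0⟩
  have hz : (z : XM M) ∈ Proj.basicOpen (AA M) (ys M i) := by
    show ys M i ∉ (⊥ : HomogeneousIdeal (AA M)).toIdeal
    rw [HomogeneousIdeal.toIdeal_bot]
    simpa using ys_ne M i
  rw [← SetLike.mem_coe]
  exact ((genericPoint_spec (XM M)).mem_open_set_iff
    (Proj.basicOpen (AA M) (ys M i)).isOpen).mpr ⟨z, trivial, hz⟩

/-- germs of elements of the chart ring -/
noncomputable def gs (i : F3) (x : XM M) (hx : x ∈ Proj.basicOpen (AA M) (ys M i)) :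
    Away (AA M) (ys M i) →+* (XM M).presheaf.stalk x :=
  (((XM M).presheaf.germ _ x hx).hom).comp (Proj.awayToSection (AA M) (ys M i)).hom

/-- values of elements of the chart ring in the big field -/
noncomputable def av (i : F3) : Away (AA M) (ys M i) →+* FF M :=
  (kap M).comp (gs M i (genericPoint (XM M)) (generic_mem' M i))

lemma av_mk (i : F3) (n : ℕ) (s : SR M) (hs : s ∈ AA M (n • 1)) :
    av M i (Away.mk (AA M) (ys_mem M i) n s hs) = (s : FF M) / yF M i ^ n :=
  kap_spec M 1 one_pos (ys M i) (ys_mem M i) (ys_ne M i) n s hs (generic_mem' M i)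

lemma kap_gs (i : F3) (x : XM M) (hx : x ∈ Proj.basicOpen (AA M) (ys M i))
    (a : Away (AA M) (ys M i)) :
    kap M (algebraMap _ (XM M).functionField (gs M i x hx a)) = av M i a := by
  have : Nonempty (Proj.basicOpen (AA M) (ys M i)) := ⟨⟨x, hx⟩⟩
  have h := Scheme.algebraMap_germ_eq_germToFunctionField (X := XM M) hx
    ((Proj.awayToSection (AA M) (ys M i)).hom a)
  change kap M (algebraMap _ (XM M).functionField ((XM M).presheaf.germ _ x hx
    ((Proj.awayToSection (AA M) (ys M i)).hom a))) = _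
  rw [h]
  rfl

lemma av_injective (i : F3) : Function.Injective (av M i) := by
  rw [injective_iff_map_eq_zero]
  intro a ha
  obtain ⟨n, s, hs, rfl⟩ := Away.mk_surjective (AA M) (ys_mem M i) a
  rw [av_mk] at ha
  have h1 : (s : FF M) = 0 := by
    rcases div_eq_zero_iff.mp ha with h | h
    · exact h
    · exact absurd h (pow_ne_zero n (yF_ne M i))
  have h2 : s = 0 := Subtype.ext h1
  subst h2
  apply HomogeneousLocalization.val_injective
  rw [Away.val_mk, HomogeneousLocalization.val_zero, Localization.mk_zero]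

lemma mem_range_of_closed (i : F3) {d : ℕ} {g : PP M} (hg : g ∈ HH M d) (hD : DD M g = 0) :
    algebraMap (PP M) (FF M) g / yF M i ^ d ∈ (av M i).range := by
  have hm : algebraMap (PP M) (FF M) g ∈ SF M d :=
    ⟨1, one_ne_zero, g, hg, hD, by simp⟩
  refine ⟨Away.mk (AA M) (ys_mem M i) d ⟨_, SF_le M d hm⟩ ?_, ?_⟩
  · rw [smul_eq_mul, mul_one]
    exact hm
  · rw [av_mk]

lemma exists_half : ∃ m : ℕ, (m : FF M) = (2 : FF M)⁻¹ := by
  have hodd : ∃ k, Pr.p = 2 * k + 1 := by
    rcases Pr.hp.eq_two_or_odd with h | h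
    · have := Pr.hp3; omega
    · exact ⟨Pr.p / 2, by omega⟩
  obtain ⟨k, hk⟩ := hodd
  refine ⟨k + 1, ?_⟩
  have h1 : ((2 * k + 1 : ℕ) : FF M) = 0 := by
    rw [← hk]; exact CharP.cast_eq_zero (FF M) Pr.p
  have h2 := two_ne_FF M
  apply mul_right_cancel₀ h2
  rw [inv_mul_cancel₀ h2]
  push_cast at h1 ⊢
  linear_combination h1

lemma coord_mem_range (i : F3) (v : VV M) : coord M i v ∈ (av M i).range := by
  have hu : ∀ j, uF M i j ∈ (av M i).range := by
    intro j
    have h := mem_range_of_closed M i (d := 2)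
      (g := 2 * (Tv M j * (Yv M i * Yv M i)) - 2 * (Tv M (Sum.inl i) * (qq M j * Yv M i)) +
        Tv M (Sum.inl i) * (Tv M (Sum.inl i) * rr M j)) ?_ ?_
    · obtain ⟨m, hm⟩ := exists_half M
      have e : uF M i j = (m : FF M) * (algebraMap (PP M) (FF M)
          (2 * (Tv M j * (Yv M i * Yv M i)) - 2 * (Tv M (Sum.inl i) * (qq M j * Yv M i)) +
        Tv M (Sum.inl i) * (Tv M (Sum.inl i) * rr M j)) / yF M i ^ 2) := by
        have h2 := two_ne_FF M
        have hy := yF_ne M i
        rw [hm, uF]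
        simp only [map_add, map_sub, map_mul, map_ofNat]
        change _ = 2⁻¹ * ((2 * (tF M j * (yF M i * yF M i)) - 2 * (tF M (Sum.inl i) *
          (qF M j * yF M i)) + tF M (Sum.inl i) * (tF M (Sum.inl i) * rF M j)) / yF M i ^ 2)
        field_simp
      rw [e]
      exact mul_mem (natCast_mem _ m) h
    · have h2 : ∀ {x : PP M}, x ∈ HH M 2 → 2 * x ∈ HH M 2 := by
        intro x hx
        rw [two_mul]
        exact Submodule.add_mem _ hx hx
      refine Submodule.add_mem _ (Submodule.sub_mem _ (h2 ?_) (h2 ?_)) ?_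
      · have := HH_mul M (Tv_mem M j) (HH_mul M (Yv_mem M i) (Yv_mem M i))
        exact this
      · have := HH_mul M (Tv_mem M (Sum.inl i)) (HH_mul M (qq_mem M j) (Yv_mem M i))
        exact this
      · have := HH_mul M (Tv_mem M (Sum.inl i)) (HH_mul M (Tv_mem M (Sum.inl i)) (rr_mem M j))
        exact this
    · have e1 : qq M (Sum.inl i) = Yv M i := rfl
      have e2 : DD M (2 : PP M) = 0 := by
        have := (DD M).map_natCast 2
        exact_mod_cast this
      simp only [map_add, map_sub, Derivation.leibniz, smul_eq_mul, DD_T, DD_Y, DD_qq, DD_rr, e1,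
        e2, mul_zero, add_zero, zero_add]
      ring
  rcases v with (l | nb) | m
  · simp only [coord]
    split_ifs
    · have h := mem_range_of_closed M i (d := 0) (g := Tv M (Sum.inl i) ^ Pr.p) ?_ (DD_pp M _)
      · simpa [tF] using h
      · have h1 : ∀ n : ℕ, Tv M (Sum.inl i) ^ n ∈ HH M 0 := by
          intro n
          induction n with
          | zero =>
            rw [pow_zero, MvPolynomial.mem_weightedHomogeneousSubmodule]
            exact MvPolynomial.isWeightedHomogeneous_one _ _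
          | succ n ih => rw [pow_succ]; exact HH_mul M (b := 0) ih (Tv_mem M _)
        exact h1 _
    · exact hu _
  · exact hu _
  · have h := mem_range_of_closed M i (Yv_mem M (sw i m.succ)) (DD_Y M _)
    rw [pow_one] at h
    exact h

lemma psi_mem_range (i : F3) (b : BB M) : (psi M i b) ∈ (av M i).range := by
  induction b using MvPolynomial.induction_on with
  | C a =>
    have h1 : psi M i (MvPolynomial.C a) = ((a.val : ℕ) : FF M) := by
      have h2 : (MvPolynomial.C a : BB M) = ((a.val : ℕ) : BB M) := by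
        conv_lhs => rw [← ZMod.natCast_zmod_val a]
        exact map_natCast MvPolynomial.C _
      rw [h2, map_natCast]
    rw [h1]
    exact natCast_mem _ _
  | add p q hp hq => rw [map_add]; exact add_mem hp hq
  | mul_X p v hp =>
    rw [map_mul]
    refine mul_mem hp ?_
    rw [psi, MvPolynomial.aeval_X]
    exact coord_mem_range M i v

/-- the polynomial ring maps to the chart ring -/
noncomputable def phi0 (i : F3) : BB M →+* Away (AA M) (ys M i) :=
  ((RingEquiv.ofBijective (av M i).rangeRestrict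
    ⟨fun _ _ h => av_injective M i (congrArg Subtype.val h),
      (av M i).rangeRestrict_surjective⟩).symm : (av M i).range →+* Away (AA M) (ys M i)).comp
    ((psi M i : BB M →+* FF M).codRestrict (av M i).range (psi_mem_range M i))

lemma av_phi0 (i : F3) (b : BB M) : av M i (phi0 M i b) = psi M i b := by
  have h := (RingEquiv.ofBijective (av M i).rangeRestrict
    ⟨fun _ _ h => av_injective M i (congrArg Subtype.val h),
      (av M i).rangeRestrict_surjective⟩).apply_symm_apply
      ((psi M i : BB M →+* FF M).codRestrict (av M i).range (psi_mem_range M i) b)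
  exact congrArg Subtype.val h

lemma phi0_loc (i : F3) (a : Away (AA M) (ys M i)) :
    ∃ b s : BB M, IsUnit (phi0 M i s) ∧ a * phi0 M i s = phi0 M i b := by
  obtain ⟨n, s, hs, rfl⟩ := Away.mk_surjective (AA M) (ys_mem M i) a
  obtain ⟨m, hm, g, hg, hD, h⟩ := (mem_AA M).mp hs
  rw [smul_eq_mul, mul_one] at hg
  obtain ⟨b, hb⟩ := closed_div_mem M i hg hD
  have hm0 : i0 M (m ^ Pr.p) ∈ HH M 0 := i0_mem M _
  have hmD : DD M (i0 M (m ^ Pr.p)) = 0 := by rw [map_pow]; exact DD_pp M _
  obtain ⟨s', hs'⟩ := closed_div_mem M i hm0 hmD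
  have hb' : psi M i b = algebraMap (PP M) (FF M) g / yF M i ^ n := hb
  have hs'' : psi M i s' = dn M m ^ Pr.p := by
    have : psi M i s' = algebraMap (PP M) (FF M) (i0 M (m ^ Pr.p)) / yF M i ^ 0 := hs'
    rw [this, pow_zero, div_one, map_pow, map_pow]
    rfl
  have hdn : dn M m ^ Pr.p ≠ 0 := pow_ne_zero Pr.p (dn_ne M hm)
  refine ⟨b, s', ?_, ?_⟩
  · have hinv : (dn M m ^ Pr.p)⁻¹ ∈ SF M 0 :=
      ⟨m, hm, 1, by
        rw [MvPolynomial.mem_weightedHomogeneousSubmodule]
        exact MvPolynomial.isWeightedHomogeneous_one _ _, by simp, by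
        rw [inv_mul_cancel₀ hdn, map_one]⟩
    have hval := av_mk M i 0 ⟨_, SF_le M 0 hinv⟩ (by rw [zero_smul]; exact hinv)
    refine IsUnit.of_mul_eq_one (Away.mk (AA M) (ys_mem M i) 0 ⟨_, SF_le M 0 hinv⟩
      (by rw [zero_smul]; exact hinv)) ?_
    apply av_injective M i
    rw [map_mul, map_one, av_phi0, hs'', hval]
    simp [hdn]
  · apply av_injective M i
    rw [map_mul, av_phi0, av_phi0, av_mk, hs'', hb', ← h]
    ring

theorem stalk_chart (i : F3) (x : XM M) (hx : x ∈ Proj.basicOpen (AA M) (ys M i)) :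
    ∃ φ : BB M →+* (XM M).presheaf.stalk x,
      (∀ b, kap M (algebraMap _ (XM M).functionField (φ b)) = psi M i b) ∧
      ∀ a, ∃ b s : BB M, IsUnit (φ s) ∧ a * φ s = φ b := by
  refine ⟨(gs M i x hx).comp (phi0 M i), fun b => ?_, fun a => ?_⟩
  · rw [RingHom.comp_apply, kap_gs, av_phi0]
  · have hU : IsAffineOpen (Proj.basicOpen (AA M) (ys M i)) :=
      Proj.isAffineOpen_basicOpen (AA M) (ys M i) (ys_mem M i) one_pos
    have hex : ∃ p q : Away (AA M) (ys M i), IsUnit (gs M i x hx q) ∧
        a * gs M i x hx q = gs M i x hx p := by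
      letI := TopCat.Presheaf.algebra_section_stalk (XM M).presheaf
        (⟨x, hx⟩ : Proj.basicOpen (AA M) (ys M i))
      have hloc := hU.isLocalization_stalk ⟨x, hx⟩
      obtain ⟨⟨p, q⟩, h⟩ := IsLocalization.surj
        (M := (hU.primeIdealOf ⟨x, hx⟩).asIdeal.primeCompl) a
      have hq := IsLocalization.map_units ((XM M).presheaf.stalk x) q
      have hsurj : Function.Surjective (Proj.awayToSection (AA M) (ys M i)).hom :=
        (Proj.basicOpenIsoAway (AA M) (ys M i) (ys_mem M i)
          one_pos).commRingCatIsoToRingEquiv.surjective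
      obtain ⟨p', hp'⟩ := hsurj p
      obtain ⟨q', hq'⟩ := hsurj q
      refine ⟨p', q', ?_, ?_⟩
      · change IsUnit ((XM M).presheaf.germ _ x hx
          ((Proj.awayToSection (AA M) (ys M i)).hom q'))
        rw [hq']
        exact hq
      · change a * ((XM M).presheaf.germ _ x hx
          ((Proj.awayToSection (AA M) (ys M i)).hom q')) = (XM M).presheaf.germ _ x hx
          ((Proj.awayToSection (AA M) (ys M i)).hom p')
        rw [hq', hp']
        exact h
    obtain ⟨p, q, hqu, hpq⟩ := hex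
    obtain ⟨b1, s1, hs1, h1⟩ := phi0_loc M i p
    obtain ⟨b2, s2, hs2, h2⟩ := phi0_loc M i q
    refine ⟨b1 * s2, b2 * s1, ?_, ?_⟩
    · rw [RingHom.comp_apply, map_mul, ← h2, map_mul, map_mul]
      exact (hqu.mul (hs2.map _)).mul (hs1.map _)
    · simp only [RingHom.comp_apply, map_mul, ← h2, ← h1, ← hpq]
      ring

/-- `Y_j/Y_i` is a unit of the stalk at `x ∈ D₊(Y_i)` iff `x ∈ D₊(Y_j)` -/
theorem unit_iff (i j : F3) (x : XM M) (hx : x ∈ Proj.basicOpen (AA M) (ys M i)) :
    ∃ a : (XM M).presheaf.stalk x, kap M (algebraMap _ (XM M).functionField a) = yF M j / yF M i ∧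
      (IsUnit a ↔ x ∈ Proj.basicOpen (AA M) (ys M j)) := by
  have hj : ys M j ∈ AA M (1 • 1) := ys_mem M j
  refine ⟨gs M i x hx (Away.mk (AA M) (ys_mem M i) 1 (ys M j) hj), ?_, ?_⟩
  · rw [kap_gs, av_mk, pow_one, coe_ys]
  · have h1 := ProjectiveSpectrum.Proj.awayToSection_germ (AA M) (ys M i) x hx
    have h2 : gs M i x hx (Away.mk (AA M) (ys_mem M i) 1 (ys M j) hj) =
        (Proj.stalkIso (AA M) x).commRingCatIsoToRingEquiv.symm
          (HomogeneousLocalization.mapId (AA M) (Submonoid.powers_le.mpr hx)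
            (Away.mk (AA M) (ys_mem M i) 1 (ys M j) hj)) := by
      have h3 := congrArg (fun f => f.hom (Away.mk (AA M) (ys_mem M i) 1 (ys M j) hj)) h1
      exact h3
    rw [h2, MulEquiv.isUnit_map]
    exact @isUnit_mapId _ (SR M) _ (AA M) _ _ (ProjectiveSpectrum.isPrime x) _ _ _ _ _

theorem isLocallyNoetherian_XM : IsLocallyNoetherian (XM M) := by
  have hN : ∀ i : F3, IsNoetherianRing Γ(XM M, Proj.basicOpen (AA M) (ys M i)) := by
    intro i
    have h1 : IsNoetherianRing (Away (AA M) (ys M i)) :=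
      isNoetherianRing_of_loc (phi0 M i) (phi0_loc M i)
    exact isNoetherianRing_of_ringEquiv (Away (AA M) (ys M i)) (Proj.basicOpenIsoAway (AA M)
      (ys M i) (ys_mem M i) one_pos).commRingCatIsoToRingEquiv
  refine isLocallyNoetherian_of_affine_cover (X := XM M)
    (S := fun i : F3 => ⟨Proj.basicOpen (AA M) (ys M i),
      Proj.isAffineOpen_basicOpen (AA M) (ys M i) (ys_mem M i) one_pos⟩) ?_ hN
  rw [eq_top_iff]
  intro x _
  obtain ⟨i, hi⟩ := cover_XM M x
  exact TopologicalSpace.Opens.mem_iSup.mpr ⟨i, hi⟩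

end Pool.Agent.H11.BAB
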