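import Pool.Graph.R_seed8.Y939.BAB.Main
import Pool.Agent.H11.BAB.Reg0

/-!
The case of characteristic two: the theorem of the library with the characteristic in the statement.
-/

open AlgebraicGeometry CategoryTheory Order

namespace Pool.Agent.H11.BAB.Two

open Pool.Agent.H187R3
open Pool.Agent.Y939.BAB

section

variable [Rk]

theorem charP_XM (M : ℕ) : CharP Γ(XM M, ⊤) 2 := by
  have hinj : Function.Injective ((kap M).comp
      ((XM M).presheaf.germ ⊤ (genericPoint (XM M)) trivial).hom) :=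
    (kap M).injective.comp
      (germ_injective_of_isIntegral (XM M) (U := ⊤) (genericPoint (XM M)) trivial)
  exact (RingHom.charP_iff _ hinj 2).mpr inferInstance

theorem isRegular_XM (M : ℕ) (x : XM M) : IsRegularLocalRing ((XM M).presheaf.stalk x) := by
  obtain ⟨φ, hinj, -, hloc⟩ := exists_phi M _ x (mem_ch M x)
  exact isRegularLocalRing_of_loc 2 φ hinj hloc

theorem not_birBounded_aux :
    ¬ IsBirationallyBounded (fun X => CharP Γ(X, ⊤) 2 ∧
      (∀ x : X, IsRegularLocalRing (X.presheaf.stalk x)) ∧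
      ∀ ε : ℚ, ε < 1 → IsEpsKltFano ε (Rk.r + 2) X) := by
  rintro ⟨T, Y, f, hT, hqc, hlft, h⟩
  obtain ⟨N, hN⟩ := exists_generator_bound' f
  obtain ⟨Z, hZ, g, h', p, hpb, e, he⟩ := h (XM N) inferInstance ⟨charP_XM N, isRegular_XM N, fun ε hε =>
    isEpsKltFano_XM N ε hε⟩
  obtain ⟨s, hs⟩ := hN Z Γ(XM N, ⊤) g h' p hpb
  have h1 : Submodule.span Z.functionField ((fun x => KaehlerDifferential.D ℤ Z.functionField x) ''
      (Set.range s ∪ Set.range (rat p))) = ⊤ := by
    rw [← hs, Set.image_union, ← Set.range_comp, ← Set.range_comp]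
    rfl
  have h2 := span_of_equiv e _ h1
  have h3 := generators_ge N N (fun i => e.symm (s i)) (by
    rw [← h2, Set.image_union, Set.image_union]
    congr 2
    · ext x
      constructor
      · rintro ⟨i, rfl⟩
        exact ⟨_, ⟨s i, ⟨i, rfl⟩, rfl⟩, rfl⟩
      · rintro ⟨_, ⟨_, ⟨i, rfl⟩, rfl⟩, rfl⟩
        exact ⟨i, rfl⟩
    · ext x
      constructor
      · rintro ⟨a, rfl⟩
        refine ⟨_, ⟨rat p a, ⟨a, rfl⟩, rfl⟩, ?_⟩
        show KaehlerDifferential.D ℤ _ (e.symm (rat p a)) = _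
        rw [← he a, RingEquiv.symm_apply_apply]
      · rintro ⟨_, ⟨_, ⟨a, rfl⟩, rfl⟩, rfl⟩
        refine ⟨a, ?_⟩
        show KaehlerDifferential.D ℤ _ _ = KaehlerDifferential.D ℤ _ (e.symm (rat p a))
        rw [← he a, RingEquiv.symm_apply_apply])
  omega

end

theorem not_birBounded_two (d : ℕ) (hd : 2 ≤ d) :
    ¬ IsBirationallyBounded (fun X => CharP Γ(X, ⊤) 2 ∧
      (∀ x : X, IsRegularLocalRing (X.presheaf.stalk x)) ∧
      ∀ ε : ℚ, ε < 1 → IsEpsKltFano ε d X) := by
  let _ : Rk := ⟨d - 2⟩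
  have h := not_birBounded_aux
  have e : Rk.r + 2 = d := Nat.sub_add_cancel hd
  rw [e] at h
  exact h

end Pool.Agent.H11.BAB.Two
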