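import Pool.Agent.H11.BAB.Klt
import Pool.Graph.R_seed8.H187R3.TaskA
import Pool.Agent.H11.BAB.TaskD
import Pool.Agent.H11.BAB.Der

/-!
Unboundedness of the family `X_M`: the function field of `X_M` needs at least `M - 2` generators over
the field of constants, in the sense of differentials.
-/

open AlgebraicGeometry CategoryTheory Order

namespace Pool.Agent.H11.BAB

open Pool.Agent.H187R3

variable [Pr]

variable (M : ℕ)

lemma exists_lift_CC (i : F3) {c : FF M} (hc : c ∈ CC M i) :
    ∃ z : (XM M).functionField, kap M z = c := by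
  obtain ⟨p, rfl⟩ := hc
  obtain ⟨φ, hφ, -⟩ := stalk_chart M i (genericPoint (XM M)) (generic_mem M i)
  exact ⟨_, hφ p⟩

/-- the subfield of the elements killed by a derivation -/
def kf {K : Type} [Field K] [Algebra Fp K] (Δ : Derivation Fp K K) : Subfield K where
  carrier := {z | Δ z = 0}
  mul_mem' := by
    intro a b ha hb
    simp only [Set.mem_ofPred_eq, Derivation.leibniz] at *
    rw [ha, hb, smul_zero, smul_zero, add_zero]
  one_mem' := by simp
  add_mem' := by
    intro a b ha hb
    simp only [Set.mem_ofPred_eq, map_add] at *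
    rw [ha, hb, add_zero]
  zero_mem' := by simp
  neg_mem' := by
    intro a ha
    simp only [Set.mem_ofPred_eq, map_neg] at *
    rw [ha, neg_zero]
  inv_mem' := by
    intro a ha
    simp only [Set.mem_ofPred_eq, Derivation.leibniz_inv] at *
    rw [ha, smul_zero]

lemma mem_kf {K : Type} [Field K] [Algebra Fp K] {Δ : Derivation Fp K K} {z : K} :
    z ∈ kf Δ ↔ Δ z = 0 := Iff.rfl

lemma pp_mem_kf (Δ : Derivation Fp (FF M) (FF M)) (a : FF M) : a ^ Pr.p ∈ kf Δ := by
  rw [mem_kf]
  have h : ((Pr.p : ℕ) : FF M) = 0 := CharP.cast_eq_zero (FF M) Pr.p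
  rw [Derivation.leibniz_pow, ← Nat.cast_smul_eq_nsmul (FF M), h, zero_smul]

/-- A derivation of the big field which vanishes on the function field, on `e_0` and on `Y_0`
is zero. -/
lemma eq_zero_of_vanish (Δ : Derivation Fp (FF M) (FF M)) (h1 : ∀ z, kap M z ∈ kf Δ)
    (h2 : tF M (Sum.inl 0) ∈ kf Δ) (h3 : yF M 0 ∈ kf Δ) (x : FF M) : Δ x = 0 := by
  have hCC : ∀ c ∈ CC M 0, c ∈ kf Δ := by
    intro c hc
    obtain ⟨z, rfl⟩ := exists_lift_CC M 0 hc
    exact h1 z
  have hnat : ∀ n : ℕ, (n : FF M) ∈ kf Δ := fun n => natCast_mem _ n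
  have htwo : (2 : FF M) ∈ kf Δ := by exact_mod_cast hnat 2
  have ht : ∀ j, tF M j ∈ kf Δ := by
    intro j
    rw [tF_eq M 0 j]
    have e : rF M j / (2 * yF M 0 ^ 2) = (rF M j / yF M 0 ^ 2) / 2 := by
      have := two_ne_FF M
      have := yF_ne M 0
      field_simp
    rw [e]
    exact add_mem (add_mem (hCC _ (u_mem M 0 j)) (mul_mem h2 (hCC _ (qc_mem M 0 j))))
      (mul_mem (pow_mem h2 2) (div_mem (hCC _ (rdiv_mem M 0 j)) htwo))
  have hy : ∀ l, yF M l ∈ kf Δ := by
    intro l
    rw [show yF M l = yF M l / yF M 0 * yF M 0 by rw [div_mul_cancel₀ _ (yF_ne M 0)]]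
    exact mul_mem (hCC _ (ydiv_mem M 0 l)) h3
  have hP : ∀ p : PP M, algebraMap (PP M) (FF M) p ∈ kf Δ := by
    intro p
    induction p using MvPolynomial.induction_on with
    | C a =>
      have h4 : (MvPolynomial.C a : PP M) = ((a.val : ℕ) : PP M) := by
        conv_lhs => rw [← ZMod.natCast_zmod_val a]
        exact map_natCast MvPolynomial.C _
      rw [h4, map_natCast]
      exact hnat _
    | add p q hp hq => rw [map_add]; exact add_mem hp hq
    | mul_X p v hp =>
      rw [map_mul]
      refine mul_mem hp ?_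
      rcases v with j | l
      · exact ht j
      · exact hy l
  obtain ⟨a, b, hb, rfl⟩ := IsFractionRing.div_surjective (A := PP M) x
  exact div_mem (hP a) (hP b)

/-- the global functions are killed by the derivations which kill the constants of `D` -/
lemma global_mem (Δ : Derivation Fp (FF M) (FF M))
    (hΔ : ∀ g : P0 M, DD M (i0 M g) = 0 → Δ (algebraMap (PP M) (FF M) (i0 M g)) = 0)
    (a : Γ(XM M, ⊤)) :
    kap M ((XM M).presheaf.germ ⊤ (genericPoint (XM M)) trivial a) ∈ kf Δ := by
  obtain ⟨e, he⟩ := exists_globalIso M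
  obtain ⟨a', rfl⟩ := e.surjective a
  obtain ⟨f, n, hn, hf, hfn⟩ := exists_of_mem_AA0 M a'
  rw [he, hfn]
  exact div_mem (hΔ f hf) (pp_mem_kf M Δ _)

/-- If the differentials of elements of `S` span `Ω`, a derivation that kills `S` is zero. -/
lemma vanish_of_span {K F : Type} [Field K] [Field F] [Algebra Fp F] (κ : K →+* F) (S : Set K)
    (hS : Submodule.span K ((fun x => KaehlerDifferential.D ℤ K x) '' S) = ⊤)
    (Δ : Derivation Fp F F) (h : ∀ x ∈ S, κ x ∈ kf Δ) (z : K) : κ z ∈ kf Δ := by
  letI : Algebra K F := κ.toAlgebra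
  let d : Derivation ℤ K F :=
    { toFun := fun x => Δ (κ x)
      map_add' := by intro a b; simp
      map_smul' := by intro n a; simp
      map_one_eq_zero' := by simp
      leibniz' := by
        intro a b
        change Δ (κ (a * b)) = κ a • Δ (κ b) + κ b • Δ (κ a)
        rw [map_mul, Derivation.leibniz] }
  have h0 : d.liftKaehlerDifferential = 0 := by
    have hle : (⊤ : Submodule K (Ω[K⁄ℤ])) ≤ LinearMap.ker d.liftKaehlerDifferential := by
      rw [← hS, Submodule.span_le]
      rintro _ ⟨y, hy, rfl⟩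
      show d.liftKaehlerDifferential (KaehlerDifferential.D ℤ K y) = 0
      rw [Derivation.liftKaehlerDifferential_comp_D]
      exact h y hy
    exact LinearMap.ker_eq_top.mp (top_le_iff.mp hle)
  have h1 : d z = 0 := by
    rw [← Derivation.liftKaehlerDifferential_comp_D, h0, LinearMap.zero_apply]
  exact h1

theorem generators_ge (N : ℕ) (s : Fin N → (XM M).functionField)
    (hs : Submodule.span (XM M).functionField
            ((Set.range fun i => KaehlerDifferential.D ℤ (XM M).functionField (s i)) ∪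
              Set.range fun a : Γ(XM M, ⊤) => KaehlerDifferential.D ℤ (XM M).functionField
                ((XM M).presheaf.germ ⊤ (genericPoint (XM M)) trivial a)) = ⊤) :
    M ≤ N + 2 := by
  by_contra hlt
  obtain ⟨Δ, hΔ1, hΔ2⟩ := exists_derivations_FF M
  -- the vanishing conditions
  let T : (Fin M → FF M) →ₗ[FF M] (Fin N ⊕ Fin 2 → FF M) :=
    LinearMap.pi fun j => ∑ k : Fin M,
      (Δ k (Sum.elim (fun i => kap M (s i)) ![tF M (Sum.inl 0), yF M 0] j)) •
        LinearMap.proj k
  have hT : LinearMap.ker T ≠ ⊥ := by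
    apply LinearMap.ker_ne_bot_of_finrank_lt
    rw [Module.finrank_fintype_fun_eq_card, Module.finrank_fintype_fun_eq_card]
    simp
    omega
  obtain ⟨c, hc, hc0⟩ := (Submodule.ne_bot_iff _).mp hT
  have hcT : ∀ j, ∑ k : Fin M,
      c k * Δ k (Sum.elim (fun i => kap M (s i)) ![tF M (Sum.inl 0), yF M 0] j) = 0 := by
    intro j
    have h1 := congrFun (LinearMap.mem_ker.mp hc) j
    simp only [T, LinearMap.pi_apply, LinearMap.coe_sum, Finset.sum_apply, LinearMap.smul_apply,
      LinearMap.proj_apply, smul_eq_mul, Pi.zero_apply] at h1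
    rw [← h1]
    exact Finset.sum_congr rfl fun k _ => mul_comm _ _
  let Δ' : Derivation Fp (FF M) (FF M) := ∑ k : Fin M, c k • Δ k
  have hΔ' : ∀ x, Δ' x = ∑ k : Fin M, c k * Δ k x := by
    intro x
    have h1 := congrFun (map_sum (Derivation.coeFnAddMonoidHom (R := Fp) (A := FF M) (M := FF M))
      (fun k : Fin M => c k • Δ k) Finset.univ) x
    rw [Finset.sum_apply] at h1
    exact h1
  have hv : ∀ z, kap M z ∈ kf Δ' := by
    refine vanish_of_span (kap M) (Set.range s ∪ Set.range fun a : Γ(XM M, ⊤) =>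
      (XM M).presheaf.germ ⊤ (genericPoint (XM M)) trivial a) ?_ Δ' ?_
    · rw [← hs, Set.image_union, ← Set.range_comp, ← Set.range_comp]
      rfl
    · rintro x (⟨i, rfl⟩ | ⟨a, rfl⟩)
      · rw [mem_kf, hΔ']
        exact hcT (Sum.inl i)
      · refine global_mem M Δ' (fun g hg => ?_) a
        rw [hΔ']
        exact Finset.sum_eq_zero fun k _ => by rw [hΔ1 k g hg, mul_zero]
  have h0 : ∀ x, ∑ k : Fin M, c k * Δ k x = 0 := by
    intro x
    rw [← hΔ']
    refine eq_zero_of_vanish M Δ' hv ?_ ?_ x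
    · rw [mem_kf, hΔ']; exact hcT (Sum.inr 0)
    · rw [mem_kf, hΔ']; exact hcT (Sum.inr 1)
  exact hc0 (independent M Δ hΔ2 c h0)

end Pool.Agent.H11.BAB
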