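import Pool.Agent.H11.BAB.Grad
import Pool.Graph.R_seed8.H187R3.TaskC
import Pool.Graph.R_seed8.H187R3.Defs

/-!
The scheme `X_M = Proj (SR M)`, its structure as an integral scheme and the embedding of its
function field in the field `FF M`.
-/

open AlgebraicGeometry CategoryTheory HomogeneousLocalization

namespace Pool.Agent.H11.BAB

open Pool.Agent.H187R3

variable [Pr]

variable (M : ℕ)

/-- the coordinates `Y_l` as elements of the graded ring -/
noncomputable def ys (l : F3) : SR M :=
  ⟨yF M l, SF_le M 1 ⟨1, one_ne_zero, Yv M l, Yv_mem M l, DD_Y M l, by simp [yF]⟩⟩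

lemma ys_mem (l : F3) : ys M l ∈ AA M 1 :=
  ⟨1, one_ne_zero, Yv M l, Yv_mem M l, DD_Y M l, by simp [ys, yF]⟩

lemma coe_ys (l : F3) : ((ys M l : SR M) : FF M) = yF M l := rfl

lemma ys_ne (l : F3) : ys M l ≠ 0 := by
  intro h
  exact yF_ne M l (congrArg Subtype.val h)

/-- The scheme. -/
noncomputable abbrev XM : Scheme.{0} := Proj (AA M)

noncomputable instance : IsIntegral (XM M) :=
  proj_isIntegral (AA M) ⟨1, one_pos, ys M 0, ys_mem M 0, ys_ne M 0⟩

/-- the embedding of the function field -/
noncomputable def kap : (XM M).functionField →+* FF M := (exists_proj_embedding (SR M) (AA M)).choose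

lemma kap_spec (m : ℕ) (hm : 0 < m) (f : SR M) (hf : f ∈ AA M m) (hf0 : f ≠ 0) (n : ℕ) (s : SR M)
    (hs : s ∈ AA M (n * m)) (hη : genericPoint (XM M) ∈ Proj.basicOpen (AA M) f) :
    kap M ((XM M).presheaf.germ (Proj.basicOpen (AA M) f) (genericPoint (XM M)) hη
      (Proj.awayToSection (AA M) f (Away.mk (AA M) hf n s hs))) = (s : FF M) / (f : FF M) ^ n :=
  (exists_proj_embedding (SR M) (AA M)).choose_spec m hm f hf hf0 n s hs hη

end Pool.Agent.H11.BAB
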